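import Mathlib

/-!
A common abstract form of the subspace theorem and of the second main theorem, with a field of small
(moving) coefficients.
-/

set_option autoImplicit false
set_option linter.unusedSectionVars false
set_option linter.overlappingInstances false

open Finset Filter Module

namespace Pool.Agent.N754.MT

/-- A domain `R` over a field of small elements `k`, with absolute values `A x : Ω → ℝ`, and a
notion `Neg` of functions which are negligible from above compared with the function `one`. -/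
structure Dm (k R : Type) [Field k] [CommRing R] [Algebra k R] where
  Ω : Type
  ev : Filter Ω
  A : R → Ω → ℝ
  Neg : (Ω → ℝ) → Prop
  one : Ω → ℝ
  A_zero : ∀ᶠ ω in ev, A 0 ω = 0
  A_pos : ∀ x, x ≠ 0 → ∀ᶠ ω in ev, 0 < A x ω
  A_mul : ∀ x y, ∀ᶠ ω in ev, A (x * y) ω = A x ω * A y ω
  A_add : ∀ x y, ∀ᶠ ω in ev, A (x + y) ω ≤ A x ω + A y ω
  A_small : ∀ c : k, ∃ g : Ω → ℝ, Neg g ∧
    ∀ᶠ ω in ev, 0 ≤ g ω ∧ A (algebraMap k R c) ω ≤ Real.exp (g ω)
  neg_mono : ∀ f g : Ω → ℝ, (∀ᶠ ω in ev, g ω ≤ f ω) → Neg f → Neg g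
  neg_add : ∀ f g, Neg f → Neg g → Neg (fun ω => f ω + g ω)
  neg_smul : ∀ f (c : ℝ), 0 ≤ c → Neg f → Neg (fun ω => c * f ω)
  neg_const : ∀ c : ℝ, Neg (fun _ => c)
  one_nonneg : ∀ᶠ ω in ev, 0 ≤ one ω
  arch : ∀ f, (∀ ε : ℝ, 0 < ε → Neg (fun ω => f ω - ε * one ω)) → Neg f
  bdd : ∀ u : Rˣ, ∃ C : ℝ, 0 ≤ C ∧ Neg (fun ω => |Real.log (A u ω)| - C * one ω)
  unit_neg : ∀ u : Rˣ, Neg (fun ω => Real.log (A u ω))
  smt : ∀ (N : ℕ) (κ : Type) [Finite κ] (B : κ → Fin N → R),
    (∀ c, LinearIndependent k (B c)) →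
    (∀ c c', Submodule.span k (Set.range (B c)) = Submodule.span k (Set.range (B c'))) →
    ∀ s : Ω → κ, Neg (fun ω => -∑ a, Real.log (A (B (s ω) a) ω))
  low : ∀ u : Rˣ, Neg (fun ω => |Real.log (A u ω)|) → ∃ c : k, (u : R) = algebraMap k R c

namespace Dm

variable {k R : Type} [Field k] [CommRing R] [IsDomain R] [Algebra k R] (D : Dm k R)

theorem neg_sum {ι : Type} (s : Finset ι) (f : ι → D.Ω → ℝ) (h : ∀ i ∈ s, D.Neg (f i)) :
    D.Neg (fun ω => ∑ i ∈ s, f i ω) := by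
  classical
  induction s using Finset.induction_on with
  | empty => simpa using D.neg_const 0
  | insert i s hi ih =>
    simp only [Finset.sum_insert hi]
    exact D.neg_add _ _ (h i (Finset.mem_insert_self _ _))
      (ih fun j hj => h j (Finset.mem_insert_of_mem hj))

theorem A_one : ∀ᶠ ω in D.ev, D.A 1 ω = 1 := by
  filter_upwards [D.A_pos 1 one_ne_zero, D.A_mul 1 1] with ω h1 h2
  rw [mul_one] at h2
  have h3 : D.A 1 ω * (D.A 1 ω - 1) = 0 := by linarith
  rcases mul_eq_zero.1 h3 with h | h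
  · linarith
  · linarith

theorem A_pow (x : R) (n : ℕ) : ∀ᶠ ω in D.ev, D.A (x ^ n) ω = D.A x ω ^ n := by
  induction n with
  | zero => simpa using D.A_one
  | succ n ih =>
    filter_upwards [ih, D.A_mul (x ^ n) x] with ω h1 h2
    rw [pow_succ, pow_succ, h2, h1]

theorem A_prod {ι : Type} (s : Finset ι) (x : ι → R) :
    ∀ᶠ ω in D.ev, D.A (∏ i ∈ s, x i) ω = ∏ i ∈ s, D.A (x i) ω := by
  classical
  induction s using Finset.induction_on with
  | empty => simpa using D.A_one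
  | insert i s hi ih =>
    filter_upwards [ih, D.A_mul (x i) (∏ i ∈ s, x i)] with ω h1 h2
    rw [Finset.prod_insert hi, Finset.prod_insert hi, h2, h1]

theorem A_nonneg (x : R) : ∀ᶠ ω in D.ev, 0 ≤ D.A x ω := by
  by_cases hx : x = 0
  · subst hx
    filter_upwards [D.A_zero] with ω h
    rw [h]
  · filter_upwards [D.A_pos x hx] with ω h
    exact h.le

theorem A_sum {ι : Type} (s : Finset ι) (x : ι → R) :
    ∀ᶠ ω in D.ev, D.A (∑ i ∈ s, x i) ω ≤ ∑ i ∈ s, D.A (x i) ω := by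
  classical
  induction s using Finset.induction_on with
  | empty =>
    filter_upwards [D.A_zero] with ω h
    simp [h]
  | insert i s hi ih =>
    filter_upwards [ih, D.A_add (x i) (∑ i ∈ s, x i)] with ω h1 h2
    rw [Finset.sum_insert hi, Finset.sum_insert hi]
    linarith

/-- the logarithm -/
noncomputable def lg (x : R) (ω : D.Ω) : ℝ := Real.log (D.A x ω)

theorem lg_mul (x y : R) (hx : x ≠ 0) (hy : y ≠ 0) :
    ∀ᶠ ω in D.ev, D.lg (x * y) ω = D.lg x ω + D.lg y ω := by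
  filter_upwards [D.A_mul x y, D.A_pos x hx, D.A_pos y hy] with ω h1 h2 h3
  unfold lg
  rw [h1, Real.log_mul h2.ne' h3.ne']

theorem lg_one : ∀ᶠ ω in D.ev, D.lg 1 ω = 0 := by
  filter_upwards [D.A_one] with ω h
  unfold lg
  rw [h, Real.log_one]

theorem lg_inv (u : Rˣ) : ∀ᶠ ω in D.ev, D.lg (u⁻¹ : Rˣ) ω = -D.lg u ω := by
  filter_upwards [D.lg_mul (u : R) (u⁻¹ : Rˣ) u.ne_zero (Units.ne_zero _), D.lg_one] with ω h1 h2
  rw [Units.mul_inv, h2] at h1
  linarith

theorem lg_pow (x : R) (n : ℕ) : ∀ᶠ ω in D.ev, D.lg (x ^ n) ω = n * D.lg x ω := by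
  filter_upwards [D.A_pow x n] with ω h1
  unfold lg
  rw [h1, Real.log_pow]

theorem lg_prod {ι : Type} (s : Finset ι) (x : ι → R) (hx : ∀ i ∈ s, x i ≠ 0) :
    ∀ᶠ ω in D.ev, D.lg (∏ i ∈ s, x i) ω = ∑ i ∈ s, D.lg (x i) ω := by
  have h1 : ∀ᶠ ω in D.ev, ∀ i ∈ s, 0 < D.A (x i) ω :=
    (Filter.eventually_all_finset s).2 fun i hi => D.A_pos _ (hx i hi)
  filter_upwards [D.A_prod s x, h1] with ω h2 h3
  unfold lg
  rw [h2, Real.log_prod (fun i hi => (h3 i hi).ne')]

theorem unit_neg' (u : Rˣ) : D.Neg (fun ω => D.lg u ω) := D.unit_neg u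

theorem unit_neg_inv (u : Rˣ) : D.Neg (fun ω => -D.lg u ω) := by
  refine D.neg_mono _ _ ?_ (D.unit_neg' u⁻¹)
  filter_upwards [D.lg_inv u] with ω h
  rw [h]

theorem neg_lg_neg (x : R) (hx : x ≠ 0) : D.Neg (fun ω => -D.lg x ω) := by
  have h := D.smt 1 Unit (fun _ _ => x) (fun _ => by
    rw [linearIndependent_unique_iff]
    exact hx) (fun _ _ => rfl) (fun _ => ())
  refine D.neg_mono _ _ (Filter.Eventually.of_forall fun ω => ?_) h
  rw [Fin.sum_univ_one]
  exact le_refl _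

/-- the upper bound for polynomial expressions -/
theorem lg_sum_le {ι : Type} [Fintype ι] (c : ι → k) (x : ι → R) (hx : ∀ i, x i ≠ 0)
    (h0 : ∑ i, algebraMap k R (c i) * x i ≠ 0) :
    ∃ g : D.Ω → ℝ, D.Neg g ∧ ∀ᶠ ω in D.ev, 0 ≤ g ω ∧ ∀ w : ℝ,
      (∀ i, c i ≠ 0 → D.lg (x i) ω ≤ w) →
      D.lg (∑ i, algebraMap k R (c i) * x i) ω ≤ g ω + w := by
  classical
  choose g hg hg2 using fun i => D.A_small (c i)
  refine ⟨fun ω => Real.log (Fintype.card ι + 1) + ∑ i, g i ω,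
    D.neg_add _ _ (D.neg_const _) (D.neg_sum _ _ fun i _ => hg i), ?_⟩
  have h1 : ∀ᶠ ω in D.ev, ∀ i ∈ (Finset.univ : Finset ι), 0 ≤ g i ω ∧
      D.A (algebraMap k R (c i)) ω ≤ Real.exp (g i ω) :=
    (Filter.eventually_all_finset _).2 fun i _ => hg2 i
  have h2 : ∀ᶠ ω in D.ev, ∀ i ∈ (Finset.univ : Finset ι), 0 < D.A (x i) ω :=
    (Filter.eventually_all_finset _).2 fun i _ => D.A_pos _ (hx i)
  have h3 : ∀ᶠ ω in D.ev, ∀ i ∈ (Finset.univ : Finset ι),
      D.A (algebraMap k R (c i) * x i) ω = D.A (algebraMap k R (c i)) ω * D.A (x i) ω :=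
    (Filter.eventually_all_finset _).2 fun i _ => D.A_mul _ _
  filter_upwards [h1, h2, h3, D.A_sum Finset.univ (fun i => algebraMap k R (c i) * x i),
    D.A_pos _ h0, D.A_zero] with ω g1 g2 g3 g4 g5 g0
  have hgs : 0 ≤ ∑ i, g i ω := Finset.sum_nonneg fun i hi => (g1 i hi).1
  have hc1 : (1 : ℝ) ≤ Fintype.card ι + 1 := by
    have : (0 : ℝ) ≤ Fintype.card ι := Nat.cast_nonneg _
    linarith
  have hl0 : 0 ≤ Real.log (Fintype.card ι + 1) := Real.log_nonneg hc1
  refine ⟨by positivity, fun w hw => ?_⟩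
  have h5 : D.A (∑ i, algebraMap k R (c i) * x i) ω ≤
      (Fintype.card ι + 1) * Real.exp (∑ i, g i ω + w) := by
    refine g4.trans ?_
    have h6 : ∀ i ∈ (Finset.univ : Finset ι), D.A (algebraMap k R (c i) * x i) ω ≤
        Real.exp (∑ i, g i ω + w) := by
      intro i hi
      by_cases hci : c i = 0
      · rw [hci, map_zero, zero_mul, g0]
        positivity
      · rw [g3 i hi, Real.exp_add]
        have h7 : D.A (x i) ω ≤ Real.exp w := by
          rw [← Real.log_le_iff_le_exp (g2 i hi)]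
          exact hw i hci
        have h8 : D.A (algebraMap k R (c i)) ω ≤ Real.exp (∑ i, g i ω) := by
          refine (g1 i hi).2.trans (Real.exp_le_exp.2 ?_)
          exact Finset.single_le_sum (f := fun i => g i ω) (fun j hj => (g1 j hj).1) hi
        exact mul_le_mul h8 h7 (g2 i hi).le (Real.exp_pos _).le
    refine (Finset.sum_le_sum h6).trans ?_
    rw [Finset.sum_const, Finset.card_univ, nsmul_eq_mul]
    refine mul_le_mul_of_nonneg_right (by linarith) (Real.exp_pos _).le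
  unfold lg
  have h6 := Real.log_le_log g5 h5
  rw [Real.log_mul (by positivity) (Real.exp_pos _).ne', Real.log_exp] at h6
  linarith

end Dm

end Pool.Agent.N754.MT
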