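import Mathlib
import Pool.Agent.N754.MT.Quot
import Pool.Agent.N754.LT.Low

/-!
Minimal linear relations between elements of small size, and units.
-/

set_option autoImplicit false
set_option linter.unusedSectionVars false

open Finset Filter Module MvPolynomial

namespace Pool.Agent.N754.MT

open Pool.Agent.Y742.DI Pool.Agent.N754.LT

variable {k R : Type} [Field k] [CommRing R] [IsDomain R] [Algebra k R] (D : Dm k R) {r : ℕ}

theorem lin_low {T : Type} [Fintype T] (g : T → R) (c : T → k) (hc : ∀ a, c a ≠ 0)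
    (hrel : ∑ a, algebraMap k R (c a) * g a = 0)
    (hmin : ∀ d : T → k, ∑ a, algebraMap k R (d a) * g a = 0 → (∃ a, d a = 0) → d = 0)
    (hneg : ∀ a, D.Neg (fun ω => D.lg (g a) ω)) (i j : T) :
    D.Neg (fun ω => |D.lg (g i) ω - D.lg (g j) ω|) := by
  classical
  by_cases hij : i = j
  · subst hij
    refine D.neg_mono _ _ (Filter.Eventually.of_forall fun ω => ?_) (D.neg_const 0)
    simp
  have hother : ∀ a : T, ∃ b, b ≠ a := by
    intro a
    by_cases h : i = a
    · exact ⟨j, fun h2 => hij (h.trans h2.symm)⟩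
    · exact ⟨i, h⟩
  have hg0 : ∀ a, g a ≠ 0 := by
    intro a ha
    obtain ⟨b, hb⟩ := hother a
    have h1 := hmin (Pi.single a 1) (by
      rw [Finset.sum_eq_single a]
      · rw [ha, mul_zero]
      · intro b' _ hb'
        rw [Pi.single_eq_of_ne hb', map_zero, zero_mul]
      · intro h
        exact absurd (Finset.mem_univ _) h) ⟨b, Pi.single_eq_of_ne hb _⟩
    have h2 := congrFun h1 a
    rw [Pi.single_eq_same] at h2
    exact one_ne_zero h2
  let N : ℕ := Fintype.card T - 1
  have hcard : ∀ a : T, Fintype.card {b : T // b ≠ a} = N := by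
    intro a
    rw [Fintype.card_subtype_compl, Fintype.card_subtype_eq]
  let e : ∀ a : T, {b : T // b ≠ a} ≃ Fin N := fun a => Fintype.equivFinOfCardEq (hcard a)
  let B : T → Fin N → R := fun a i => g ((e a).symm i).1
  have hBli : ∀ a, LinearIndependent k (B a) := by
    intro a
    have h1 : LinearIndependent k (fun b : {b : T // b ≠ a} => g b.1) := by
      rw [Fintype.linearIndependent_iff]
      intro d hd
      let d' : T → k := fun b => if h : b ≠ a then d ⟨b, h⟩ else 0
      have h2 : ∑ b, algebraMap k R (d' b) * g b = 0 := by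
        rw [← Finset.add_sum_erase _ _ (Finset.mem_univ a)]
        have h3 : d' a = 0 := by simp [d']
        rw [h3, map_zero, zero_mul, zero_add, ← hd]
        symm
        refine Finset.sum_bij (fun b _ => b.1) (fun b _ => Finset.mem_erase.2 ⟨b.2, Finset.mem_univ _⟩)
          (fun b _ b' _ h => Subtype.ext h) (fun b hb => ⟨⟨b, (Finset.mem_erase.1 hb).1⟩,
            Finset.mem_univ _, rfl⟩) fun b _ => ?_
        have h4 : d' b.1 = d b := by
          simp only [d']
          rw [dif_pos b.2]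
        rw [h4, Algebra.smul_def]
      have h5 := hmin d' h2 ⟨a, by simp [d']⟩
      intro b
      have h6 := congrFun h5 b.1
      simp only [d'] at h6
      rw [dif_pos b.2] at h6
      exact h6
    exact h1.comp _ (e a).symm.injective
  have hspan : ∀ a, Submodule.span k (Set.range (B a)) = Submodule.span k (Set.range g) := by
    intro a
    apply le_antisymm
    · rw [Submodule.span_le]
      rintro _ ⟨i, rfl⟩
      exact Submodule.subset_span ⟨_, rfl⟩
    · have hne : ∀ b, b ≠ a → g b ∈ Submodule.span k (Set.range (B a)) := by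
        intro b hb
        refine Submodule.subset_span ⟨e a ⟨b, hb⟩, ?_⟩
        simp only [B, Equiv.symm_apply_apply]
      rw [Submodule.span_le]
      rintro _ ⟨b, rfl⟩
      by_cases hb : b = a
      · subst hb
        have h1 : g b = (c b)⁻¹ • (-∑ a' ∈ Finset.univ.erase b, c a' • g a') := by
          have h2 : c b • g b + ∑ a' ∈ Finset.univ.erase b, c a' • g a' = 0 := by
            rw [Finset.add_sum_erase _ (fun a' : T => c a' • g a') (Finset.mem_univ b), ← hrel]
            exact Finset.sum_congr rfl fun a' _ => Algebra.smul_def _ _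
          rw [← eq_neg_of_add_eq_zero_left h2, smul_smul, inv_mul_cancel₀ (hc b), one_smul]
        show g b ∈ _
        rw [h1]
        refine Submodule.smul_mem _ _ (Submodule.neg_mem _ (Submodule.sum_mem _ fun a' ha' => ?_))
        exact Submodule.smul_mem _ _ (hne a' (Finset.ne_of_mem_erase ha'))
      · exact hne b hb
  have : Nonempty T := ⟨i⟩
  choose s hs using fun ω : D.Ω => Finite.exists_max (fun a : T => D.lg (g a) ω)
  have hsmt := D.smt N T B hBli (fun a a' => (hspan a).trans (hspan a').symm) s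
  have hmax : D.Neg (fun ω => D.lg (g (s ω)) ω) := by
    have h1 := D.neg_add _ _ hsmt (D.neg_sum (Finset.univ : Finset T) _ fun a _ => hneg a)
    refine D.neg_mono _ _ (Filter.Eventually.of_forall fun ω => ?_) h1
    have h2 : ∑ i, Real.log (D.A (B (s ω) i) ω) =
        ∑ a ∈ Finset.univ.erase (s ω), D.lg (g a) ω := by
      have h3 : ∑ i, Real.log (D.A (B (s ω) i) ω) =
          ∑ b : {b : T // b ≠ s ω}, D.lg (g b.1) ω :=
        Fintype.sum_equiv (e (s ω)).symm _ _ fun i => rfl
      rw [h3]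
      exact Finset.sum_bij (fun b _ => b.1) (fun b _ => Finset.mem_erase.2 ⟨b.2, Finset.mem_univ _⟩)
          (fun b _ b' _ h => Subtype.ext h) (fun b hb => ⟨⟨b, (Finset.mem_erase.1 hb).1⟩,
            Finset.mem_univ _, rfl⟩) fun b _ => rfl
    have h4 := Finset.add_sum_erase (Finset.univ : Finset T) (fun a => D.lg (g a) ω)
      (Finset.mem_univ (s ω))
    rw [h2]
    linarith
  have h1 := D.neg_add _ _ (D.neg_add _ _ (D.neg_smul _ 2 (by norm_num) hmax)
    (D.neg_lg_neg (g i) (hg0 i))) (D.neg_lg_neg (g j) (hg0 j))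
  refine D.neg_mono _ _ (Filter.Eventually.of_forall fun ω => ?_) h1
  have h2 := hs ω i
  have h3 := hs ω j
  rw [abs_le]
  constructor <;> linarith

/-- logarithms of small elements -/
theorem const_low (c : k) (hc : c ≠ 0) : D.Neg (fun ω => |D.lg (algebraMap k R c) ω|) := by
  have hc0 : algebraMap k R c ≠ 0 := (map_ne_zero _).2 hc
  obtain ⟨g, hg, h1⟩ := D.A_small c
  refine D.neg_mono _ _ ?_ (D.neg_add _ _ (D.neg_smul _ 2 (by norm_num) hg)
    (D.neg_lg_neg _ hc0))
  filter_upwards [h1, D.A_pos _ hc0] with ω g1 g2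
  have g3 : D.lg (algebraMap k R c) ω ≤ g ω := (Real.log_le_iff_le_exp g2).2 g1.2
  have g4 := g1.1
  rw [abs_le]
  constructor <;> linarith

include D in
/-- units which are pairwise independent modulo small elements are linearly independent -/
theorem units_li (m : ℕ) (g : Fin m → Rˣ)
    (hne : ∀ i j, i ≠ j → ∀ c : k, (g i : R) ≠ algebraMap k R c * g j)
    (c : Fin m → k) (hc : ∑ i, algebraMap k R (c i) * g i = 0) : c = 0 := by
  classical
  by_contra hc0
  -- a relation with minimal support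
  let P : ℕ → Prop := fun N => ∃ d : Fin m → k, d ≠ 0 ∧
    ∑ i, algebraMap k R (d i) * g i = 0 ∧ (Finset.univ.filter fun i => d i ≠ 0).card = N
  have hP : ∃ N, P N := ⟨_, c, hc0, hc, rfl⟩
  obtain ⟨d, hd0, hd, hcard⟩ := Nat.find_spec hP
  let T : Type := {i : Fin m // d i ≠ 0}
  have hsumT : ∀ f : Fin m → k, (∀ i, d i = 0 → f i = 0) →
      ∑ a : T, algebraMap k R (f a.1) * (g a.1 : R) = ∑ i, algebraMap k R (f i) * (g i : R) := by
    intro f hf
    rw [← Finset.sum_filter_add_sum_filter_not (Finset.univ : Finset (Fin m)) (fun i => d i ≠ 0)]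
    have h2 : ∑ i ∈ Finset.univ.filter (fun i => ¬ d i ≠ 0),
        algebraMap k R (f i) * (g i : R) = 0 := by
      refine Finset.sum_eq_zero fun i hi => ?_
      rw [hf i (not_not.1 (Finset.mem_filter.1 hi).2), map_zero, zero_mul]
    rw [h2, add_zero]
    refine Finset.sum_bij (fun a _ => a.1) (fun a _ => ?_) (fun a _ b _ h => Subtype.ext h)
      (fun b hb => ⟨⟨b, (Finset.mem_filter.1 hb).2⟩, Finset.mem_univ _, rfl⟩) fun a _ => rfl
    exact Finset.mem_filter.2 ⟨Finset.mem_univ _, a.2⟩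
  have hrel : ∑ a : T, algebraMap k R (d a.1) * (g a.1 : R) = 0 := by
    rw [hsumT d fun i h => h]
    exact hd
  have hmin : ∀ f : T → k, ∑ a, algebraMap k R (f a) * (g a.1 : R) = 0 → (∃ a, f a = 0) →
      f = 0 := by
    intro f hf ⟨a0, ha0⟩
    let f' : Fin m → k := fun i => if h : d i ≠ 0 then f ⟨i, h⟩ else 0
    have hf'T : ∀ a : T, f' a.1 = f a := fun a => by
      simp only [f']
      rw [dif_pos a.2]
    have h1 : ∑ i, algebraMap k R (f' i) * (g i : R) = 0 := by
      rw [← hsumT f' (fun i h => by simp [f', h]), ← hf]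
      exact Finset.sum_congr rfl fun a _ => by rw [hf'T]
    by_contra hf0
    have hf'0 : f' ≠ 0 := by
      intro h
      apply hf0
      funext a
      rw [← hf'T, h]
      rfl
    have h2 : (Finset.univ.filter fun i => f' i ≠ 0) ⊂ Finset.univ.filter fun i => d i ≠ 0 := by
      refine (Finset.ssubset_iff_of_subset ?_).2 ⟨a0.1, ?_, ?_⟩
      · intro i hi
        refine Finset.mem_filter.2 ⟨Finset.mem_univ _, fun h => ?_⟩
        apply (Finset.mem_filter.1 hi).2
        simp [f', h]
      · exact Finset.mem_filter.2 ⟨Finset.mem_univ _, a0.2⟩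
      · intro h
        exact (Finset.mem_filter.1 h).2 (by rw [hf'T, ha0])
    have h3 := Finset.card_lt_card h2
    rw [hcard] at h3
    exact Nat.find_min hP h3 ⟨f', hf'0, h1, rfl⟩
  obtain ⟨i, hi⟩ := Function.ne_iff.1 hd0
  -- there are two indices in the support
  obtain ⟨j, hji, hj⟩ : ∃ j, j ≠ i ∧ d j ≠ 0 := by
    by_contra hcon
    push Not at hcon
    have h1 : ∑ l, algebraMap k R (d l) * (g l : R) = algebraMap k R (d i) * g i := by
      rw [Finset.sum_eq_single i]
      · intro l _ hl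
        rw [hcon l hl, map_zero, zero_mul]
      · intro h
        exact absurd (Finset.mem_univ _) h
    rw [h1] at hd
    exact mul_ne_zero ((map_ne_zero _).2 hi) (Units.ne_zero _) hd
  have h1 := lin_low D (fun a : T => (g a.1 : R)) (fun a => d a.1) (fun a => a.2) hrel hmin
    (fun a => D.unit_neg' (g a.1)) ⟨j, hj⟩ ⟨i, hi⟩
  have h2 : D.Neg (fun ω => |Real.log (D.A ((g j * (g i)⁻¹ : Rˣ) : R) ω)|) := by
    refine D.neg_mono _ _ ?_ h1
    filter_upwards [D.lg_mul (g j : R) (((g i)⁻¹ : Rˣ) : R) (Units.ne_zero _) (Units.ne_zero _),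
      D.lg_inv (g i)] with ω g1 g2
    have g3 : Real.log (D.A ((g j * (g i)⁻¹ : Rˣ) : R) ω) =
        D.lg (g j : R) ω - D.lg (g i : R) ω := by
      have : Real.log (D.A ((g j * (g i)⁻¹ : Rˣ) : R) ω) = D.lg ((g j : R) * ((g i)⁻¹ : Rˣ)) ω := rfl
      rw [this, g1, g2]
      ring
    rw [g3]
  obtain ⟨c', hc'⟩ := D.low _ h2
  apply hne j i hji c'
  rw [← hc', Units.val_mul, mul_assoc, Units.inv_mul, mul_one]

include D in
/-- units with a small power are small -/
theorem units_tf (g : Rˣ) (m : ℕ) (hm : 0 < m)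
    (h : ∃ c : k, ((g ^ m : Rˣ) : R) = algebraMap k R c) : ∃ c : k, (g : R) = algebraMap k R c := by
  obtain ⟨c, hc⟩ := h
  have hc0 : c ≠ 0 := by
    intro h
    rw [h, map_zero] at hc
    exact Units.ne_zero _ hc
  apply D.low
  refine D.neg_mono _ _ ?_ (const_low D c hc0)
  filter_upwards [D.lg_pow (g : R) m] with ω h1
  rw [← Units.val_pow_eq_pow_val, hc] at h1
  have h2 : |D.lg (algebraMap k R c) ω| = m * |D.lg (g : R) ω| := by
    rw [h1, abs_mul, abs_of_nonneg (Nat.cast_nonneg m)]
  rw [h2]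
  have h3 : (1 : ℝ) ≤ m := by exact_mod_cast hm
  have h4 := abs_nonneg (D.lg (g : R) ω)
  show |D.lg (g : R) ω| ≤ _
  nlinarith

theorem supp_low (w : Fin r → Rˣ) (hw : AlgebraicIndependent k (fun i => (w i : R)))
    (q : MvPolynomial (Fin r) k)
    (h : D.Neg (fun ω => D.lg (aeval (fun i => (w i : R)) q) ω)) (b b' : Fin r →₀ ℕ)
    (hb : b ∈ q.support) (hb' : b' ∈ q.support) :
    D.Neg (fun ω => |D.lg (mon w (fun i => b i) : Rˣ) ω - D.lg (mon w (fun i => b' i) : Rˣ) ω|) := by
  classical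
  let T : Type := {s : Fin r →₀ ℕ // s ∈ q.support}
  let g : Option T → R := fun o => match o with
    | none => aeval (fun i => (w i : R)) q
    | some a => (mon w (fun i => a.1 i) : Rˣ)
  let c : Option T → k := fun o => match o with
    | none => -1
    | some a => coeff a.1 q
  have hφq : aeval (fun i => (w i : R)) q =
      ∑ a : T, algebraMap k R (coeff a.1 q) * ((mon w (fun i => a.1 i) : Rˣ) : R) := by
    conv_lhs => rw [q.as_sum]
    rw [map_sum, ← Finset.sum_coe_sort]
    exact Finset.sum_congr rfl fun a _ => mon_fs w a.1 _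
  refine lin_low D g c (fun o => ?_) ?_ ?_ (fun o => ?_) (some ⟨b, hb⟩) (some ⟨b', hb'⟩)
  · cases o with
    | none => exact neg_ne_zero.2 one_ne_zero
    | some a => exact mem_support_iff.1 a.2
  · rw [Fintype.sum_option]
    show algebraMap k R (-1) * aeval (fun i => (w i : R)) q +
      ∑ a : T, algebraMap k R (coeff a.1 q) * ((mon w (fun i => a.1 i) : Rˣ) : R) = 0
    rw [← hφq, map_neg, map_one]
    ring
  · intro d hd hz
    rw [Fintype.sum_option] at hd
    have hd2 : algebraMap k R (d none) * aeval (fun i => (w i : R)) q +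
      ∑ a : T, algebraMap k R (d (some a)) * ((mon w (fun i => a.1 i) : Rˣ) : R) = 0 := hd
    have h1 : ∑ a : T, algebraMap k R (d none * coeff a.1 q + d (some a)) *
        ((mon w (fun i => a.1 i) : Rˣ) : R) = 0 := by
      rw [← hd2, hφq, Finset.mul_sum, ← Finset.sum_add_distrib]
      refine Finset.sum_congr rfl fun a _ => ?_
      rw [map_add, map_mul]
      ring
    have h2 := mon_li w hw q.support (fun a => d none * coeff a.1 q + d (some a)) h1
    have h3 : ∀ a : T, d none * coeff a.1 q + d (some a) = 0 := fun a => congrFun h2 a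
    have h4 : d none = 0 := by
      obtain ⟨o, ho⟩ := hz
      cases o with
      | none => exact ho
      | some a =>
        have h5 := h3 a
        rw [ho, add_zero] at h5
        exact (mul_eq_zero.1 h5).resolve_right (mem_support_iff.1 a.2)
    funext o
    cases o with
    | none => exact h4
    | some a =>
      have h5 := h3 a
      rw [h4, zero_mul, zero_add] at h5
      exact h5
  · cases o with
    | none => exact h
    | some a => exact D.unit_neg' _

theorem poly_le (w : Fin r → Rˣ) (P : MvPolynomial (Fin r) k)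
    (hP : aeval (fun j => (w j : R)) P ≠ 0) :
    ∃ (g : D.Ω → ℝ) (M : ℝ), D.Neg g ∧ 0 ≤ M ∧ ∀ᶠ ω in D.ev,
      max (D.lg (aeval (fun j => (w j : R)) P) ω) 0 ≤ g ω + M * ∑ j, |D.lg (w j : R) ω| := by
  classical
  let T : Finset (Fin r →₀ ℕ) := P.support
  have h1 : aeval (fun j => (w j : R)) P =
      ∑ s : T, algebraMap k R (coeff s.1 P) * (mon w (fun i => s.1 i) : Rˣ) := by
    rw [MvPolynomial.aeval_def, MvPolynomial.eval₂_eq', ← Finset.sum_coe_sort]
    refine Finset.sum_congr rfl fun s _ => ?_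
    rw [mon_val]
  obtain ⟨g, hg, hC⟩ := D.lg_sum_le (fun s : T => coeff s.1 P)
    (fun s : T => ((mon w (fun i => s.1 i) : Rˣ) : R)) (fun s => Units.ne_zero _)
    (by rw [← h1]; exact hP)
  let M : ℝ := ∑ s : T, ∑ i, (s.1 i : ℝ)
  have hM : 0 ≤ M := Finset.sum_nonneg fun _ _ => Finset.sum_nonneg fun _ _ => Nat.cast_nonneg _
  refine ⟨g, M, hg, hM, ?_⟩
  have h2 : ∀ᶠ ω in D.ev, ∀ s ∈ (Finset.univ : Finset T),
      D.lg ((mon w (fun i => s.1 i) : Rˣ) : R) ω = ∑ i, (s.1 i : ℝ) * D.lg (w i : R) ω :=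
    (Filter.eventually_all_finset _).2 fun s _ => lg_mon D w _
  filter_upwards [hC, h2] with ω g1 g2
  have hS : 0 ≤ ∑ j, |D.lg (w j : R) ω| := Finset.sum_nonneg fun _ _ => abs_nonneg _
  rw [h1]
  have g0 := g1.1
  refine max_le ?_ (by positivity)
  refine g1.2 (M * ∑ j, |D.lg (w j : R) ω|) fun s _ => ?_
  rw [g2 s (Finset.mem_univ _)]
  have h3 : ∑ i, (s.1 i : ℝ) * D.lg (w i : R) ω ≤
      ∑ i, (s.1 i : ℝ) * ∑ j, |D.lg (w j : R) ω| := by
    refine Finset.sum_le_sum fun i _ => mul_le_mul_of_nonneg_left ?_ (Nat.cast_nonneg _)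
    exact (le_abs_self _).trans (Finset.single_le_sum (f := fun j => |D.lg (w j : R) ω|)
      (fun _ _ => abs_nonneg _) (Finset.mem_univ i))
  refine h3.trans ?_
  rw [← Finset.sum_mul]
  refine mul_le_mul_of_nonneg_right ?_ hS
  exact Finset.single_le_sum (f := fun s : T => ∑ i, (s.1 i : ℝ))
    (fun _ _ => Finset.sum_nonneg fun _ _ => Nat.cast_nonneg _) (Finset.mem_univ s)

theorem quot_le (w : Fin r → Rˣ) (hw : AlgebraicIndependent k (fun j => (w j : R)))
    (p q : MvPolynomial (Fin r) k) (hq : q ≠ 0) (x : R)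
    (hx : aeval (fun j => (w j : R)) q * x = aeval (fun j => (w j : R)) p) :
    ∃ M : ℝ, 0 ≤ M ∧
      D.Neg (fun ω => max (D.lg x ω) 0 - M * ∑ j, |D.lg (w j : R) ω|) := by
  have hinj : Function.Injective (aeval (R := k) fun j => (w j : R)) := hw
  by_cases hx0 : x = 0
  · refine ⟨0, le_refl _, D.neg_mono _ _ ?_ (D.neg_const 0)⟩
    filter_upwards [D.A_zero] with ω h
    unfold Dm.lg
    rw [hx0, h, Real.log_zero]
    simp
  · have hq0 : aeval (fun j => (w j : R)) q ≠ 0 := fun h => hq (hinj (by rw [h, map_zero]))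
    have hp0 : aeval (fun j => (w j : R)) p ≠ 0 := by
      rw [← hx]
      exact mul_ne_zero hq0 hx0
    obtain ⟨C1, M1, hC1, hM1, h1⟩ := poly_le D w p hp0
    obtain ⟨C2, M2, hC2, hM2, h2⟩ := poly_le D w q hq0
    refine ⟨M1 + M2, by positivity, ?_⟩
    refine D.neg_mono _ _ ?_ (D.neg_add _ _ (D.neg_lg_neg _ hq0) (D.neg_add _ _ hC1 hC2))
    filter_upwards [h1, h2, D.lg_mul _ _ hq0 hx0] with ω g1 g2 g3
    rw [hx] at g3
    have g4 := le_max_left (D.lg (aeval (fun j => (w j : R)) p) ω) 0
    have g5 := le_max_right (D.lg (aeval (fun j => (w j : R)) p) ω) 0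
    have g6 := le_max_left (D.lg (aeval (fun j => (w j : R)) q) ω) 0
    have g7 := le_max_right (D.lg (aeval (fun j => (w j : R)) q) ω) 0
    have g8 : max (D.lg x ω) 0 ≤ max (D.lg (aeval (fun j => (w j : R)) p) ω) 0 +
        max (D.lg (aeval (fun j => (w j : R)) q) ω) 0 - D.lg (aeval (fun j => (w j : R)) q) ω :=
      max_le (by linarith) (by linarith)
    linarith

/-- the submodule of low exponents -/
def lowSub (w : Fin r → Rˣ) : Submodule ℤ (Fin r → ℤ) where
  carrier := {b | D.Neg (fun ω => |∑ j, (b j : ℝ) * D.lg (w j : R) ω|)}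
  add_mem' := by
    intro a b ha hb
    refine D.neg_mono _ _ (Filter.Eventually.of_forall fun ω => ?_) (D.neg_add _ _ ha hb)
    have h1 : ∑ j, (((a + b) j : ℤ) : ℝ) * D.lg (w j : R) ω =
        ∑ j, (a j : ℝ) * D.lg (w j : R) ω + ∑ j, (b j : ℝ) * D.lg (w j : R) ω := by
      rw [← Finset.sum_add_distrib]
      refine Finset.sum_congr rfl fun j _ => ?_
      rw [Pi.add_apply]
      push_cast
      ring
    rw [h1]
    exact abs_add_le _ _
  zero_mem' := by
    refine D.neg_mono _ _ (Filter.Eventually.of_forall fun ω => ?_) (D.neg_const 0)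
    simp
  smul_mem' := by
    intro c b hb
    refine D.neg_mono _ _ (Filter.Eventually.of_forall fun ω => ?_)
      (D.neg_smul _ |(c : ℝ)| (abs_nonneg _) hb)
    have h1 : ∑ j, (((c • b) j : ℤ) : ℝ) * D.lg (w j : R) ω =
        c * ∑ j, (b j : ℝ) * D.lg (w j : R) ω := by
      rw [Finset.mul_sum]
      refine Finset.sum_congr rfl fun j _ => ?_
      rw [Pi.smul_apply, smul_eq_mul]
      push_cast
      ring
    rw [h1, abs_mul]

theorem mem_lowSub (w : Fin r → Rˣ) (b : Fin r → ℤ) :
    b ∈ lowSub D w ↔ D.Neg (fun ω => |∑ j, (b j : ℝ) * D.lg (w j : R) ω|) := Iff.rfl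

theorem lowSub_sat (w : Fin r → Rˣ) (m : ℤ) (b : Fin r → ℤ) (hm : m ≠ 0)
    (h : m • b ∈ lowSub D w) : b ∈ lowSub D w := by
  rw [mem_lowSub] at h ⊢
  refine D.neg_mono _ _ (Filter.Eventually.of_forall fun ω => ?_)
    (D.neg_smul _ |(m : ℝ)|⁻¹ (inv_nonneg.2 (abs_nonneg _)) h)
  have hm0 : (m : ℝ) ≠ 0 := Int.cast_ne_zero.2 hm
  have h1 : ∑ j, (((m • b) j : ℤ) : ℝ) * D.lg (w j : R) ω =
      m * ∑ j, (b j : ℝ) * D.lg (w j : R) ω := by
    rw [Finset.mul_sum]
    refine Finset.sum_congr rfl fun j _ => ?_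
    rw [Pi.smul_apply, smul_eq_mul]
    push_cast
    ring
  rw [h1, abs_mul, ← mul_assoc, inv_mul_cancel₀ (abs_ne_zero.2 hm0), one_mul]

end Pool.Agent.N754.MT
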