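import Mathlib
import Pool.Agent.N754.MT.Low
import Pool.Agent.N754.LT.Cur

/-!
Laurent curves through a solution over an extension of the field of small elements.
-/

set_option autoImplicit false
set_option linter.unusedSectionVars false

open Finset MvPolynomial Filter

namespace Pool.Agent.N754.MT

open Pool.Agent.H159R3.Exp (Laur)
open Pool.Agent.N754.LT

variable {k E : Type} [Field k] [Field E] [Algebra k E] {n : ℕ}

theorem aeval_hom {r : ℕ} (l : Fin r → ℤ) (q : MvPolynomial (Fin r) k) (e : ℤ)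
    (he : ∀ b ∈ q.support, ∑ j, l j * (b j : ℤ) = e) (w : Fin r → E) (s : E) (hs : s ≠ 0) :
    aeval (fun j => w j * s ^ l j) q = s ^ e * aeval w q := by
  classical
  rw [aeval_def, aeval_def, eval₂_eq', eval₂_eq', Finset.mul_sum]
  refine Finset.sum_congr rfl fun b hb => ?_
  have h1 : ∏ j, (w j * s ^ l j) ^ b j = s ^ e * ∏ j, w j ^ b j := by
    simp only [mul_pow]
    rw [Finset.prod_mul_distrib]
    have h2 : ∏ j, (s ^ l j) ^ b j = s ^ e := by
      rw [← he b hb]
      have h3 : ∀ T : Finset (Fin r), ∏ j ∈ T, (s ^ l j) ^ b j = s ^ (∑ j ∈ T, l j * (b j : ℤ)) := by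
        intro T
        induction T using Finset.induction_on with
        | empty => simp
        | insert i T hi ih =>
          rw [Finset.prod_insert hi, Finset.sum_insert hi, zpow_add₀ hs, ih, zpow_mul,
            zpow_natCast]
      exact h3 _
    rw [h2]
    ring
  rw [h1]
  ring

/-- Laurent curves from homogeneous denominators -/
theorem curve_of_data' {r : ℕ} {ι : Type} (l : Fin r → ℤ)
    (p q : Fin n → MvPolynomial (Fin r) k)
    (hom : ∀ i, ∀ b ∈ (q i).support, ∀ b' ∈ (q i).support,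
      ∑ j, l j * (b j : ℤ) = ∑ j, l j * (b' j : ℤ))
    (hq : ∀ i, q i ≠ 0) (F : ι → MvPolynomial (Fin n) k) (w : Fin r → E)
    (hw : AlgebraicIndependent k w) (y : Fin n → E)
    (hy : ∀ i, aeval w (q i) * y i = aeval w (p i)) (hF : ∀ i, aeval y (F i) = 0) :
    ∃ v : E → Fin n → E, (∀ j, Laur fun t => v t j) ∧
      (∀ i s, s ≠ 0 → aeval (v s) (F i) = 0) ∧
      ∀ s, s ≠ 0 → ∀ i, aeval (fun j => w j * s ^ l j) (q i) * v s i =
        aeval (fun j => w j * s ^ l j) (p i) := by
  classical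
  have hinj : Function.Injective (aeval (R := k) w) := hw
  have hq0 : ∀ i, aeval w (q i) ≠ 0 := fun i h => hq i (hinj (by rw [h, map_zero]))
  have hex : ∀ i, ∃ e : ℤ, ∀ b ∈ (q i).support, ∑ j, l j * (b j : ℤ) = e := by
    intro i
    obtain ⟨b, hb⟩ := (MvPolynomial.support_nonempty.2 (hq i))
    exact ⟨_, fun b' hb' => hom i b' hb' b hb⟩
  choose e he using hex
  let v : E → Fin n → E := fun s i =>
    aeval (fun j => w j * s ^ l j) (p i) * ((s ^ (-e i)) * (aeval w (q i))⁻¹)
  have hLw : ∀ j, Laur fun s : E => w j * s ^ l j := fun j =>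
    (Laur.const (w j)).mul (Laur.zpow (l j))
  have hv : ∀ s, s ≠ 0 → ∀ i, aeval (fun j => w j * s ^ l j) (q i) * v s i =
      aeval (fun j => w j * s ^ l j) (p i) := by
    intro s hs i
    simp only [v]
    rw [aeval_hom l (q i) (e i) (he i) w s hs]
    have h1 : s ^ e i * s ^ (-e i) = 1 := by
      rw [← zpow_add₀ hs, add_neg_cancel, zpow_zero]
    have h2 : aeval w (q i) * (aeval w (q i))⁻¹ = 1 := mul_inv_cancel₀ (hq0 i)
    calc s ^ e i * aeval w (q i) * (aeval (fun j => w j * s ^ l j) (p i) *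
          (s ^ (-e i) * (aeval w (q i))⁻¹)) = aeval (fun j => w j * s ^ l j) (p i) *
          ((s ^ e i * s ^ (-e i)) * (aeval w (q i) * (aeval w (q i))⁻¹)) := by ring
      _ = _ := by rw [h1, h2, mul_one, mul_one]
  refine ⟨v, fun j => ?_, fun i s hs => ?_, hv⟩
  · have h1 : Laur fun s : E => aeval (fun j => w j * s ^ l j) (p j) :=
      Laur.eval₂ (algebraMap k E) _ hLw (p j)
    exact h1.mul ((Laur.zpow (-e j)).mul (Laur.const _))
  · obtain ⟨N, G, hG⟩ := univ_num (k := k) p q (F i)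
    have h1 := hG E (aeval w) y hy
    rw [hF, mul_zero] at h1
    have hG0 : G = 0 := hinj (by rw [← h1, map_zero])
    have h2 := hG E (aeval (fun j => w j * s ^ l j)) (v s) (fun i => hv s hs i)
    rw [hG0, map_zero] at h2
    have h3 : aeval (fun j => w j * s ^ l j) ((∏ i, q i) ^ N) ≠ 0 := by
      rw [map_pow, map_prod]
      refine pow_ne_zero _ (Finset.prod_ne_zero_iff.2 fun i _ => ?_)
      rw [aeval_hom l (q i) (e i) (he i) w s hs]
      exact mul_ne_zero (zpow_ne_zero _ hs) (hq0 i)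
    exact (mul_eq_zero.1 h2).resolve_left h3

variable [CharZero k]

theorem curve_of_datM {U : Finset (Fin n)} {y : Fin n → E} {𝒲 : Subgroup Eˣ} (d : Dat k U y 𝒲)
    {R : Type} [CommRing R] [IsDomain R] [Algebra k R] (D : Dm k R) (ψ : R →ₐ[k] E)
    (hψ : Function.Injective ψ) (wR : Fin d.r → Rˣ) (hwR : ∀ j, ψ (wR j : R) = d.w j)
    (yR : Fin n → R) (hyR : ∀ i, ψ (yR i) = y i)
    (hone : ∃ C : ℝ, 0 ≤ C ∧ D.Neg (fun ω => D.one ω -
      C * (∑ j, |D.lg (wR j : R) ω| + ∑ i, max (D.lg (yR i) ω) 0)))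
    (hnn : ¬ D.Neg D.one) {ι : Type} (F : ι → MvPolynomial (Fin n) k)
    (hF : ∀ l, aeval y (F l) = 0) :
    ∃ v : E → Fin n → E, (∀ j, Laur fun t => v t j) ∧
      (∀ l s, s ≠ 0 → aeval (v s) (F l) = 0) ∧ v 1 = y ∧ ∃ j, v 2 j ≠ v 1 j := by
  classical
  have hψP : ∀ P : MvPolynomial (Fin d.r) k, ψ (aeval (fun j => (wR j : R)) P) =
      aeval (fun j => (d.w j : E)) P := by
    intro P
    have h3 : (ψ.comp (aeval fun j => (wR j : R))) = aeval (fun j => (d.w j : E)) := by
      ext i
      simp [hwR]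
    exact DFunLike.congr_fun h3 P
  have hwRAI : AlgebraicIndependent k (fun j => (wR j : R)) := by
    have h1 : Function.Injective (aeval (R := k) fun j => (d.w j : E)) := d.hw
    have h2 : Function.Injective (aeval (R := k) fun j => (wR j : R)) := fun P Q h =>
      h1 (by rw [← hψP, ← hψP, h])
    exact h2
  have hqR : ∀ i, aeval (fun j => (wR j : R)) (d.q i) * yR i =
      aeval (fun j => (wR j : R)) (d.p i) := by
    intro i
    apply hψ
    rw [map_mul, hψP, hψP, hyR, d.hqp]
  -- low support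
  have hlow : ∀ i, ∀ b ∈ (d.q i).support, ∀ b' ∈ (d.q i).support,
      (fun j => (b j : ℤ) - b' j) ∈ lowSub D wR := by
    intro i b hb b' hb'
    by_cases hi : i ∈ U
    · have h1 := d.hqU i hi b hb b' hb'
      have h2 : (fun j => (b j : ℤ) - b' j) = 0 := by
        funext j
        rw [h1, sub_self, Pi.zero_apply]
      rw [h2]
      exact Submodule.zero_mem _
    · have h1 := quot_neg D wR hwRAI (d.p i) (d.q i) (d.hq i) (d.hpq i hi) (yR i) (hqR i) d.hr
      have h2 := supp_low D wR hwRAI (d.q i) h1 b b' hb hb'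
      rw [mem_lowSub]
      refine D.neg_mono _ _ ?_ h2
      filter_upwards [lg_mon D wR (fun j => b j), lg_mon D wR (fun j => b' j)] with ω g1 g2
      rw [g1, g2, ← Finset.sum_sub_distrib]
      refine le_of_eq (congrArg _ (Finset.sum_congr rfl fun j _ => ?_))
      push_cast
      ring
  -- a high unit
  have hhigh : ∃ i ∈ U, d.a i ∉ lowSub D wR := by
    by_contra hcon
    push Not at hcon
    have h1 : ∀ j, (Pi.single j 1 : Fin d.r → ℤ) ∈ lowSub D wR := by
      intro j
      refine Submodule.span_le.2 ?_ (d.hspan j)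
      rintro _ ⟨i, hi, rfl⟩
      exact hcon i hi
    have h2 : ∀ j, D.Neg (fun ω => |D.lg (wR j : R) ω|) := by
      intro j
      refine D.neg_mono _ _ (Filter.Eventually.of_forall fun ω => ?_)
        ((mem_lowSub D wR _).1 (h1 j))
      rw [Finset.sum_eq_single j]
      · rw [Pi.single_eq_same]
        simp
      · intro l _ hl
        rw [Pi.single_eq_of_ne hl]
        simp
      · intro h
        exact absurd (Finset.mem_univ _) h
    have h3 : D.Neg (fun ω => ∑ j, |D.lg (wR j : R) ω|) := D.neg_sum _ _ fun j _ => h2 j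
    have h4 : ∀ i, D.Neg (fun ω => max (D.lg (yR i) ω) 0) := by
      intro i
      obtain ⟨M, hM, h5⟩ := quot_le D wR hwRAI (d.p i) (d.q i) (d.hq i) (yR i) (hqR i)
      refine D.neg_mono _ _ (Filter.Eventually.of_forall fun ω => ?_)
        (D.neg_add _ _ h5 (D.neg_smul _ M hM h3))
      linarith
    obtain ⟨C, hC, h5⟩ := hone
    apply hnn
    refine D.neg_mono _ _ (Filter.Eventually.of_forall fun ω => ?_)
      (D.neg_add _ _ h5 (D.neg_smul _ C hC (D.neg_add _ _ h3 (D.neg_sum Finset.univ _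
        fun i _ => h4 i))))
    linarith
  obtain ⟨i0, hi0, hai0⟩ := hhigh
  obtain ⟨l, hl, hl0⟩ := exists_functional (lowSub D wR) (fun m b hm h => lowSub_sat D wR m b hm h)
    (d.a i0) hai0
  have hom : ∀ i, ∀ b ∈ (d.q i).support, ∀ b' ∈ (d.q i).support,
      ∑ j, l j * (b j : ℤ) = ∑ j, l j * (b' j : ℤ) := by
    intro i b hb b' hb'
    have h1 := hl _ (hlow i b hb b' hb')
    rw [← sub_eq_zero, ← Finset.sum_sub_distrib, ← h1]
    exact Finset.sum_congr rfl fun j _ => (mul_sub _ _ _).symm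
  have h1 : ∀ j, (d.w j : E) ≠ 0 := fun j => Units.ne_zero _
  have h2 : ∀ i, aeval (fun j => (d.w j : E)) (d.q i) ≠ 0 := by
    intro i h
    exact d.hq i (d.hw (by rw [h, map_zero]))
  -- relation between the polynomials of a unit coordinate
  let em : Fin d.r →₀ ℕ := Finsupp.equivFunOnFinite.symm fun j => (-d.a i0 j).toNat
  let ep : Fin d.r →₀ ℕ := Finsupp.equivFunOnFinite.symm fun j => (d.a i0 j).toNat
  have hrel : d.q i0 * monomial ep (d.c i0) = d.p i0 * monomial em 1 := by
    apply d.hw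
    rw [map_mul, map_mul, aeval_monomial, aeval_monomial,
      Finsupp.prod_fintype _ _ (fun _ => pow_zero _),
      Finsupp.prod_fintype _ _ (fun _ => pow_zero _), map_one, one_mul, ← d.hqp, d.hU i0 hi0]
    have hmonB : ∀ (e : Fin d.r → ℕ), (∏ j, (d.w j : E) ^ e j) =
        ((∏ j, d.w j ^ e j : Eˣ) : E) := fun e => by
      rw [Units.coe_prod]
      exact Finset.prod_congr rfl fun j _ => (Units.val_pow_eq_pow_val _ _).symm
    rw [hmonB, hmonB]
    have h1 : (∏ j, d.w j ^ em j) * (∏ j, d.w j ^ d.a i0 j) = ∏ j, d.w j ^ ep j := by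
      rw [← Finset.prod_mul_distrib]
      refine Finset.prod_congr rfl fun j _ => ?_
      rw [← zpow_natCast, ← zpow_natCast, ← zpow_add]
      congr 1
      have h2 : em j = (-d.a i0 j).toNat := rfl
      have h3 : ep j = (d.a i0 j).toNat := rfl
      rw [h2, h3]
      omega
    rw [← h1, Units.val_mul]
    ring
  set w : Fin d.r → E := fun j => (d.w j : E) with hw
  obtain ⟨v, hv1, hv2, hv3⟩ := curve_of_data' l d.p d.q hom d.hq F w d.hw y
    d.hqp hF
  have hs1 : (fun j => w j * (1 : E) ^ l j) = w := by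
    funext j
    rw [one_zpow, mul_one]
  refine ⟨v, hv1, hv2, ?_, i0, ?_⟩
  · funext i
    have h4 := hv3 1 one_ne_zero i
    rw [hs1, ← d.hqp i] at h4
    exact mul_left_cancel₀ (h2 i) h4
  · intro heq
    have hchar : CharZero E := charZero_of_injective_algebraMap (algebraMap k E).injective
    -- `q(w 2^l) v(2) = p(w 2^l)`
    have h5 : ∀ s : E, s ≠ 0 → aeval (fun j => w j * s ^ l j) (d.q i0) ≠ 0 := by
      intro s hs
      obtain ⟨b, hb⟩ := MvPolynomial.support_nonempty.2 (d.hq i0)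
      rw [aeval_hom l (d.q i0) (∑ j, l j * (b j : ℤ)) (fun b' hb' => hom i0 b' hb' b hb) w s hs]
      exact mul_ne_zero (zpow_ne_zero _ hs) (h2 i0)
    have h6 : ∀ s : E, s ≠ 0 → v s i0 * ∏ j, (w j * s ^ l j) ^ em j =
        algebraMap k E (d.c i0) * ∏ j, (w j * s ^ l j) ^ ep j := by
      intro s hs
      have h7 := congrArg (aeval (fun j => w j * s ^ l j)) hrel
      rw [map_mul, map_mul, aeval_monomial, aeval_monomial,
        Finsupp.prod_fintype _ _ (fun _ => pow_zero _),
        Finsupp.prod_fintype _ _ (fun _ => pow_zero _), map_one, one_mul, ← hv3 s hs i0,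
        mul_assoc] at h7
      exact (mul_left_cancel₀ (h5 s hs) h7).symm
    have h7 : ∀ s : E, s ≠ 0 → ∀ e : Fin d.r → ℕ, ∏ j, (w j * s ^ l j) ^ e j =
        (∏ j, w j ^ e j) * s ^ (∑ j, l j * (e j : ℤ)) := by
      intro s hs e
      simp only [mul_pow]
      rw [Finset.prod_mul_distrib]
      congr 1
      have h8 : ∀ T : Finset (Fin d.r), ∏ j ∈ T, (s ^ l j) ^ e j =
          s ^ (∑ j ∈ T, l j * (e j : ℤ)) := by
        intro T
        induction T using Finset.induction_on with
        | empty => simp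
        | insert i T hi ih =>
          rw [Finset.prod_insert hi, Finset.sum_insert hi, zpow_add₀ hs, ih, zpow_mul,
            zpow_natCast]
      exact h8 _
    have h20 : (2 : E) ≠ 0 := two_ne_zero
    have g1 := h6 1 one_ne_zero
    have g2 := h6 2 h20
    rw [h7 _ h20, h7 _ h20, heq] at g2
    rw [h7 _ one_ne_zero, h7 _ one_ne_zero, one_zpow, one_zpow, mul_one, mul_one] at g1
    have hE : ∑ j, l j * (ep j : ℤ) - ∑ j, l j * (em j : ℤ) = ∑ j, l j * d.a i0 j := by
      rw [← Finset.sum_sub_distrib]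
      refine Finset.sum_congr rfl fun j _ => ?_
      have e2 : em j = (-d.a i0 j).toNat := rfl
      have e3 : ep j = (d.a i0 j).toNat := rfl
      rw [← mul_sub, e2, e3]
      congr 1
      omega
    have hne : algebraMap k E (d.c i0) * ∏ j, w j ^ ep j ≠ 0 :=
      mul_ne_zero ((map_ne_zero _).2 (d.hc i0))
        (Finset.prod_ne_zero_iff.2 fun j _ => pow_ne_zero _ (h1 j))
    have g3 : (2 : E) ^ (∑ j, l j * (em j : ℤ)) = (2 : E) ^ (∑ j, l j * (ep j : ℤ)) := by
      have g4 : (algebraMap k E (d.c i0) * ∏ j, w j ^ ep j) * (2 : E) ^ (∑ j, l j * (em j : ℤ)) =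
          (algebraMap k E (d.c i0) * ∏ j, w j ^ ep j) * (2 : E) ^ (∑ j, l j * (ep j : ℤ)) := by
        rw [← g1]
        linear_combination g2 - (2 : E) ^ (∑ j, l j * (ep j : ℤ)) * g1
      exact mul_left_cancel₀ hne g4
    have g5 : (2 : E) ^ (∑ j, l j * d.a i0 j) = 1 := by
      rw [← hE, zpow_sub₀ h20, g3, div_self (zpow_ne_zero _ h20)]
    exact two_zpow_ne _ hl0 g5

end Pool.Agent.N754.MT
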