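import Mathlib
import Pool.Agent.Y742.DI.Pol

/-!
Completion of linearly independent families, and the growth of the spaces spanned by monomials.
-/

set_option autoImplicit false
set_option linter.unusedSectionVars false

open Finset Module

namespace Pool.Agent.N754.MT

open Pool.Agent.Y742.DI

theorem extend_family {k V : Type} [Field k] [AddCommGroup V] [Module k V] {ι τ : Type}
    [Fintype ι] [Fintype τ] (u : ι → V) (hu : LinearIndependent k u) (w : τ → V)
    (huw : ∀ i, u i ∈ Submodule.span k (Set.range w)) :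
    ∃ (T : Finset τ) (E : Fin (finrank k (Submodule.span k (Set.range w))) → V),
      LinearIndependent k E ∧
      Submodule.span k (Set.range E) = Submodule.span k (Set.range w) ∧
      Fintype.card ι + T.card = finrank k (Submodule.span k (Set.range w)) ∧
      ∀ f : V → ℝ, ∑ i, f (E i) = ∑ i, f (u i) + ∑ t ∈ T, f (w t) := by
  classical
  let v : ι ⊕ τ → V := Sum.elim u w
  have hs : LinearIndepOn k v (Set.range (Sum.inl : ι → ι ⊕ τ)) := by
    rw [linearIndepOn_range_iff Sum.inl_injective]
    exact hu
  obtain ⟨b, -, hsb, htb, hli⟩ := exists_linearIndepOn_extension hs (Set.subset_univ _)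
  let T : Finset τ := Finset.univ.filter fun t => Sum.inr t ∈ b
  let e : ι ⊕ T ≃ b :=
    { toFun := fun x => match x with
        | Sum.inl i => ⟨Sum.inl i, hsb ⟨i, rfl⟩⟩
        | Sum.inr t => ⟨Sum.inr t.1, (Finset.mem_filter.1 t.2).2⟩
      invFun := fun x => match x with
        | ⟨Sum.inl i, _⟩ => Sum.inl i
        | ⟨Sum.inr t, h⟩ => Sum.inr ⟨t, Finset.mem_filter.2 ⟨Finset.mem_univ _, h⟩⟩
      left_inv := by
        rintro (i | t)
        · rfl
        · rfl
      right_inv := by
        rintro ⟨(i | t), h⟩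
        · rfl
        · rfl }
  have hfb : Fintype b := Fintype.ofEquiv _ e
  have hspan : Submodule.span k (Set.range fun x : b => v x.1) = Submodule.span k (Set.range w) := by
    have h1 : (Set.range fun x : b => v x.1) = v '' b := by
      ext z
      constructor
      · rintro ⟨x, rfl⟩
        exact ⟨x.1, x.2, rfl⟩
      · rintro ⟨x, hx, rfl⟩
        exact ⟨⟨x, hx⟩, rfl⟩
    rw [h1]
    apply le_antisymm
    · rw [Submodule.span_le]
      rintro _ ⟨(i | t), -, rfl⟩
      · exact huw i
      · exact Submodule.subset_span ⟨t, rfl⟩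
    · rw [Submodule.span_le]
      rintro _ ⟨t, rfl⟩
      exact htb ⟨Sum.inr t, Set.mem_univ _, rfl⟩
  have hli' : LinearIndependent k fun x : b => v x.1 := hli
  have hcard : finrank k (Submodule.span k (Set.range w)) = Fintype.card b := by
    rw [← hspan]
    exact finrank_span_eq_card hli'
  have hcard2 : Fintype.card b = Fintype.card ι + T.card := by
    rw [← Fintype.card_congr e, Fintype.card_sum, Fintype.card_coe]
  let e2 : Fin (finrank k (Submodule.span k (Set.range w))) ≃ b :=
    (Fintype.equivFinOfCardEq hcard.symm).symm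
  refine ⟨T, fun i => v (e2 i).1, hli'.comp _ e2.injective, ?_, by rw [hcard, hcard2], fun f => ?_⟩
  · refine Eq.trans ?_ hspan
    congr 1
    exact e2.surjective.range_comp (fun x : b => v x.1)
  · rw [Equiv.sum_comp e2 (fun x : b => f (v x.1)), ← Equiv.sum_comp e, Fintype.sum_sum_type,
      ← Finset.sum_coe_sort T]
    rfl

theorem card_Sx_le (q h : ℕ) : (Sx q h).card ≤ (h + 1) ^ q := by
  have h1 : Sx q h ⊆ Fintype.piFinset fun _ : Fin q => Finset.range (h + 1) := by
    intro b hb
    rw [Fintype.mem_piFinset]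
    intro i
    have h2 := (mem_Sx b).1 hb
    have h3 := Finset.single_le_sum (f := b) (fun _ _ => Nat.zero_le _) (Finset.mem_univ i)
    rw [Finset.mem_range]
    omega
  refine (Finset.card_le_card h1).trans (le_of_eq ?_)
  rw [Fintype.card_piFinset]
  simp

section mono

variable {k R : Type} [Field k] [CommRing R] [Algebra k R] {q : ℕ} (θ : Fin q → R)

/-- monomials -/
def mth (b : Fin q → ℕ) : R := ∏ i, θ i ^ b i

/-- the space spanned by the monomials of degree at most `h` -/
def Vh (k : Type) [Field k] {R : Type} [CommRing R] [Algebra k R] {q : ℕ} (θ : Fin q → R) (h : ℕ) :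
    Submodule k R :=
  Submodule.span k (Set.range fun b : Sx q h => mth θ b.1)

instance (h : ℕ) : FiniteDimensional k (Vh k θ h) :=
  FiniteDimensional.span_of_finite k (Set.finite_range _)

theorem finrank_Vh (h : ℕ) : finrank k (Vh k θ h) ≤ (h + 1) ^ q := by
  refine (finrank_range_le_card (R := k) (fun b : Sx q h => mth θ b.1)).trans ?_
  rw [Fintype.card_coe]
  exact card_Sx_le q h

theorem one_mem_Vh (h : ℕ) : (1 : R) ∈ Vh k θ h := by
  refine Submodule.subset_span ⟨⟨fun _ => 0, (mem_Sx _).2 (by simp)⟩, ?_⟩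
  simp [mth]

theorem mul_mem_Vh (h : ℕ) (x : R) (hx : x ∈ Vh k θ h) (i : Fin q) :
    x * θ i ∈ Vh k θ (h + 1) := by
  classical
  unfold Vh at hx
  induction hx using Submodule.span_induction with
  | mem x hx =>
    obtain ⟨b, rfl⟩ := hx
    refine Submodule.subset_span ⟨⟨b.1 + Pi.single i 1, (mem_Sx _).2 ?_⟩, ?_⟩
    · simp only [Pi.add_apply, Finset.sum_add_distrib]
      have h1 := (mem_Sx b.1).1 b.2
      have h2 : ∑ j, (Pi.single i 1 : Fin q → ℕ) j = 1 := by
        rw [Finset.sum_eq_single i]
        · rw [Pi.single_eq_same]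
        · intro j _ hj
          rw [Pi.single_eq_of_ne hj]
        · intro h
          exact absurd (Finset.mem_univ _) h
      omega
    · show mth θ (b.1 + Pi.single i 1) = mth θ b.1 * θ i
      unfold mth
      simp only [Pi.add_apply, pow_add]
      rw [Finset.prod_mul_distrib]
      congr 1
      rw [Finset.prod_eq_single i]
      · rw [Pi.single_eq_same, pow_one]
      · intro j _ hj
        rw [Pi.single_eq_of_ne hj, pow_zero]
      · intro h
        exact absurd (Finset.mem_univ _) h
  | zero =>
    rw [zero_mul]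
    exact Submodule.zero_mem _
  | add x y _ _ h1 h2 =>
    rw [add_mul]
    exact Submodule.add_mem _ h1 h2
  | smul c x _ h1 =>
    rw [smul_mul_assoc]
    exact Submodule.smul_mem _ _ h1

theorem finrank_Vh_pos [Nontrivial R] (h : ℕ) : 1 ≤ finrank k (Vh k θ h) := by
  have h1 : Nontrivial (Vh k θ h) := ⟨⟨⟨1, one_mem_Vh θ h⟩, 0, fun h2 => one_ne_zero (α := R)
    (congrArg Subtype.val h2)⟩⟩
  exact Module.finrank_pos

theorem exists_slow [Nontrivial R] (ε : ℝ) (hε : 0 < ε) :
    ∃ h : ℕ, (finrank k (Vh k θ (h + 1)) : ℝ) ≤ (1 + ε) * finrank k (Vh k θ h) := by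
  by_contra hcon
  push Not at hcon
  have h1 : ∀ h : ℕ, (1 + ε) ^ h ≤ finrank k (Vh k θ h) := by
    intro h
    induction h with
    | zero =>
      rw [pow_zero]
      exact_mod_cast finrank_Vh_pos θ 0
    | succ h ih =>
      rw [pow_succ]
      have h2 := hcon h
      nlinarith
  have h2 := tendsto_pow_const_div_const_pow_of_one_lt q (show (1 : ℝ) < 1 + ε by linarith)
  have h3 : ∀ h : ℕ, (1 : ℝ) / (1 + ε) ≤ ((h + 1 : ℕ) : ℝ) ^ q / (1 + ε) ^ (h + 1) := by
    intro h
    rw [div_le_div_iff₀ (by positivity) (by positivity), one_mul, pow_succ]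
    refine mul_le_mul_of_nonneg_right ?_ (by positivity)
    refine (h1 h).trans ?_
    exact_mod_cast finrank_Vh θ h
  have h4 := ge_of_tendsto' ((Filter.tendsto_add_atTop_iff_nat 1).2 h2) h3
  have : (0 : ℝ) < 1 / (1 + ε) := by positivity
  linarith

end mono

end Pool.Agent.N754.MT
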