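import Mathlib
import Pool.Agent.N754.MT.Mov
import Pool.Agent.N754.MT.Curve
import Pool.Agent.N754.LT.Str2

/-!
The alternative for solutions which are large compared with some of their coordinates: a second
point in the fibre, or a Laurent curve.
-/

set_option autoImplicit false
set_option linter.unusedSectionVars false
set_option linter.overlappingInstances false

open Finset MvPolynomial Filter

namespace Pool.Agent.N754.MT

open Pool.Agent.H159R3.Exp (Laur)
open Pool.Agent.N754.LT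

section fields

variable {k0 R0 E : Type} [Field k0] [CommRing R0] [IsDomain R0] [Algebra k0 R0] [Field E]
  (D : Dc k0 R0) (θ : R0 →+* E) (hθ : Function.Injective θ)

/-- the ring of fractions with small denominators -/
def rF : Subring E where
  carrier := {b | ∃ x : R0, ∃ d ∈ SS D, d ≠ 0 ∧ b * θ d = θ x}
  mul_mem' := by
    rintro b b' ⟨x, d, hd, hd0, h⟩ ⟨x', d', hd', hd0', h'⟩
    refine ⟨x * x', d * d', Subring.mul_mem _ hd hd', mul_ne_zero hd0 hd0', ?_⟩
    rw [map_mul, map_mul, ← h, ← h']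
    ring
  one_mem' := ⟨1, 1, Subring.one_mem _, one_ne_zero, by rw [map_one, one_mul]⟩
  add_mem' := by
    rintro b b' ⟨x, d, hd, hd0, h⟩ ⟨x', d', hd', hd0', h'⟩
    refine ⟨x * d' + x' * d, d * d', Subring.mul_mem _ hd hd', mul_ne_zero hd0 hd0', ?_⟩
    rw [map_mul, map_add, map_mul, map_mul, ← h, ← h']
    ring
  zero_mem' := ⟨0, 1, Subring.one_mem _, one_ne_zero, by rw [map_one, map_zero, mul_one]⟩
  neg_mem' := by
    rintro b ⟨x, d, hd, hd0, h⟩
    refine ⟨-x, d, hd, hd0, ?_⟩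
    rw [map_neg, ← h]
    ring

/-- the field of fractions of small elements -/
def kF : Subfield E where
  carrier := {b | ∃ x ∈ SS D, ∃ d ∈ SS D, d ≠ 0 ∧ b * θ d = θ x}
  mul_mem' := by
    rintro b b' ⟨x, hx, d, hd, hd0, h⟩ ⟨x', hx', d', hd', hd0', h'⟩
    refine ⟨x * x', Subring.mul_mem _ hx hx', d * d', Subring.mul_mem _ hd hd',
      mul_ne_zero hd0 hd0', ?_⟩
    rw [map_mul, map_mul, ← h, ← h']
    ring
  one_mem' := ⟨1, Subring.one_mem _, 1, Subring.one_mem _, one_ne_zero, by rw [map_one, one_mul]⟩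
  add_mem' := by
    rintro b b' ⟨x, hx, d, hd, hd0, h⟩ ⟨x', hx', d', hd', hd0', h'⟩
    refine ⟨x * d' + x' * d, Subring.add_mem _ (Subring.mul_mem _ hx hd')
      (Subring.mul_mem _ hx' hd), d * d', Subring.mul_mem _ hd hd', mul_ne_zero hd0 hd0', ?_⟩
    rw [map_mul, map_add, map_mul, map_mul, ← h, ← h']
    ring
  zero_mem' := ⟨0, Subring.zero_mem _, 1, Subring.one_mem _, one_ne_zero, by
    rw [map_one, map_zero, mul_one]⟩
  neg_mem' := by
    rintro b ⟨x, hx, d, hd, hd0, h⟩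
    refine ⟨-x, Subring.neg_mem _ hx, d, hd, hd0, ?_⟩
    rw [map_neg, ← h]
    ring
  inv_mem' := by
    rintro b ⟨x, hx, d, hd, hd0, h⟩
    by_cases hb : b = 0
    · rw [hb, inv_zero]
      exact ⟨0, Subring.zero_mem _, 1, Subring.one_mem _, one_ne_zero, by
        rw [map_one, map_zero, mul_one]⟩
    · have hx0 : x ≠ 0 := by
        rintro rfl
        rw [map_zero] at h
        rcases mul_eq_zero.1 h with h1 | h1
        · exact hb h1
        · exact hd0 (hθ (by rw [h1, map_zero]))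
      refine ⟨d, hd, x, hx, hx0, ?_⟩
      rw [← h, ← mul_assoc, inv_mul_cancel₀ hb, one_mul]

/-- the field of small elements -/
def KF : Type := kF D θ hθ

noncomputable instance : Field (KF D θ hθ) := inferInstanceAs (Field (kF D θ hθ))

/-- the ring -/
def RF : Type := rF D θ

noncomputable instance : CommRing (RF D θ) := inferInstanceAs (CommRing (rF D θ))

instance : IsDomain (RF D θ) := inferInstanceAs (IsDomain (rF D θ))

/-- values -/
noncomputable def kE : KF D θ hθ →+* E := (kF D θ hθ).subtype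

/-- values -/
noncomputable def rE : RF D θ →+* E := (rF D θ).subtype

theorem kE_inj : Function.Injective (kE D θ hθ) := Subtype.val_injective

theorem rE_inj : Function.Injective (rE D θ) := Subtype.val_injective

/-- the inclusion -/
noncomputable def kr : KF D θ hθ →+* RF D θ :=
  (kE D θ hθ).codRestrict (rF D θ) (by
    rintro ⟨b, x, hx, d, hd, hd0, h⟩
    exact ⟨x, d, hd, hd0, h⟩)

theorem rE_kr (c : KF D θ hθ) : rE D θ (kr D θ hθ c) = kE D θ hθ c := rfl

noncomputable instance : Algebra (KF D θ hθ) (RF D θ) := (kr D θ hθ).toAlgebra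

noncomputable instance : Algebra (KF D θ hθ) E := (kE D θ hθ).toAlgebra

/-- the inclusion -/
noncomputable def rEa : RF D θ →ₐ[KF D θ hθ] E :=
  { rE D θ with commutes' := fun _ => rfl }

theorem rEa_apply (x : RF D θ) : rEa D θ hθ x = rE D θ x := rfl

/-- the inclusion of the ring -/
noncomputable def jR : R0 →+* RF D θ :=
  θ.codRestrict (rF D θ) (fun x => ⟨x, 1, Subring.one_mem _, one_ne_zero, by rw [map_one, mul_one]⟩)

theorem rE_jR (x : R0) : rE D θ (jR D θ x) = θ x := rfl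

/-- small elements -/
def mkK (x : R0) (hx : x ∈ SS D) : KF D θ hθ :=
  (⟨θ x, x, hx, 1, Subring.one_mem _, one_ne_zero, by rw [map_one, mul_one]⟩ : kF D θ hθ)

theorem kE_mkK (x : R0) (hx : x ∈ SS D) : kE D θ hθ (mkK D θ hθ x hx) = θ x := rfl

/-- the realisation -/
noncomputable def mvF : Mv D (KF D θ hθ) (RF D θ) where
  j := jR D θ
  inj := by
    intro x y h
    apply hθ
    rw [← rE_jR D, ← rE_jR D, h]
  small x hx := ⟨mkK D θ hθ x hx, rE_inj D θ rfl⟩
  rep_k c := by
    obtain ⟨x, hx, d, hd, hd0, h⟩ := c.2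
    exact ⟨x, hx, d, hd, hd0, rE_inj D θ h⟩
  rep_R b := by
    obtain ⟨x, d, hd, hd0, h⟩ := b.2
    exact ⟨x, d, hd, hd0, rE_inj D θ h⟩

theorem mvF_j (x : R0) : (mvF D θ hθ).j x = jR D θ x := rfl

theorem lg_j (hsz : Szd D) (x : R0) :
    ∀ᶠ ω in D.ev, ((mvF D θ hθ).dm hsz).lg (jR D θ x) ω = D.lg x ω := by
  filter_upwards [(mvF D θ hθ).AA_eq (jR D θ x) x 1 one_ne_zero (by
    rw [map_one, mul_one]; rfl), D.A_one] with ω h1 h2
  show Real.log ((mvF D θ hθ).AA (jR D θ x) ω) = _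
  rw [h1, h2, div_one]
  rfl

include hθ in
theorem main {n : ℕ} (hsz : Szd D) [IsAlgClosed E] [CharZero E]
    (U A : Finset (Fin n)) {ι : Type} (F : ι → MvPolynomial (Fin n) k0) (y : Fin n → R0)
    (hF : ∀ l, aeval y (F l) = 0) (hyU : ∀ i ∈ U, IsUnit (y i)) (hyA : ∀ i ∈ A, y i ∈ SS D)
    (hone : ∃ C : ℝ, 0 ≤ C ∧ D.Neg (fun ω => D.one ω - C * ∑ i, max (D.lg (y i) ω) 0))
    (hnn : ¬ D.Neg D.one) :
    (∃ z : Fin n → E, (∀ l, eval₂ (θ.comp (algebraMap k0 R0)) z (F l) = 0) ∧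
      (∀ i ∈ U ∪ A, z i = θ (y i)) ∧ z ≠ fun i => θ (y i)) ∨
    ∃ v : E → Fin n → E, (∀ j, Laur fun t => v t j) ∧
      (∀ l s, s ≠ 0 → eval₂ (θ.comp (algebraMap k0 R0)) (v s) (F l) = 0) ∧
      (∀ i ∈ A, ∀ s, s ≠ 0 → v s i = θ (y i)) ∧ (v 1 = fun i => θ (y i)) ∧ ∃ j, v 2 j ≠ v 1 j := by
  classical
  let k : Type := KF D θ hθ
  let R : Type := RF D θ
  let μ : Mv D k R := mvF D θ hθ
  let DM : Dm k R := μ.dm hsz
  let ψ : R →ₐ[k] E := rEa D θ hθ
  have hψ : Function.Injective ψ := rE_inj D θ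
  have hchar : CharZero k := by
    refine ⟨fun a b h => ?_⟩
    have h1 := congrArg (kE D θ hθ) h
    rw [map_natCast, map_natCast] at h1
    exact_mod_cast h1
  let Y : Fin n → E := fun i => θ (y i)
  let κ0 : k0 →+* k :=
    { toFun := fun c => mkK D θ hθ (algebraMap k0 R0 c) (const_mem_SS D c)
      map_one' := kE_inj D θ hθ (by rw [kE_mkK, map_one, map_one, map_one])
      map_mul' := fun a b => kE_inj D θ hθ (by
        rw [map_mul (kE D θ hθ), kE_mkK, kE_mkK, kE_mkK, map_mul, map_mul])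
      map_zero' := kE_inj D θ hθ (by rw [kE_mkK, map_zero, map_zero, map_zero])
      map_add' := fun a b => kE_inj D θ hθ (by
        rw [map_add (kE D θ hθ), kE_mkK, kE_mkK, kE_mkK, map_add, map_add]) }
  have hκ0 : (algebraMap k E).comp κ0 = θ.comp (algebraMap k0 R0) := RingHom.ext fun c => rfl
  let FM : ι ⊕ A → MvPolynomial (Fin n) k := fun l => match l with
    | Sum.inl l => MvPolynomial.map κ0 (F l)
    | Sum.inr i => X i.1 - C (mkK D θ hθ (y i.1) (hyA i.1 i.2))
  have hevF : ∀ (z : Fin n → E) (l : ι), aeval z (MvPolynomial.map κ0 (F l)) =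
      eval₂ (θ.comp (algebraMap k0 R0)) z (F l) := by
    intro z l
    rw [aeval_def, eval₂_map, hκ0]
  have hevA : ∀ (z : Fin n → E) (i : A),
      aeval z (X i.1 - C (mkK D θ hθ (y i.1) (hyA i.1 i.2)) : MvPolynomial (Fin n) k) =
      z i.1 - θ (y i.1) := by
    intro z i
    rw [map_sub, aeval_X, aeval_C]
    rfl
  have hY : ∀ l, eval₂ (θ.comp (algebraMap k0 R0)) Y (F l) = 0 := by
    intro l
    have h1 := hom_eval₂ (F l) (algebraMap k0 R0) θ y
    have h2 : θ (eval₂ (algebraMap k0 R0) y (F l)) = 0 := by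
      have h3 := hF l
      rw [aeval_def] at h3
      rw [h3, map_zero]
    rw [h1] at h2
    exact h2
  have hFM : ∀ l, aeval Y (FM l) = 0 := by
    rintro (l | i)
    · show aeval Y (MvPolynomial.map κ0 (F l)) = 0
      rw [hevF]
      exact hY l
    · show aeval Y (X i.1 - C (mkK D θ hθ (y i.1) (hyA i.1 i.2)) : MvPolynomial (Fin n) k) = 0
      rw [hevA, sub_self]
  let 𝒲 : Subgroup Eˣ := (Units.map (ψ : R →* E)).range
  have hmem : ∀ g ∈ 𝒲, ∃ r : Rˣ, ψ (r : R) = g := by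
    rintro _ ⟨r, rfl⟩
    exact ⟨r, rfl⟩
  have hunit : ∀ (m : ℕ) (g : Fin m → Eˣ), (∀ i, g i ∈ 𝒲) →
      (∀ i j, i ≠ j → ∀ c : k, (g i : E) ≠ algebraMap k E c * g j) →
      ∀ c : Fin m → k, ∑ i, algebraMap k E (c i) * g i = 0 → c = 0 := by
    intro m g hg hne c hc
    choose r hr using fun i => hmem (g i) (hg i)
    refine units_li DM m r (fun i j hij c' h => hne i j hij c' ?_) c ?_
    · rw [← hr, ← hr, h, map_mul, AlgHom.commutes]
    · apply hψ
      rw [map_sum, map_zero, ← hc]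
      refine Finset.sum_congr rfl fun i _ => ?_
      rw [map_mul, AlgHom.commutes, hr]
  have htf : ∀ g ∈ 𝒲, ∀ m : ℕ, 0 < m → (∃ c : k, ((g ^ m : Eˣ) : E) = algebraMap k E c) →
      ∃ c : k, (g : E) = algebraMap k E c := by
    intro g hg m hm ⟨c, hc⟩
    obtain ⟨r, hr⟩ := hmem g hg
    obtain ⟨c', hc'⟩ := units_tf DM r m hm ⟨c, by
      apply hψ
      rw [AlgHom.commutes, ← hc, Units.val_pow_eq_pow_val, map_pow, hr,
        Units.val_pow_eq_pow_val]⟩
    exact ⟨c', by rw [← hr, hc', AlgHom.commutes]⟩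
  have hyU2 : ∀ i ∈ U, ∃ u ∈ 𝒲, (u : E) = Y i := by
    intro i hi
    obtain ⟨u, hu⟩ := hyU i hi
    refine ⟨Units.map (ψ : R →* E) (Units.map (jR D θ : R0 →* R) u), ⟨_, rfl⟩, ?_⟩
    show θ (u : R0) = Y i
    rw [hu]
  obtain ⟨C, hC, hone⟩ := hone
  have hync : ∃ i, ∀ c : k, Y i ≠ algebraMap k E c := by
    by_contra hcon
    push Not at hcon
    apply hnn
    have h1 : ∀ i, y i ∈ SS D := by
      intro i
      obtain ⟨c, hc⟩ := hcon i
      obtain ⟨x, hx, d, hd, hd0, h⟩ := c.2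
      have h2 : y i * d = x := by
        apply hθ
        rw [map_mul, ← h]
        congr 1
      by_cases hy0 : y i = 0
      · rw [hy0]
        exact Subring.zero_mem _
      rw [mem_SS]
      refine D.neg_mono _ _ ?_ (D.neg_add _ _ hx (sm_abs D d hd0 hd))
      filter_upwards [D.lg_mul _ _ hy0 hd0] with ω g
      rw [h2] at g
      have g1 := le_max_left (D.lg x ω) 0
      have g2 := le_max_right (D.lg x ω) 0
      have g3 := neg_abs_le (D.lg d ω)
      have g4 := le_abs_self (D.lg d ω)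
      exact max_le (by linarith) (by positivity)
    refine D.neg_mono _ _ (Filter.Eventually.of_forall fun ω => ?_) (D.neg_add _ _ hone
      (D.neg_smul _ C hC (D.neg_sum Finset.univ _ fun i _ => h1 i)))
    linarith
  rcases dat_or2 U FM Y hFM 𝒲 hunit htf hyU2 hync (RingHom.id E) Function.injective_id with
    ⟨z, hz1, hz2, hz3⟩ | ⟨⟨d⟩⟩
  · left
    rw [RingHom.id_comp] at hz1
    refine ⟨z, fun l => ?_, fun i hi => ?_, hz3⟩
    · rw [← hevF]
      exact hz1 (Sum.inl l)
    · rcases Finset.mem_union.1 hi with h | h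
      · exact hz2 i h
      · have h1 := hz1 (Sum.inr ⟨i, h⟩)
        have h2 := hevA z ⟨i, h⟩
        exact sub_eq_zero.1 (h2.symm.trans h1)
  · right
    choose wR hwR using fun j => hmem (d.w j) (d.hw𝒲 j)
    obtain ⟨v, hv1, hv2, hv3, hv4⟩ := curve_of_datM d DM ψ hψ wR hwR (fun i => jR D θ (y i))
      (fun i => rfl) ⟨C, hC, by
        refine DM.neg_mono _ _ ?_ hone
        have h1 : ∀ᶠ ω in D.ev, ∀ i, DM.lg (jR D θ (y i)) ω = D.lg (y i) ω :=
          (Filter.eventually_all).2 fun i => lg_j D θ hθ hsz (y i)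
        filter_upwards [h1] with ω h2
        have h3 : ∑ i, max (DM.lg (jR D θ (y i)) ω) 0 = ∑ i, max (D.lg (y i) ω) 0 :=
          Finset.sum_congr rfl fun i _ => by rw [h2]
        rw [h3]
        have h4 : 0 ≤ ∑ j, |DM.lg (wR j : R) ω| := Finset.sum_nonneg fun _ _ => abs_nonneg _
        have h5 : C * ∑ i, max (D.lg (y i) ω) 0 ≤
            C * (∑ j, |DM.lg (wR j : R) ω| + ∑ i, max (D.lg (y i) ω) 0) :=
          mul_le_mul_of_nonneg_left (by linarith) hC
        exact sub_le_sub_left h5 _⟩ hnn FM hFM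
    refine ⟨v, hv1, fun l s hs => ?_, fun i hi s hs => ?_, hv3, hv4⟩
    · rw [← hevF]
      exact hv2 (Sum.inl l) s hs
    · have h1 := hv2 (Sum.inr ⟨i, hi⟩) s hs
      have h2 := hevA (v s) ⟨i, hi⟩
      exact sub_eq_zero.1 (h2.symm.trans h1)

end fields

end Pool.Agent.N754.MT
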