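import Mathlib
import Pool.Agent.Y742.SF.PDex

/-!
Comparison of heights with the absolute values of a Galois extension.
-/

set_option autoImplicit false
set_option linter.unusedSectionVars false

open Finset Filter Module

namespace Pool.Agent.N754.MT

open NumberField IsDedekindDomain Height
open Pool.Agent.Y742.SF
open Real (posLog)

section basic

variable {M : Type} [Field M] [NumberField M]

theorem fv_nat_lower (v : HeightOneSpectrum (𝓞 M)) (m : ℕ) (hm : m ≠ 0) :
    ((m : ℝ) ^ (finrank ℚ M))⁻¹ ≤ fv v (m : M) := by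
  classical
  have hy : ((m : 𝓞 M) : M) = (m : M) := by push_cast; rfl
  have hy0 : (m : 𝓞 M) ≠ 0 := by exact_mod_cast hm
  let s : Finset (HeightOneSpectrum (𝓞 M)) := insert v (finite_primes (K := M) m hm).toFinset
  have h1 := prod_fv (m : 𝓞 M) hy0 s (fun w hw => by
    rw [fv_eq_one_iff]
    intro h
    exact hw (Finset.mem_insert_of_mem ((finite_primes (K := M) m hm).mem_toFinset.2 h)))
  have h2 : ((Algebra.norm ℤ (m : 𝓞 M) : ℤ) : ℝ) = (m : ℝ) ^ (finrank ℚ M) := by
    have h3 : (m : 𝓞 M) = algebraMap ℤ (𝓞 M) (m : ℤ) := by simp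
    rw [h3, Algebra.norm_algebraMap, RingOfIntegers.rank]
    push_cast
    rfl
  rw [h2, abs_of_nonneg (by positivity)] at h1
  rw [← h1, ← hy, ← Finset.mul_prod_erase s _ (Finset.mem_insert_self v _)]
  refine mul_le_of_le_one_right (fv_nonneg _ _) (Finset.prod_le_one (fun w _ => fv_nonneg _ _)
    fun w _ => fv_int _ _)

theorem posLog_fv (v : HeightOneSpectrum (𝓞 M)) (x : M) (m : ℕ) (hm : m ≠ 0)
    (hx : IsIntegral ℤ ((m : M) * x)) : posLog (fv v x) ≤ finrank ℚ M * Real.log m := by
  have hm1 : (1 : ℝ) ≤ m := by exact_mod_cast Nat.one_le_iff_ne_zero.2 hm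
  have h1 : fv v ((m : M) * x) ≤ 1 := by
    have h2 := fv_int v (⟨(m : M) * x, hx⟩ : 𝓞 M)
    exact h2
  rw [fv_mul] at h1
  have h2 := fv_nat_lower v m hm
  have hpos : (0 : ℝ) < (m : ℝ) ^ (finrank ℚ M) := by positivity
  have h3 : fv v x ≤ (m : ℝ) ^ (finrank ℚ M) := by
    have h4 : ((m : ℝ) ^ (finrank ℚ M))⁻¹ * fv v x ≤ 1 :=
      (mul_le_mul_of_nonneg_right h2 (fv_nonneg _ _)).trans h1
    rw [inv_mul_le_iff₀ hpos, mul_one] at h4
    exact h4
  refine (Real.posLog_le_posLog (fv_nonneg _ _) h3).trans (le_of_eq ?_)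
  rw [Real.posLog_eq_log (by
    rw [abs_of_pos hpos]
    exact one_le_pow₀ hm1), Real.log_pow]

/-- an upper bound for the height -/
theorem height_le_of (S : Set (HeightOneSpectrum (𝓞 M))) (hS : S.Finite) (x : M)
    (hx : ∀ v, v ∉ S → fv v x ≤ 1) (B : ℝ) (hB : 0 ≤ B)
    (h1 : ∀ w : InfinitePlace M, posLog (w x) ≤ B) (h2 : ∀ v ∈ S, posLog (fv v x) ≤ B) :
    logHeight₁ x ≤ (2 * Fintype.card (InfinitePlace M) + hS.toFinset.card) * B := by
  classical
  rw [NumberField.logHeight₁_eq, add_mul]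
  refine add_le_add ?_ ?_
  · have h3 : ∀ w ∈ (Finset.univ : Finset (InfinitePlace M)),
        (w.mult : ℝ) * posLog (w x) ≤ 2 * B := by
      intro w _
      have h4 : (w.mult : ℝ) ≤ 2 := by
        unfold InfinitePlace.mult
        split_ifs <;> norm_num
      exact mul_le_mul h4 (h1 w) Real.posLog_nonneg (by norm_num)
    refine (Finset.sum_le_sum h3).trans (le_of_eq ?_)
    rw [Finset.sum_const, Finset.card_univ, nsmul_eq_mul]
    ring
  · rw [← finsum_comp_equiv FinitePlace.equivHeightOneSpectrum.symm]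
    have h3 : (fun v : HeightOneSpectrum (𝓞 M) =>
        posLog ((FinitePlace.equivHeightOneSpectrum.symm v) x)) = fun v => posLog (fv v x) := by
      funext v
      rw [FinitePlace.equivHeightOneSpectrum_symm_apply]
      rfl
    rw [h3, finsum_eq_sum_of_support_subset (s := hS.toFinset) _ (by
      intro v hv
      by_contra hvS
      apply hv
      have h4 : v ∉ S := fun h => hvS (by simpa using h)
      show posLog (fv v x) = 0
      rw [Real.posLog_eq_zero_iff, abs_of_nonneg (fv_nonneg _ _)]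
      exact hx v h4)]
    refine (Finset.sum_le_sum fun v hv => h2 v (hS.mem_toFinset.1 hv)).trans (le_of_eq ?_)
    rw [Finset.sum_const, nsmul_eq_mul]

theorem posLog_inf (φ : M →+* ℂ) (x : M) : posLog ‖φ x‖ ≤ logHeight₁ x := by
  classical
  rw [NumberField.logHeight₁_eq]
  have h1 : posLog ‖φ x‖ ≤ ∑ v : InfinitePlace M, v.mult * posLog (v x) := by
    have h2 : posLog ‖φ x‖ ≤ (InfinitePlace.mk φ).mult * posLog (InfinitePlace.mk φ x) := by
      have h3 : (InfinitePlace.mk φ) x = ‖φ x‖ := InfinitePlace.apply φ x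
      rw [h3]
      have h4 : (1 : ℝ) ≤ (InfinitePlace.mk φ).mult := InfinitePlace.one_le_mult
      have h5 : 0 ≤ posLog ‖φ x‖ := Real.posLog_nonneg
      nlinarith
    refine h2.trans ?_
    exact Finset.single_le_sum (f := fun v : InfinitePlace M => (v.mult : ℝ) * posLog (v x))
      (fun v _ => mul_nonneg (Nat.cast_nonneg _) Real.posLog_nonneg) (Finset.mem_univ _)
  have h2 : 0 ≤ ∑ᶠ v : FinitePlace M, posLog (v x) := finsum_nonneg fun v => Real.posLog_nonneg
  linarith

end basic

section ext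

variable {L M : Type} [Field L] [NumberField L] [Field M] [NumberField M] [Algebra L M]

theorem posLog_fin_up (v : HeightOneSpectrum (𝓞 M)) (x : L) :
    posLog (fv v (algebraMap L M x)) ≤ finrank ℚ M * logHeight₁ x := by
  obtain ⟨m, hm, hmx, hint⟩ := exists_nat_le_mulHeight₁ x
  have h1 : IsIntegral ℤ ((m : M) * algebraMap L M x) := by
    have h2 := hint.map (algebraMap L M).toIntAlgHom
    have h3 : (algebraMap L M).toIntAlgHom ((m : L) * x) = (m : M) * algebraMap L M x := by
      show algebraMap L M ((m : L) * x) = _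
      rw [map_mul, map_natCast]
    rwa [h3] at h2
  refine (posLog_fv v _ m hm h1).trans ?_
  refine mul_le_mul_of_nonneg_left ?_ (Nat.cast_nonneg _)
  exact Real.log_le_log (by exact_mod_cast Nat.pos_of_ne_zero hm) hmx

theorem posLog_fin_down (v : HeightOneSpectrum (𝓞 L)) (x : L) :
    posLog (fv v x) ≤ finrank ℚ L * logHeight₁ (algebraMap L M x) := by
  obtain ⟨m, hm, hmx, hint⟩ := exists_nat_le_mulHeight₁ (algebraMap L M x)
  have h1 : IsIntegral ℤ ((m : L) * x) := by
    have h3 : algebraMap L M ((m : L) * x) = (m : M) * algebraMap L M x := by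
      rw [map_mul, map_natCast]
    rw [← h3] at hint
    have h4 : Function.Injective ((algebraMap L M).toIntAlgHom) := (algebraMap L M).injective
    exact (isIntegral_algHom_iff ((algebraMap L M).toIntAlgHom) h4).1 hint
  refine (posLog_fv v _ m hm h1).trans ?_
  refine mul_le_mul_of_nonneg_left ?_ (Nat.cast_nonneg _)
  exact Real.log_le_log (by exact_mod_cast Nat.pos_of_ne_zero hm) hmx

theorem posLog_inf_down (w : InfinitePlace L) (x : L) :
    posLog (w x) ≤ logHeight₁ (algebraMap L M x) := by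
  let : Algebra L ℂ := w.embedding.toAlgebra
  have : Algebra.IsAlgebraic L M := by
    have h1 : Algebra.IsAlgebraic ℚ M := inferInstance
    exact Algebra.IsAlgebraic.tower_top (K := ℚ) L
  let φ : M →ₐ[L] ℂ := IsAlgClosed.lift
  have h1 : w x = ‖φ (algebraMap L M x)‖ := by
    rw [AlgHom.commutes]
    exact (InfinitePlace.norm_embedding_eq w x).symm
  rw [h1]
  exact posLog_inf (φ : M →+* ℂ) _

theorem height_down (S : Set (HeightOneSpectrum (𝓞 L))) (hS : S.Finite) :
    ∃ C : ℝ, 0 ≤ C ∧ ∀ x ∈ S.integer L, logHeight₁ x ≤ C * logHeight₁ (algebraMap L M x) := by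
  classical
  refine ⟨(2 * Fintype.card (InfinitePlace L) + hS.toFinset.card) * (1 + finrank ℚ L), by positivity,
    fun x hx => ?_⟩
  have h0 : 0 ≤ logHeight₁ (algebraMap L M x) := zero_le_logHeight₁ _
  have hf : (0 : ℝ) ≤ finrank ℚ L := Nat.cast_nonneg _
  refine (height_le_of S hS x ((mem_integer_iff S x).1 hx)
    ((1 + finrank ℚ L) * logHeight₁ (algebraMap L M x)) (by positivity) (fun w => ?_)
    (fun v _ => ?_)).trans (le_of_eq (by ring))
  · have := posLog_inf_down (M := M) w x
    nlinarith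
  · have := posLog_fin_down (M := M) v x
    nlinarith

variable [IsGalois ℚ M] (D : PD M)

theorem posLog_av_up (v : (M ≃ₐ[ℚ] M) ⊕ Fin D.s) (x : L) :
    posLog (D.av v (algebraMap L M x)) ≤ (1 + finrank ℚ M) * logHeight₁ x := by
  have h0 : 0 ≤ logHeight₁ x := zero_le_logHeight₁ _
  have hf : (0 : ℝ) ≤ finrank ℚ M := Nat.cast_nonneg _
  rcases v with σ | w
  · have h1 := posLog_inf ((D.ψ.comp (σ : M →+* M)).comp (algebraMap L M)) x
    have h2 : D.av (Sum.inl σ) (algebraMap L M x) =
        ‖((D.ψ.comp (σ : M →+* M)).comp (algebraMap L M)) x‖ := rfl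
    rw [h2]
    nlinarith
  · have h1 := posLog_fin_up (D.P w) x
    have h2 : D.av (Sum.inr w) (algebraMap L M x) = fv (D.P w) (algebraMap L M x) := rfl
    rw [h2]
    nlinarith

theorem height_av (x : M) (hx : D.TInt x) :
    logHeight₁ x ≤ (2 * Fintype.card (InfinitePlace M) + D.s) * ∑ v, posLog (D.av v x) := by
  classical
  let S : Set (HeightOneSpectrum (𝓞 M)) := Set.range D.P
  have hS : S.Finite := Set.finite_range _
  have hcard : hS.toFinset.card ≤ D.s := by
    have h1 : hS.toFinset ⊆ Finset.univ.image D.P := by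
      intro v hv
      obtain ⟨w, rfl⟩ := hS.mem_toFinset.1 hv
      exact Finset.mem_image_of_mem _ (Finset.mem_univ _)
    refine (Finset.card_le_card h1).trans (Finset.card_image_le.trans ?_)
    simp
  have hsum : ∀ v, posLog (D.av v x) ≤ ∑ v, posLog (D.av v x) := fun v =>
    Finset.single_le_sum (f := fun v => posLog (D.av v x)) (fun _ _ => Real.posLog_nonneg)
      (Finset.mem_univ v)
  have h0 : 0 ≤ ∑ v, posLog (D.av v x) := Finset.sum_nonneg fun _ _ => Real.posLog_nonneg
  refine (height_le_of S hS x (fun v hv => hx v fun w h => hv ⟨w, h.symm⟩) _ h0 (fun w => ?_)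
    (fun v hv => ?_)).trans ?_
  · obtain ⟨σ, hσ⟩ := exists_embs D.ψ w.embedding
    have h1 : w x = D.av (Sum.inl σ) x := by
      rw [← InfinitePlace.norm_embedding_eq w x, hσ]
      rfl
    rw [h1]
    exact hsum _
  · obtain ⟨w, rfl⟩ := hv
    exact hsum (Sum.inr w)
  · refine mul_le_mul_of_nonneg_right ?_ h0
    have : (hS.toFinset.card : ℝ) ≤ D.s := by exact_mod_cast hcard
    linarith

end ext

end Pool.Agent.N754.MT
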