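import Mathlib
import Pool.Agent.N754.LT.Grm
import Pool.Agent.H159R3.Exp.Laur

/-!
Laurent curves over germs give complex Laurent curves.
-/

set_option autoImplicit false
set_option linter.unusedSectionVars false

open Finset MvPolynomial Filter

namespace Pool.Agent.N754.MT

open Pool.Agent.H159R3.Exp (Laur)
open Pool.Agent.N754.LT

variable {α : Type} (𝒰 : Ultrafilter α)

theorem gc_div (f g : α → ℂ) : gc 𝒰 (fun t => f t / g t) = gc 𝒰 f / gc 𝒰 g := rfl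

theorem gc_curve {R : Type} [CommRing R] (τ : R →+* ℂ) {n : ℕ} (A : Finset (Fin n)) {ι : Type}
    [Finite ι] (F : ι → MvPolynomial (Fin n) R) (y : α → Fin n → ℂ)
    (h : ∃ v : GC α 𝒰 → Fin n → GC α 𝒰, (∀ j, Laur fun t => v t j) ∧
      (∀ l s, s ≠ 0 → eval₂ ((gc 𝒰).comp ((Pi.constRingHom α ℂ).comp τ)) (v s) (F l) = 0) ∧
      (∀ i ∈ A, ∀ s, s ≠ 0 → v s i = gc 𝒰 fun t => y t i) ∧
      (v 1 = fun i => gc 𝒰 fun t => y t i) ∧ ∃ j, v 2 j ≠ v 1 j) :
    ∀ᶠ t in (𝒰 : Filter α), ∃ v : ℂ → Fin n → ℂ, (∀ j, Laur fun s => v s j) ∧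
      (∀ l s, s ≠ 0 → eval₂ τ (v s) (F l) = 0) ∧ (∀ i ∈ A, ∀ s, s ≠ 0 → v s i = y t i) ∧
      v 1 = y t ∧ ∃ j, v 2 j ≠ v 1 j := by
  classical
  obtain ⟨v, hv1, hv2, hv3, hv4, j0, hj0⟩ := h
  obtain ⟨M, Q, hQ⟩ := Laur.common v hv1
  choose a ha using fun (j : Fin n) (i : ℕ) => gc_surj 𝒰 ((Q j).coeff i)
  let P : Fin n → α → Polynomial ℂ := fun j t =>
    ∑ i ∈ Finset.range ((Q j).natDegree + 1), Polynomial.C (a j i t) * Polynomial.X ^ i
  let V : α → ℂ → Fin n → ℂ := fun t s j => (P j t).eval s / s ^ M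
  have hV : ∀ s : α → ℂ, (∀ t, s t ≠ 0) → ∀ j, v (gc 𝒰 s) j = gc 𝒰 fun t => V t (s t) j := by
    intro s hs j
    have hs0 : gc 𝒰 s ≠ 0 := by
      intro h
      obtain ⟨t, ht⟩ := ((gc_zero 𝒰 s).1 h).exists
      exact hs t ht
    rw [hQ _ hs0 j]
    have h1 : (fun t => V t (s t) j) = fun t => (P j t).eval (s t) / (s ^ M) t := by
      funext t
      rfl
    have h0 : gc 𝒰 (s ^ M) = gc 𝒰 s ^ M := map_pow (gc 𝒰) s M
    have h3 : (Q j).eval (gc 𝒰 s) = gc 𝒰 fun t => (P j t).eval (s t) := by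
      rw [Polynomial.eval_eq_sum_range]
      have h2 : (fun t => (P j t).eval (s t)) =
          ∑ i ∈ Finset.range ((Q j).natDegree + 1), a j i * s ^ i := by
        funext t
        simp only [P, Polynomial.eval_finsetSum, Polynomial.eval_mul, Polynomial.eval_C,
          Polynomial.eval_pow, Polynomial.eval_X, Finset.sum_apply, Pi.mul_apply, Pi.pow_apply]
      rw [h2, map_sum]
      refine Finset.sum_congr rfl fun i _ => ?_
      rw [map_mul, map_pow, ha]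
    rw [h1, gc_div, h0, h3]
  have hone : gc 𝒰 (fun _ => (1 : ℂ)) = 1 := map_one (gc 𝒰)
  have htwo : gc 𝒰 (fun _ => (2 : ℂ)) = 2 := map_ofNat (gc 𝒰) 2
  -- the equations
  have e1 : ∀ᶠ t in (𝒰 : Filter α), ∀ l, ∀ s : ℂ, s ≠ 0 → eval₂ τ (V t s) (F l) = 0 := by
    refine (Filter.eventually_all).2 fun l => ?_
    by_contra hcon
    rw [← Ultrafilter.eventually_not] at hcon
    have h1 : ∀ t, ∃ s : ℂ, s ≠ 0 ∧ ((¬ ∀ s : ℂ, s ≠ 0 → eval₂ τ (V t s) (F l) = 0) →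
        eval₂ τ (V t s) (F l) ≠ 0) := by
      intro t
      by_cases h : ∀ s : ℂ, s ≠ 0 → eval₂ τ (V t s) (F l) = 0
      · exact ⟨1, one_ne_zero, fun h' => absurd h h'⟩
      · push Not at h
        obtain ⟨s, hs, hs2⟩ := h
        exact ⟨s, hs, fun _ => hs2⟩
    choose s hs0 hs using h1
    have h2 : gc 𝒰 s ≠ 0 := by
      intro h
      obtain ⟨t, ht⟩ := ((gc_zero 𝒰 s).1 h).exists
      exact hs0 t ht
    have h3 := hv2 l (gc 𝒰 s) h2
    have h4 : v (gc 𝒰 s) = fun j => gc 𝒰 fun t => V t (s t) j := funext fun j => hV s hs0 j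
    rw [h4, gc_eval 𝒰 τ (fun t j => V t (s t) j), gc_zero] at h3
    obtain ⟨t, h5, h6⟩ := (h3.and hcon).exists
    exact hs t h6 h5
  have e2 : ∀ᶠ t in (𝒰 : Filter α), ∀ i ∈ A, ∀ s : ℂ, s ≠ 0 → V t s i = y t i := by
    refine (Filter.eventually_all_finset A).2 fun i hi => ?_
    by_contra hcon
    rw [← Ultrafilter.eventually_not] at hcon
    have h1 : ∀ t, ∃ s : ℂ, s ≠ 0 ∧ ((¬ ∀ s : ℂ, s ≠ 0 → V t s i = y t i) → V t s i ≠ y t i) := by
      intro t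
      by_cases h : ∀ s : ℂ, s ≠ 0 → V t s i = y t i
      · exact ⟨1, one_ne_zero, fun h' => absurd h h'⟩
      · push Not at h
        obtain ⟨s, hs, hs2⟩ := h
        exact ⟨s, hs, fun _ => hs2⟩
    choose s hs0 hs using h1
    have h2 : gc 𝒰 s ≠ 0 := by
      intro h
      obtain ⟨t, ht⟩ := ((gc_zero 𝒰 s).1 h).exists
      exact hs0 t ht
    have h3 := hv3 i hi (gc 𝒰 s) h2
    rw [hV s hs0 i, gc_eq] at h3
    obtain ⟨t, h5, h6⟩ := (h3.and hcon).exists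
    exact hs t h6 h5
  have e3 : ∀ᶠ t in (𝒰 : Filter α), ∀ j, V t 1 j = y t j := by
    refine (Filter.eventually_all).2 fun j => ?_
    have h1 := hV (fun _ => 1) (fun _ => one_ne_zero) j
    rw [hone, hv4, gc_eq] at h1
    filter_upwards [h1] with t h
    exact h.symm
  have e4 : ∀ᶠ t in (𝒰 : Filter α), V t 2 j0 ≠ V t 1 j0 := by
    rw [← hone, ← htwo, hV _ (fun _ => two_ne_zero) j0, hV _ (fun _ => one_ne_zero) j0, Ne,
      gc_eq] at hj0
    exact Ultrafilter.eventually_not.2 hj0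
  filter_upwards [e1, e2, e3, e4] with t g1 g2 g3 g4
  refine ⟨V t, fun j => ?_, g1, g2, funext g3, j0, g4⟩
  refine ⟨M, P j t, fun s hs => ?_⟩
  show (P j t).eval s / s ^ M * s ^ M = _
  rw [div_mul_cancel₀ _ (pow_ne_zero _ hs)]

end Pool.Agent.N754.MT
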