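import Mathlib
import Pool.Agent.N754.MT.Main
import Pool.Agent.N754.MT.Trans
import Pool.Agent.N754.MT.Hgt
import Pool.Agent.N754.LT.Fin

/-!
The arithmetic half: heights of integral points in families.
-/

set_option autoImplicit false
set_option linter.unusedSectionVars false

open Finset MvPolynomial Filter

namespace Pool.Agent.N754.MT

open NumberField IsDedekindDomain Height
open Pool.Agent.Y742.SF Pool.Agent.Y742.AR
open Pool.Agent.W235.RM Pool.Agent.H159R3.Exp
open Pool.Agent.N754.LT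
open Real (posLog)

/-- nonconstant Laurent curves with constant coordinates in `A` lie in `V'` -/
def GmFib {K : Type} [Field K] {ι κ : Type} {n : ℕ} (σ : K →+* ℂ)
    (F : ι → MvPolynomial (Fin n) (𝓞 K)) (G : κ → MvPolynomial (Fin n) (𝓞 K))
    (A : Finset (Fin n)) : Prop :=
  ∀ v : ℂ → Fin n → ℂ, (∀ j, Laur fun t => v t j) →
    (∀ i t, t ≠ 0 → eval₂ (σ.comp (algebraMap (𝓞 K) K)) (v t) (F i) = 0) →
    (∀ i ∈ A, ∀ t s, t ≠ 0 → s ≠ 0 → v t i = v s i) →
    (∃ t s, t ≠ 0 ∧ s ≠ 0 ∧ v t ≠ v s) →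
    ∀ l t, t ≠ 0 → eval₂ (σ.comp (algebraMap (𝓞 K) K)) (v t) (G l) = 0

theorem posLog_eq (x : ℝ) : max (Real.log x) 0 = posLog x := by
  rw [Real.posLog_apply, max_comm]

section inst

variable {M : Type} [Field M] [NumberField M] [IsGalois ℚ M] {D : PD M} {𝒰 : Ultrafilter ℕ}
  {N : ℕ → ℝ} {hN : ∀ t, 1 ≤ N t}

theorem szdA (hNt : Tendsto N (𝒰 : Filter ℕ) atTop) : Szd (DcA (D := D) (hN := hN) hNt) := by
  intro x
  obtain ⟨C, hC, h1⟩ := ((mem_R0 hN _).1 (vl_mem x)).2
  refine ⟨C, hC, fun ε hε => ?_⟩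
  filter_upwards [h1] with t g1
  have h5 : ∀ v, max (Real.log (D.av v (rep (vl D 𝒰 N hN x) t))) 0 - C * N t ≤ 0 := by
    intro v
    have e4 := hN t
    have e5 : 0 ≤ C * N t := by positivity
    rw [sub_nonpos]
    refine max_le ?_ e5
    rcases (D.av_nonneg v (rep (vl D 𝒰 N hN x) t)).eq_or_lt with h | h
    · rw [← h, Real.log_zero]
      exact e5
    · exact (Real.log_le_iff_le_exp h).2 (g1 v)
  refine (Finset.sum_nonpos fun v _ => h5 v).trans ?_
  have := hN t
  positivity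

end inst

theorem arith {K : Type} [Field K] [NumberField K] (σ : K →+* ℂ) {ι κ : Type}
    [Finite ι] {n : ℕ} (F : ι → MvPolynomial (Fin n) (𝓞 K)) (G : κ → MvPolynomial (Fin n) (𝓞 K))
    (U A : Finset (Fin n))
    (hU : ∀ z : Fin n → ℂ, (∀ l, eval₂ (σ.comp (algebraMap (𝓞 K) K)) z (F l) = 0) →
      ∀ i ∈ U, z i ≠ 0)
    (hal : Alone σ F G (U ∪ A)) (hgm : GmFib σ F G A)
    (L : Type) [Field L] [NumberField L] [Algebra K L] (S : Set (HeightOneSpectrum (𝓞 L)))
    (hS : S.Finite) :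
    ∃ C : ℝ, ∀ x ∈ intPoints F L S, x ∉ intPoints G L S → ∀ j,
      logHeight₁ (x j) ≤ C * (1 + ∑ i ∈ A, logHeight₁ (x i)) := by
  classical
  by_contra hcon
  push Not at hcon
  choose xs hxF hxG js hjs using fun t : ℕ => hcon t
  obtain ⟨M, hM1, hM2, hM3, hgal, hi⟩ := exists_big L
  obtain ⟨S', hS', hSS'⟩ := ext_int L M S hS
  obtain ⟨D, hD⟩ := exists_PD hi S' hS'
  let 𝒰 : Ultrafilter ℕ := Filter.hyperfilter ℕ
  have h𝒰 : (𝒰 : Filter ℕ) ≤ atTop := Nat.hyperfilter_le_atTop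
  let : Algebra K M := ((algebraMap L M).comp (algebraMap K L)).toAlgebra
  let τ : 𝓞 K →+* M := (algebraMap K M).comp (algebraMap (𝓞 K) K)
  have hτ : τ = (algebraMap L M).comp ((algebraMap K L).comp (algebraMap (𝓞 K) K)) := rfl
  let : Algebra K ℂ := σ.toAlgebra
  have : Algebra.IsAlgebraic K M := by
    have h1 : Algebra.IsAlgebraic ℚ M := inferInstance
    exact Algebra.IsAlgebraic.tower_top (K := ℚ) K
  let ψ0 : M →ₐ[K] ℂ := IsAlgClosed.lift
  let ψ : M →+* ℂ := ψ0
  have hψ : ψ.comp τ = σ.comp (algebraMap (𝓞 K) K) := by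
    ext c
    exact ψ0.commutes _
  let FM : ι → MvPolynomial (Fin n) M := fun l => MvPolynomial.map τ (F l)
  let y : Fin n → BA M 𝒰 := fun j => (gm 𝒰 (fun t => algebraMap L M (xs t j)) : GK M 𝒰)
  have hyrep : ∀ᶠ t in (𝒰 : Filter ℕ), ∀ j,
      rep (K := M) (𝒰 := 𝒰) (y j) t = algebraMap L M (xs t j) := by
    refine (Filter.eventually_all).2 fun j => ?_
    exact rep_gm (K := M) (𝒰 := 𝒰) (fun t => algebraMap L M (xs t j))
  have hevm : ∀ (t : ℕ) (P : MvPolynomial (Fin n) (𝓞 K)),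
      eval (fun j => algebraMap L M (xs t j)) (MvPolynomial.map τ P) =
      algebraMap L M (eval₂ ((algebraMap K L).comp (algebraMap (𝓞 K) K)) (xs t) P) := by
    intro t P
    rw [eval_map, hτ]
    exact (MvPolynomial.hom_eval₂ P _ (algebraMap L M) (xs t)).symm
  have hFM : ∀ l, aeval y (FM l) = 0 := by
    intro l
    apply zero_of_rep 𝒰
    have h1 := (rpA M 𝒰).rep_aeval y (FM l)
    have h2 : ∀ᶠ t in (𝒰 : Filter ℕ), rep (K := M) (𝒰 := 𝒰) (aeval y (FM l)) t =
        eval (fun i => rep (K := M) (𝒰 := 𝒰) (y i) t) (FM l) := h1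
    filter_upwards [h2, hyrep] with t g1 g2
    rw [g1]
    have g3 : (fun i => rep (K := M) (𝒰 := 𝒰) (y i) t) = fun j => algebraMap L M (xs t j) :=
      funext g2
    rw [g3]
    simp only [FM]
    rw [hevm, (hxF t).2 l, map_zero]
  have hTInt : ∀ t j, D.TInt (algebraMap L M (xs t j)) := by
    intro t j w hw
    have h2 := hSS' _ ((hxF t).1 j)
    refine (mem_integer_iff S' _).1 h2 w ?_
    intro hwS
    obtain ⟨v, hv⟩ := hD w hwS
    exact hw v hv
  have hyTI : ∀ j, TI D 𝒰 (rep (K := M) (𝒰 := 𝒰) (y j)) := by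
    intro j
    refine ⟨1, one_ne_zero, ?_⟩
    filter_upwards [hyrep] with t ht
    rw [ht]
    have h1 : ((1 : 𝓞 M) : M) = 1 := rfl
    rw [h1, one_mul]
    exact hTInt t j
  -- the scale
  let sz : ℕ → Fin n → ℝ := fun t i => ∑ v, posLog (D.av v (algebraMap L M (xs t i)))
  have hsz0 : ∀ t i, 0 ≤ sz t i := fun t i => Finset.sum_nonneg fun _ _ => Real.posLog_nonneg
  let N : ℕ → ℝ := fun t => 1 + ∑ i, sz t i
  have hN : ∀ t, 1 ≤ N t := fun t => by
    have : 0 ≤ ∑ i, sz t i := Finset.sum_nonneg fun _ _ => hsz0 _ _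
    simp only [N]
    linarith
  have hszN : ∀ t i, sz t i ≤ N t := by
    intro t i
    have h1 := Finset.single_le_sum (f := fun i => sz t i) (fun _ _ => hsz0 _ _)
      (Finset.mem_univ i)
    simp only [N]
    linarith
  have hvN : ∀ t i v, posLog (D.av v (algebraMap L M (xs t i))) ≤ N t := by
    intro t i v
    refine le_trans ?_ (hszN t i)
    exact Finset.single_le_sum (f := fun v => posLog (D.av v (algebraMap L M (xs t i))))
      (fun _ _ => Real.posLog_nonneg) (Finset.mem_univ v)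
  -- comparison of heights
  obtain ⟨C1, hC1, hdown⟩ := height_down (M := M) S hS
  let C2 : ℝ := 2 * Fintype.card (InfinitePlace M) + D.s
  have hC2 : 0 ≤ C2 := by positivity
  let C3 : ℝ := C1 * C2 + 1
  have hC3 : 0 < C3 := by positivity
  have hbig : ∀ t, logHeight₁ (xs t (js t)) ≤ C3 * N t := by
    intro t
    have h1 := hdown _ ((hxF t).1 (js t))
    have h2 := height_av D (algebraMap L M (xs t (js t))) (hTInt t (js t))
    have h3 := hszN t (js t)
    have h4 : logHeight₁ (algebraMap L M (xs t (js t))) ≤ C2 * N t :=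
      h2.trans (mul_le_mul_of_nonneg_left h3 hC2)
    have h5 : C1 * logHeight₁ (algebraMap L M (xs t (js t))) ≤ C1 * (C2 * N t) :=
      mul_le_mul_of_nonneg_left h4 hC1
    have h6 := hN t
    simp only [C3]
    nlinarith
  have hjs' : ∀ t : ℕ, (t : ℝ) * (1 + ∑ i ∈ A, logHeight₁ (xs t i)) < C3 * N t := fun t =>
    (hjs t).trans_le (hbig t)
  have hAnn : ∀ t, 0 ≤ ∑ i ∈ A, logHeight₁ (xs t i) := fun t =>
    Finset.sum_nonneg fun i _ => zero_le_logHeight₁ _
  have hNt : Tendsto N (𝒰 : Filter ℕ) atTop := by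
    refine Tendsto.mono_left ?_ h𝒰
    have h1 : Tendsto (fun t : ℕ => (t : ℝ) / C3) atTop atTop :=
      Tendsto.atTop_div_const hC3 tendsto_natCast_atTop_atTop
    refine tendsto_atTop_mono (fun t => ?_) h1
    rw [div_le_iff₀ hC3]
    have h2 := hjs' t
    have h3 := hAnn t
    have h4 : (0 : ℝ) ≤ t := Nat.cast_nonneg t
    nlinarith
  have hyB : ∀ i, Bd D N 𝒰 (rep (K := M) (𝒰 := 𝒰) (y i)) := by
    intro i
    refine ⟨1, zero_le_one, ?_⟩
    filter_upwards [hyrep] with t ht v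
    rw [ht i, one_mul]
    rcases (D.av_nonneg v (algebraMap L M (xs t i))).eq_or_lt with h | h
    · rw [← h]
      exact (Real.exp_pos _).le
    · rw [← Real.log_le_iff_le_exp h]
      refine le_trans ?_ (hvN t i v)
      rw [← posLog_eq]
      exact le_max_left _ _
  let yR : Fin n → RA D 𝒰 N hN := fun i => mkR (y i) (hyTI i) (hyB i)
  have hyRv : ∀ i, vl D 𝒰 N hN (yR i) = y i := fun i => rfl
  let D0 := DcA (D := D) (hN := hN) hNt
  have hFR : ∀ l, aeval yR (FM l) = 0 := by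
    intro l
    apply incA_inj D 𝒰 N hN
    rw [map_zero, ← hFM l]
    have h1 : ((incA D 𝒰 N hN).comp (aeval yR)) = aeval y := by
      ext i
      rw [AlgHom.comp_apply, aeval_X, aeval_X]
      rfl
    exact DFunLike.congr_fun h1 (FM l)
  -- units
  have hyU : ∀ i ∈ U, IsUnit (yR i) := by
    intro i hi
    obtain ⟨B, hB⟩ := unit_cert σ (fun l => MvPolynomial.map (algebraMap (𝓞 K) K) (F l)) i
      (fun z hz => hU z (fun l => by
        have := hz l
        rwa [eval₂_map] at this) i hi)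
    let Θ : MvPolynomial (Fin n) K →+* RA D 𝒰 N hN :=
      eval₂Hom ((algebraMap M (RA D 𝒰 N hN)).comp (algebraMap K M)) yR
    have hΘF : ∀ l, Θ (MvPolynomial.map (algebraMap (𝓞 K) K) (F l)) = 0 := by
      intro l
      have h1 := hFR l
      simp only [FM] at h1
      rw [aeval_def, eval₂_map] at h1
      show eval₂ _ _ _ = 0
      rw [eval₂_map]
      exact h1
    have h1 : Θ (B * X i - 1) = 0 := by
      have h2 : Ideal.span (Set.range fun l => MvPolynomial.map (algebraMap (𝓞 K) K) (F l)) ≤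
          RingHom.ker Θ := by
        rw [Ideal.span_le]
        rintro _ ⟨l, rfl⟩
        exact hΘF l
      exact h2 hB
    have h3 : Θ B * yR i = 1 := by
      rw [map_sub, map_mul, map_one, sub_eq_zero] at h1
      rw [← h1]
      congr 1
      exact (eval₂_X _ _ _).symm
    exact IsUnit.of_mul_eq_one_right _ h3
  -- small coordinates
  have hyA : ∀ i ∈ A, yR i ∈ SS D0 := by
    intro i hi
    rw [mem_SS]
    intro ε hε
    let V : ℝ := Fintype.card ((M ≃ₐ[ℚ] M) ⊕ Fin D.s)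
    have hV : 0 ≤ V := Nat.cast_nonneg _
    let C4 : ℝ := V * (1 + Module.finrank ℚ M)
    have hC4 : 0 ≤ C4 := by positivity
    have hev : ∀ᶠ t : ℕ in (𝒰 : Filter ℕ), C4 * C3 / ε + 1 ≤ (t : ℝ) :=
      h𝒰 (tendsto_natCast_atTop_atTop.eventually_ge_atTop _)
    filter_upwards [hyrep, hev] with t g1 g2
    have h1 : ∀ v, max (D0.lg (yR i) (v, t)) 0 = posLog (D.av v (algebraMap L M (xs t i))) := by
      intro v
      have h2 : D0.lg (yR i) (v, t) = Real.log (D.av v (rep (K := M) (𝒰 := 𝒰) (y i) t)) := rfl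
      rw [h2, g1 i, posLog_eq]
    rw [Finset.sum_congr rfl fun v _ => h1 v]
    have h3 : ∑ v, posLog (D.av v (algebraMap L M (xs t i))) ≤ C4 * logHeight₁ (xs t i) := by
      refine (Finset.sum_le_sum fun v _ => posLog_av_up (L := L) D v (xs t i)).trans (le_of_eq ?_)
      rw [Finset.sum_const, Finset.card_univ, nsmul_eq_mul]
      simp only [C4, V]
      ring
    refine h3.trans ?_
    have h4 : logHeight₁ (xs t i) ≤ ∑ i ∈ A, logHeight₁ (xs t i) :=
      Finset.single_le_sum (f := fun i => logHeight₁ (xs t i)) (fun _ _ => zero_le_logHeight₁ _) hi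
    have h5 := hjs' t
    have h6 : 0 ≤ logHeight₁ (xs t i) := zero_le_logHeight₁ _
    have ht0 : 0 < (t : ℝ) := by
      have : 0 ≤ C4 * C3 / ε := by positivity
      linarith
    have h7 : (t : ℝ) * logHeight₁ (xs t i) ≤ C3 * N t := by nlinarith
    have h8 : C4 * C3 ≤ ε * t := by
      have h9 : C4 * C3 / ε ≤ t := by linarith
      rw [div_le_iff₀ hε] at h9
      linarith
    have h9 : (t : ℝ) * (C4 * logHeight₁ (xs t i)) ≤ t * (ε * N t) := by
      have hN1 := hN t
      calc (t : ℝ) * (C4 * logHeight₁ (xs t i)) = C4 * (t * logHeight₁ (xs t i)) := by ring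
        _ ≤ C4 * (C3 * N t) := mul_le_mul_of_nonneg_left h7 hC4
        _ = (C4 * C3) * N t := by ring
        _ ≤ (ε * t) * N t := mul_le_mul_of_nonneg_right h8 (by linarith)
        _ = _ := by ring
    exact le_of_mul_le_mul_left h9 ht0
  -- the embedding into complex germs
  let θ : RA D 𝒰 N hN →+* GC ℕ 𝒰 := (thA 𝒰 ψ).comp (incA D 𝒰 N hN).toRingHom
  have hθ : Function.Injective θ := (thA 𝒰 ψ).injective.comp (incA_inj D 𝒰 N hN)
  have hθc : θ.comp (algebraMap M (RA D 𝒰 N hN)) =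
      (gc 𝒰).comp ((Pi.constRingHom ℕ ℂ).comp ψ) := thA_const 𝒰 ψ
  have hchar : CharZero (GC ℕ 𝒰) :=
    charZero_of_injective_ringHom (f := (thA 𝒰 ψ).comp (algebraMap M (BA M 𝒰)))
      (RingHom.injective _)
  have hθy : ∀ i, θ (yR i) = gc 𝒰 fun t => ψ (rep (K := M) (𝒰 := 𝒰) (y i) t) := fun i => rfl
  have hG : ∀ t, ∃ l, eval₂ ((algebraMap K L).comp (algebraMap (𝓞 K) K)) (xs t) (G l) ≠ 0 := by
    intro t
    by_contra hcon
    push Not at hcon
    exact hxG t ⟨(hxF t).1, hcon⟩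
  have hev : ∀ t, (∀ j, rep (K := M) (𝒰 := 𝒰) (y j) t = algebraMap L M (xs t j)) →
      ∀ P : MvPolynomial (Fin n) (𝓞 K),
      eval₂ (σ.comp (algebraMap (𝓞 K) K)) (fun j => ψ (rep (K := M) (𝒰 := 𝒰) (y j) t)) P =
      ψ (algebraMap L M (eval₂ ((algebraMap K L).comp (algebraMap (𝓞 K) K)) (xs t) P)) := by
    intro t ht P
    have g3 : (fun j => ψ (rep (K := M) (𝒰 := 𝒰) (y j) t)) =
        fun j => ψ (algebraMap L M (xs t j)) := funext fun j => by rw [ht]
    rw [g3, ← hψ, ← hevm, eval_map]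
    exact (MvPolynomial.hom_eval₂ P τ ψ _).symm
  have hmain := main D0 θ hθ (szdA hNt) U A FM yR hFR hyU hyA (by
    let V : ℝ := Fintype.card ((M ≃ₐ[ℚ] M) ⊕ Fin D.s)
    refine ⟨V, Nat.cast_nonneg _, fun ε hε => ?_⟩
    filter_upwards [hyrep, hNt.eventually_ge_atTop (V / ε)] with t g1 g2
    rw [div_le_iff₀ hε] at g2
    have h1 : ∀ v, ∑ i, max (D0.lg (yR i) (v, t)) 0 =
        ∑ i, posLog (D.av v (algebraMap L M (xs t i))) := by
      intro v
      refine Finset.sum_congr rfl fun i _ => ?_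
      have h2 : D0.lg (yR i) (v, t) = Real.log (D.av v (rep (K := M) (𝒰 := 𝒰) (y i) t)) := rfl
      rw [h2, g1 i, posLog_eq]
    have h2 : ∑ v, (N t - V * ∑ i, posLog (D.av v (algebraMap L M (xs t i)))) ≤ ε * N t := by
      rw [Finset.sum_sub_distrib, ← Finset.mul_sum, Finset.sum_const, nsmul_eq_mul,
        Finset.card_univ, Finset.sum_comm]
      have h3 : (∑ i, ∑ v, posLog (D.av v (algebraMap L M (xs t i)))) = N t - 1 := by
        simp only [N, sz]
        ring
      rw [h3]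
      have h4 : ((Fintype.card ((M ≃ₐ[ℚ] M) ⊕ Fin D.s) : ℕ) : ℝ) = V := rfl
      rw [h4]
      linarith
    refine le_trans (le_of_eq ?_) h2
    exact Finset.sum_congr rfl fun v _ => by
      show N t - V * ∑ i, max (D0.lg (yR i) (v, t)) 0 = _
      rw [h1 v]) (not_neg_oneA hNt)
  rw [hθc] at hmain
  rcases hmain with hsec | hcur
  · have hsec2 := gc_second 𝒰 ψ (U ∪ A) FM (fun t j => ψ (rep (K := M) (𝒰 := 𝒰) (y j) t)) hsec
    obtain ⟨t, ⟨z', hz1, hz2, hz3⟩, ht⟩ := (hsec2.and hyrep).exists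
    apply hz3
    refine hal _ _ (fun l => ?_) (fun l => ?_) (fun i hi => hz2 i hi) ?_
    · rw [hev t ht, (hxF t).2 l, map_zero, map_zero]
    · have h1 := hz1 l
      simp only [FM] at h1
      rw [eval₂_map, hψ] at h1
      exact h1
    · obtain ⟨l, hl⟩ := hG t
      refine ⟨l, ?_⟩
      rw [hev t ht]
      exact (map_ne_zero _).2 ((map_ne_zero _).2 hl)
  · have hcur2 := gc_curve 𝒰 ψ A FM (fun t j => ψ (rep (K := M) (𝒰 := 𝒰) (y j) t)) hcur
    obtain ⟨t, ⟨v, hv1, hv2, hv3, hv4, j, hj⟩, ht⟩ := (hcur2.and hyrep).exists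
    obtain ⟨l, hl⟩ := hG t
    have h1 := hgm v hv1 (fun i s hs => by
      have h2 := hv2 i s hs
      simp only [FM] at h2
      rw [eval₂_map, hψ] at h2
      exact h2) (fun i hi s s' hs hs' => by rw [hv3 i hi s hs, hv3 i hi s' hs'])
      ⟨2, 1, two_ne_zero, one_ne_zero, fun h => hj (congrFun h j)⟩ l 1 one_ne_zero
    rw [hv4, hev t ht] at h1
    exact hl ((map_eq_zero _).1 ((map_eq_zero _).1 h1))

end Pool.Agent.N754.MT
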