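import Mathlib
import Pool.Agent.H159R3.Exp.Descend
import Pool.Agent.W235.RM.Final
import Pool.Agent.N754.MT.Ari

/-!
Descent of Laurent curves in fibres to number fields, and the easy implications.
-/

set_option autoImplicit false
set_option linter.unusedSectionVars false

open Finset MvPolynomial Filter

namespace Pool.Agent.N754.MT

open NumberField IsDedekindDomain Height
open Pool.Agent.W235.RM Pool.Agent.H159R3.Exp

theorem laur_scale {k : Type*} [Field k] {φ : k → k} (h : Laur φ) (u : k) (hu : u ≠ 0) :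
    Laur fun t => φ (u * t) := by
  obtain ⟨M, Q, hQ⟩ := h
  refine ⟨M, Polynomial.C ((u ^ M)⁻¹) * Q.comp (Polynomial.C u * Polynomial.X), fun t ht => ?_⟩
  have h1 := hQ (u * t) (mul_ne_zero hu ht)
  rw [Polynomial.eval_mul, Polynomial.eval_C, Polynomial.eval_comp, Polynomial.eval_mul,
    Polynomial.eval_C, Polynomial.eval_X, ← h1, mul_pow]
  have h2 : u ^ M ≠ 0 := pow_ne_zero _ hu
  field_simp

theorem descendA {K : Type} [Field K] [NumberField K] {n : ℕ} {ι : Type} (A : Finset (Fin n))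
    (F : ι → MvPolynomial (Fin n) K) (W : MvPolynomial (Fin n ⊕ Fin n) K) [Algebra K ℂ]
    (v : ℂ → Fin n → ℂ) (hv : ∀ j, Laur (fun t => v t j))
    (hF : ∀ i t, t ≠ 0 → aeval (v t) (F i) = 0) (hA : ∀ i ∈ A, ∀ t, t ≠ 0 → v t i = v 1 i)
    (k1 : ℕ) (hW : aeval (Sum.elim (v 1) (v (2 ^ k1))) W ≠ 0) :
    ∃ (L : Type) (_ : Field L) (_ : Algebra K L) (_ : NumberField L) (_ : FiniteDimensional K L)
      (v' : L → Fin n → L), (∀ j, Laur (fun t => v' t j)) ∧
        (∀ i t, t ≠ 0 → aeval (v' t) (F i) = 0) ∧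
        (∀ i ∈ A, ∀ t, t ≠ 0 → v' t i = v' 1 i) ∧
        aeval (Sum.elim (v' 1) (v' (2 ^ k1))) W ≠ 0 := by
  classical
  obtain ⟨e, Q, hQ⟩ := Laur.common v hv
  let D := Finset.univ.sup (fun j => (Q j).natDegree)
  let κ0 : Fin n × Fin (D + 1) → ℂ := fun p => (Q p.1).coeff p.2
  have hκ0 : ∀ t, t ≠ 0 → cpt e κ0 t = v t := by
    intro t ht
    funext j
    rw [hQ t ht j]
    unfold cpt
    congr 1
    rw [Polynomial.eval_eq_sum_range' (n := D + 1) (Nat.lt_succ_of_le (Finset.le_sup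
      (f := fun j => (Q j).natDegree) (Finset.mem_univ j)))]
    rw [Finset.sum_range]
  have hgF : ∀ (M : Type) [Field M] [Algebra K M] (κ : Fin n × Fin (D + 1) → M) (k : ℕ)
      (p : MvPolynomial (Fin n) K),
      aeval κ (bind₁ (gpt (K := K) (D := D) e k) p) = aeval (cpt e κ (2 ^ k)) p := by
    intro M _ _ κ k p
    rw [aeval_bind₁]
    congr 2
    funext j
    rw [aeval_gpt]
  have hgW : ∀ (M : Type) [Field M] [Algebra K M] (κ : Fin n × Fin (D + 1) → M),
      aeval κ (bind₁ (Sum.elim (gpt (K := K) (D := D) e 0) (gpt (K := K) (D := D) e k1)) W)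
        = aeval (Sum.elim (cpt e κ 1) (cpt e κ (2 ^ k1))) W := by
    intro M _ _ κ
    rw [aeval_bind₁]
    congr 2
    funext j
    rcases j with j | j
    · simp only [Sum.elim_inl]
      rw [aeval_gpt, pow_zero]
    · simp only [Sum.elim_inr]
      rw [aeval_gpt]
  let E : (ι × ℕ) ⊕ (A × ℕ) → MvPolynomial (Fin n × Fin (D + 1)) K := fun x => match x with
    | Sum.inl x => bind₁ (gpt (K := K) (D := D) e x.2) (F x.1)
    | Sum.inr x => gpt (K := K) (D := D) e x.2 x.1.1 - gpt (K := K) (D := D) e 0 x.1.1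
  obtain ⟨κ, hκ, hκW⟩ := H952R2.Sextic.transfer (k := K) (kb := AlgebraicClosure K) E
    (bind₁ (Sum.elim (gpt (K := K) (D := D) e 0) (gpt (K := K) (D := D) e k1)) W)
    ⟨κ0, fun x => by
      rcases x with x | x
      · show aeval κ0 (bind₁ (gpt (K := K) (D := D) e x.2) (F x.1)) = 0
        rw [hgF ℂ, hκ0 _ (pow_ne_zero _ two_ne_zero)]
        exact hF _ _ (pow_ne_zero _ two_ne_zero)
      · show aeval κ0 (gpt (K := K) (D := D) e x.2 x.1.1 - gpt (K := K) (D := D) e 0 x.1.1) = 0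
        rw [map_sub, aeval_gpt, aeval_gpt, hκ0 _ (pow_ne_zero _ two_ne_zero),
          hκ0 _ (pow_ne_zero _ two_ne_zero), hA _ x.1.2 _ (pow_ne_zero _ two_ne_zero), pow_zero,
          sub_self], by
      rw [hgW ℂ, hκ0 _ (pow_ne_zero _ two_ne_zero), hκ0 _ one_ne_zero]
      exact hW⟩
  let L := IntermediateField.adjoin K (Set.range κ)
  have hfinL : FiniteDimensional K L := by
    apply IntermediateField.finiteDimensional_adjoin
    intro x _
    exact Algebra.IsIntegral.isIntegral x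
  have hNF : NumberField L := NumberField.of_module_finite K L
  let κL : Fin n × Fin (D + 1) → L :=
    fun j => ⟨κ j, IntermediateField.subset_adjoin K _ ⟨j, rfl⟩⟩
  have hκL : ∀ P : MvPolynomial (Fin n × Fin (D + 1)) K, aeval κ P = 0 → aeval κL P = 0 := by
    intro P hP
    apply (algebraMap L (AlgebraicClosure K)).injective
    rw [map_zero, ← hP, ← aeval_algebraMap_apply]
    rfl
  refine ⟨L, inferInstance, inferInstance, hNF, hfinL, cpt e κL, cpt_laur e κL, ?_, ?_, ?_⟩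
  · intro i
    apply Laur.zero_of_zero (Laur.eval₂ (algebraMap K L) (cpt e κL) (cpt_laur e κL) (F i))
    intro m
    change aeval (cpt e κL (2 ^ m)) (F i) = 0
    rw [← hgF L]
    exact hκL _ (hκ (Sum.inl (i, m)))
  · intro i hi t ht
    have h1 : Laur fun t => cpt e κL t i + -(cpt e κL 1 i) := (cpt_laur e κL i).add (Laur.const _)
    have h2 := Laur.zero_of_zero h1 (fun m => by
      have h3 := hκL _ (hκ (Sum.inr (⟨i, hi⟩, m)))
      have h4 : aeval κL (gpt (K := K) (D := D) e m i - gpt (K := K) (D := D) e 0 i) = 0 := h3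
      rw [map_sub, aeval_gpt, aeval_gpt, pow_zero] at h4
      rw [← sub_eq_add_neg]
      exact h4) t ht
    linear_combination h2
  · rw [← hgW L]
    intro h0
    apply hκW
    have h1 := congrArg (algebraMap L (AlgebraicClosure K)) h0
    rw [map_zero, ← aeval_algebraMap_apply] at h1
    exact h1

section

variable {K : Type} [Field K] [NumberField K] {ι κ : Type} {n : ℕ} (σ : K →+* ℂ)
  (F : ι → MvPolynomial (Fin n) (𝓞 K)) (G : κ → MvPolynomial (Fin n) (𝓞 K)) (A : Finset (Fin n))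

theorem laurA_of_not_gm (h : ¬ GmFib σ F G A) :
    ∃ (L : Type) (_ : Field L) (_ : NumberField L) (_ : Algebra K L) (v : L → Fin n → L),
      (∀ j, Laur fun t => v t j) ∧
      (∀ i t, t ≠ 0 → eval₂ ((algebraMap K L).comp (algebraMap (𝓞 K) K)) (v t) (F i) = 0) ∧
      (∀ i ∈ A, ∀ t, t ≠ 0 → v t i = v 1 i) ∧
      (∃ l, eval₂ ((algebraMap K L).comp (algebraMap (𝓞 K) K)) (v 1) (G l) ≠ 0) ∧
      ∃ (k : ℕ) (j : Fin n), v (2 ^ k) j ≠ v 1 j := by
  classical
  unfold GmFib at h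
  push Not at h
  obtain ⟨w, hw, hwF, hwA, ⟨t, s, ht, hs, hne⟩, l, u, hu, hl⟩ := h
  let v : ℂ → Fin n → ℂ := fun t => w (u * t)
  have hv : ∀ j, Laur fun t => v t j := fun j => laur_scale (hw j) u hu
  obtain ⟨j, hj⟩ := Function.ne_iff.1 hne
  obtain ⟨k1, hk1⟩ : ∃ k : ℕ, v (2 ^ k) j ≠ v 1 j := by
    by_contra hcon
    push Not at hcon
    have h1 : Laur fun t => v t j + -(v 1 j) := (hv j).add (Laur.const _)
    have h2 := Laur.zero_of_zero h1 (fun m => by rw [hcon m]; ring)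
    apply hj
    have h3 := h2 (u⁻¹ * t) (mul_ne_zero (inv_ne_zero hu) ht)
    have h4 := h2 (u⁻¹ * s) (mul_ne_zero (inv_ne_zero hu) hs)
    simp only [v] at h3 h4
    rw [mul_inv_cancel_left₀ hu] at h3 h4
    linear_combination h3 - h4
  let _ := σ.toAlgebra
  have hmap : ∀ (M : Type) [Field M] [Algebra K M] (y : Fin n → M)
      (p : MvPolynomial (Fin n) (𝓞 K)), aeval y (map (algebraMap (𝓞 K) K) p)
        = eval₂ ((algebraMap K M).comp (algebraMap (𝓞 K) K)) y p := by
    intro M _ _ y p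
    rw [aeval_def, eval₂_map]
  obtain ⟨L, _, _, hNF, -, v', hv', hv'F, hv'A, hv'W⟩ := descendA A
    (fun i => map (algebraMap (𝓞 K) K) (F i))
    (rename Sum.inl (map (algebraMap (𝓞 K) K) (G l)) * (X (Sum.inr j) - X (Sum.inl j))) v hv
    (fun i t ht => by
      rw [hmap ℂ]
      exact hwF i _ (mul_ne_zero hu ht)) (fun i hi t ht =>
        hwA i hi _ _ (mul_ne_zero hu ht) (mul_ne_zero hu one_ne_zero)) k1 (by
    rw [map_mul, aeval_rename, map_sub, aeval_X, aeval_X]
    simp only [Sum.elim_comp_inl, Sum.elim_inr, Sum.elim_inl]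
    rw [hmap ℂ]
    refine mul_ne_zero ?_ (sub_ne_zero.mpr hk1)
    show eval₂ _ (w (u * 1)) (G l) ≠ 0
    rw [mul_one]
    exact hl)
  rw [map_mul, aeval_rename, map_sub, aeval_X, aeval_X] at hv'W
  simp only [Sum.elim_comp_inl, Sum.elim_inr, Sum.elim_inl] at hv'W
  refine ⟨L, inferInstance, hNF, inferInstance, v', hv', fun i t ht => ?_, hv'A, ⟨l, ?_⟩, k1, j, ?_⟩
  · rw [← hmap L]
    exact hv'F i t ht
  · rw [← hmap L]
    exact left_ne_zero_of_mul hv'W
  · exact sub_ne_zero.mp (right_ne_zero_of_mul hv'W)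

/-- finiteness of integral points in fibres -/
def FinFib (F : ι → MvPolynomial (Fin n) (𝓞 K)) (G : κ → MvPolynomial (Fin n) (𝓞 K))
    (A : Finset (Fin n)) : Prop :=
  ∀ (L : Type) [Field L] [NumberField L] [Algebra K L] (S : Set (HeightOneSpectrum (𝓞 L))),
    S.Finite → ∀ c : Fin n → L,
      {x | x ∈ intPoints F L S ∧ x ∉ intPoints G L S ∧ ∀ i ∈ A, x i = c i}.Finite

theorem gm_of_fin (h : FinFib F G A) : GmFib σ F G A := by
  classical
  by_contra hcon
  obtain ⟨L, _, _, _, v, hv, hvF, hvA, hG, hne⟩ := laurA_of_not_gm σ F G A hcon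
  obtain ⟨S, hS, hint⟩ := integral_pts v hv
  have h2 := infinite_points F G L v hv hvF hG hne 2 le_rfl
  apply h2
  refine (h L S hS (v 1)).subset ?_
  rintro x ⟨_, ⟨l, hl⟩, k, rfl⟩
  have h20 : ((2 : ℕ) : L) ^ k ≠ 0 := by
    rw [Nat.cast_ofNat]
    exact pow_ne_zero _ two_ne_zero
  refine ⟨⟨fun j => ?_, fun i => hvF i _ h20⟩, fun hmem => hl (hmem.2 l), fun i hi => hvA i hi _ h20⟩
  rw [Nat.cast_ofNat]
  exact hint k j

/-- heights of integral points in families -/
def HgtFib (F : ι → MvPolynomial (Fin n) (𝓞 K)) (G : κ → MvPolynomial (Fin n) (𝓞 K))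
    (A : Finset (Fin n)) : Prop :=
  ∀ (L : Type) [Field L] [NumberField L] [Algebra K L] (S : Set (HeightOneSpectrum (𝓞 L))),
    S.Finite → ∃ C : ℝ, ∀ x ∈ intPoints F L S, x ∉ intPoints G L S → ∀ j,
      logHeight₁ (x j) ≤ C * (1 + ∑ i ∈ A, logHeight₁ (x i))

omit [NumberField K] in
theorem fin_of_hgt (h : HgtFib F G A) : FinFib F G A := by
  classical
  intro L _ _ _ S hS c
  obtain ⟨C, hC⟩ := h L S hS
  have h1 : {a : L | logHeight₁ a ≤ C * (1 + ∑ i ∈ A, logHeight₁ (c i))}.Finite :=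
    NumberField.finite_setOfPred_logHeight₁_le L _
  refine (Set.Finite.pi' (fun _ : Fin n => h1)).subset ?_
  rintro x ⟨hx1, hx2, hx3⟩ j
  have h2 := hC x hx1 hx2 j
  have h3 : ∑ i ∈ A, logHeight₁ (x i) = ∑ i ∈ A, logHeight₁ (c i) :=
    Finset.sum_congr rfl fun i hi => by rw [hx3 i hi]
  rw [h3] at h2
  exact h2

/-- entire curves in fibres -/
def EntFib (σ : K →+* ℂ) (F : ι → MvPolynomial (Fin n) (𝓞 K))
    (G : κ → MvPolynomial (Fin n) (𝓞 K)) (A : Finset (Fin n)) : Prop :=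
  ∀ f : ℂ → Fin n → ℂ, Differentiable ℂ f →
    (∀ z i, eval₂ (σ.comp (algebraMap (𝓞 K) K)) (f z) (F i) = 0) →
    (∀ i ∈ A, ∀ z w, f z i = f w i) → (∃ z w, f z ≠ f w) →
    ∀ z l, eval₂ (σ.comp (algebraMap (𝓞 K) K)) (f z) (G l) = 0

omit [NumberField K] in
theorem gm_of_ent (h : EntFib σ F G A) : GmFib σ F G A := by
  intro v hv hvF hvA ⟨t, s, ht, hs, hne⟩ l u hu
  have hd : Differentiable ℂ fun ζ => v (Complex.exp ζ) := by
    rw [differentiable_pi]
    intro j
    exact (Laur.expPoly (hv j)).1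
  have h1 := h (fun ζ => v (Complex.exp ζ)) hd (fun z i => hvF i _ (Complex.exp_ne_zero z))
    (fun i hi z w => hvA i hi _ _ (Complex.exp_ne_zero z) (Complex.exp_ne_zero w))
    ⟨Complex.log t, Complex.log s, by
      rw [Complex.exp_log ht, Complex.exp_log hs]
      exact hne⟩ (Complex.log u) l
  rwa [Complex.exp_log hu] at h1

end

end Pool.Agent.N754.MT
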