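import Mathlib
import Pool.Agent.N754.LT.AnD
import Pool.Agent.N754.MT.Mov

/-!
The analytic instance with two scales: entire functions of bounded growth compared with a scale which
can be small.
-/

set_option autoImplicit false
set_option linter.unusedSectionVars false

open Finset Filter Metric

namespace Pool.Agent.N754.MT

open Pool.Agent.H159R3.NV Pool.Agent.W602.NC
open Pool.Agent.N754.LT

/-- a scale -/
structure Nc (N : ℝ → ℝ) : Prop where
  one_le : ∀ s, 1 ≤ s → 1 ≤ N s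
  mono : ∀ r s, 1 ≤ r → r ≤ s → N r ≤ N s

/-- the large scale -/
def TN (N : ℝ → ℝ) : ℝ → ℝ := fun s => s + N s

theorem Nc.sc {N : ℝ → ℝ} (h : Nc N) : Sc (TN N) where
  le s hs := by
    have := h.one_le s hs
    simp only [TN]
    linarith
  mono r s hr hrs := by
    have := h.mono r s hr hrs
    simp only [TN]
    linarith

/-- entire functions of bounded growth -/
def RT1 (N : ℝ → ℝ) (hN : Nc N) : Subalgebra ℂ Ent where
  carrier := {f | BG N (f : ℂ → ℂ)}
  mul_mem' := by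
    rintro a b ⟨C, hC⟩ ⟨D, hD⟩
    refine ⟨C + D, fun s hs => ?_⟩
    have h1 : mm ((a * b : Ent) : ℂ → ℂ) s ≤ mm (a : ℂ → ℂ) s + mm (b : ℂ → ℂ) s := by
      unfold mm
      rw [← Real.circleAverage_fun_add (ci_posLog (mero_of_diff a.2) s)
        (ci_posLog (mero_of_diff b.2) s)]
      refine Real.circleAverage_mono (ci_posLog (mero_of_diff (a * b).2) s)
        ((ci_posLog (mero_of_diff a.2) s).add (ci_posLog (mero_of_diff b.2) s)) fun z _ => ?_
      have h2 : ((a * b : Ent) : ℂ → ℂ) z = (a : ℂ → ℂ) z * (b : ℂ → ℂ) z := rfl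
      rw [h2, norm_mul]
      exact Real.posLog_mul
    have := hC s hs
    have := hD s hs
    rw [add_mul]
    linarith
  add_mem' := by
    rintro a b ⟨C, hC⟩ ⟨D, hD⟩
    refine ⟨C + D + Real.log 2, fun s hs => ?_⟩
    have h1 : mm ((a + b : Ent) : ℂ → ℂ) s ≤ mm (a : ℂ → ℂ) s + mm (b : ℂ → ℂ) s + Real.log 2 := by
      unfold mm
      have i1 := ci_posLog (mero_of_diff a.2) s
      have i2 := ci_posLog (mero_of_diff b.2) s
      have i3 : CircleIntegrable (fun _ : ℂ => Real.log 2) 0 s := circleIntegrable_const _ _ _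
      have h3 := Real.circleAverage_const (Real.log 2) (0 : ℂ) s
      have i12 : CircleIntegrable (fun z => Real.posLog ‖(a : ℂ → ℂ) z‖ +
        Real.posLog ‖(b : ℂ → ℂ) z‖) 0 s := i1.add i2
      rw [← Real.circleAverage_fun_add i1 i2]
      conv_rhs => rw [← h3]
      rw [← Real.circleAverage_fun_add i12 i3]
      refine Real.circleAverage_mono (ci_posLog (mero_of_diff (a + b).2) s)
        ((i1.add i2).add i3) fun z _ => ?_
      have h2 : ((a + b : Ent) : ℂ → ℂ) z = (a : ℂ → ℂ) z + (b : ℂ → ℂ) z := rfl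
      rw [h2]
      have h4 : Real.posLog ‖(a : ℂ → ℂ) z + (b : ℂ → ℂ) z‖ ≤
          Real.posLog (‖(a : ℂ → ℂ) z‖ + ‖(b : ℂ → ℂ) z‖) :=
        Real.posLog_le_posLog (norm_nonneg _) (norm_add_le _ _)
      have h5 := Real.posLog_add (x := ‖(a : ℂ → ℂ) z‖) (y := ‖(b : ℂ → ℂ) z‖)
      show _ ≤ Real.posLog ‖(a : ℂ → ℂ) z‖ + Real.posLog ‖(b : ℂ → ℂ) z‖ + Real.log 2
      linarith
    have h2 := hC s hs
    have h3 := hD s hs
    have h4 := hN.one_le s hs
    have h5 : 0 ≤ Real.log 2 := Real.log_nonneg (by norm_num)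
    have h6 : Real.log 2 ≤ Real.log 2 * N s := le_mul_of_one_le_right h5 h4
    rw [add_mul, add_mul]
    linarith
  algebraMap_mem' := by
    intro c
    refine ⟨Real.posLog ‖c‖, fun s hs => ?_⟩
    have h1 : mm ((algebraMap ℂ Ent c : Ent) : ℂ → ℂ) s = Real.posLog ‖c‖ := by
      unfold mm
      exact Real.circleAverage_const (Real.posLog ‖c‖) (0 : ℂ) s
    rw [h1]
    exact le_mul_of_one_le_right Real.posLog_nonneg (hN.one_le s hs)

theorem BG.tn {N : ℝ → ℝ} (_hN : Nc N) {f : ℂ → ℂ} (h : BG N f) : BG (TN N) f := by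
  obtain ⟨C, hC⟩ := h
  refine ⟨|C|, fun s hs => ?_⟩
  have h1 := hC s hs
  have h2 := _hN.one_le s hs
  have h3 : C * N s ≤ |C| * N s := mul_le_mul_of_nonneg_right (le_abs_self _) (by linarith)
  have h4 : |C| * N s ≤ |C| * TN N s := by
    refine mul_le_mul_of_nonneg_left ?_ (abs_nonneg _)
    simp only [TN]
    linarith
  linarith

/-- admissible filters of radii -/
structure FN (N : ℝ → ℝ) (𝓕 : Filter ℝ) : Prop where
  le : 𝓕 ≤ FF (TN N)
  log : ∀ ε : ℝ, 0 < ε → ∀ᶠ s in 𝓕, Real.log s ≤ ε * N s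

section

variable {N : ℝ → ℝ} {𝓕 : Filter ℝ}

theorem FN.ge (h : FN N 𝓕) (R0 : ℝ) : ∀ᶠ s in 𝓕, R0 ≤ s := h.le (FF_ge R0)

theorem FN.big (h : FN N 𝓕) (C : ℝ) : ∀ᶠ s in 𝓕, C ≤ N s := by
  filter_upwards [h.log 1 one_pos, h.ge (Real.exp C)] with s h1 h2
  have h3 := Real.log_le_log (Real.exp_pos C) h2
  rw [Real.log_exp] at h3
  linarith

theorem FN.tendsto (h : FN N 𝓕) : Tendsto N 𝓕 atTop := tendsto_atTop.2 fun C => h.big C

theorem FN.logT (h : FN N 𝓕) (hN : Nc N) (C C' ε : ℝ) (hε : 0 < ε) :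
    ∀ᶠ s in 𝓕, C + C' * Real.log (TN N s) ≤ ε * N s := by
  have h1 : ∀ᶠ x : ℝ in atTop, (C + |C'| * Real.log 2) + |C'| * Real.log x ≤ (ε / 2) * x := by
    have h2 : (fun x : ℝ => |C'| * Real.log x) =o[atTop] (fun x : ℝ => x) :=
      Real.isLittleO_log_id_atTop.const_mul_left |C'|
    filter_upwards [h2.bound (by positivity : 0 < ε / 4),
      eventually_ge_atTop ((C + |C'| * Real.log 2) / (ε / 4)), eventually_ge_atTop 0]
      with x h3 h4 h5
    rw [div_le_iff₀ (by positivity)] at h4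
    rw [Real.norm_eq_abs, Real.norm_eq_abs, abs_of_nonneg h5] at h3
    have h6 := le_abs_self (|C'| * Real.log x)
    linarith
  filter_upwards [h.tendsto.eventually h1, h.ge 1,
    h.log (ε / (2 * (|C'| + 1))) (by positivity)] with s g1 g2 g3
  have g4 := hN.one_le s g2
  have hC' := abs_nonneg C'
  have g5 : Real.log (TN N s) ≤ Real.log 2 + Real.log s + Real.log (N s) := by
    rw [← Real.log_mul (by norm_num) (by linarith), ← Real.log_mul (by positivity) (by linarith)]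
    refine Real.log_le_log ?_ ?_
    · simp only [TN]
      linarith
    · simp only [TN]
      nlinarith
  have g6 : 0 ≤ Real.log (TN N s) := Real.log_nonneg (by simp only [TN]; linarith)
  have g7 : C' * Real.log (TN N s) ≤ |C'| * Real.log (TN N s) :=
    mul_le_mul_of_nonneg_right (le_abs_self _) g6
  have g8 : |C'| * Real.log (TN N s) ≤ |C'| * (Real.log 2 + Real.log s + Real.log (N s)) :=
    mul_le_mul_of_nonneg_left g5 hC'
  have g9 : |C'| * Real.log s ≤ (ε / 2) * N s := by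
    have e1 : |C'| * Real.log s ≤ |C'| * (ε / (2 * (|C'| + 1)) * N s) :=
      mul_le_mul_of_nonneg_left g3 hC'
    have e2 : |C'| * (ε / (2 * (|C'| + 1)) * N s) = (|C'| / (|C'| + 1)) * ((ε / 2) * N s) := by
      field_simp
    have e3 : |C'| / (|C'| + 1) ≤ 1 := by
      rw [div_le_one (by linarith)]
      linarith
    have e4 : 0 ≤ (ε / 2) * N s := by positivity
    nlinarith
  nlinarith

end

/-- the ring of entire functions of bounded growth -/
def RM (N : ℝ → ℝ) (hN : Nc N) : Type := RT1 N hN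

noncomputable instance {N : ℝ → ℝ} {hN : Nc N} : CommRing (RM N hN) :=
  inferInstanceAs (CommRing (RT1 N hN))

instance {N : ℝ → ℝ} {hN : Nc N} : IsDomain (RM N hN) := inferInstanceAs (IsDomain (RT1 N hN))

noncomputable instance {N : ℝ → ℝ} {hN : Nc N} : Algebra ℂ (RM N hN) :=
  inferInstanceAs (Algebra ℂ (RT1 N hN))

/-- the inclusion -/
noncomputable def eM (N : ℝ → ℝ) (hN : Nc N) : RM N hN →ₐ[ℂ] Ent := (RT1 N hN).val

theorem eM_inj {N : ℝ → ℝ} {hN : Nc N} : Function.Injective (eM N hN) := Subtype.val_injective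

theorem eM_bg {N : ℝ → ℝ} {hN : Nc N} (f : RM N hN) : BG N (eM N hN f : ℂ → ℂ) := Subtype.prop f

/-- elements from functions -/
def mkM {N : ℝ → ℝ} {hN : Nc N} (f : Ent) (h : BG N (f : ℂ → ℂ)) : RM N hN :=
  (⟨f, h⟩ : RT1 N hN)

theorem eM_mkM {N : ℝ → ℝ} {hN : Nc N} (f : Ent) (h : BG N (f : ℂ → ℂ)) :
    eM N hN (mkM f h) = f := rfl

/-- the underlying function -/
noncomputable def fm {N : ℝ → ℝ} {hN : Nc N} (f : RM N hN) : ℂ → ℂ := ((eM N hN f : Ent) : ℂ → ℂ)

theorem fm_diff {N : ℝ → ℝ} {hN : Nc N} (f : RM N hN) : Differentiable ℂ (fm f) :=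
  (eM N hN f : Ent).2

theorem fm_mul {N : ℝ → ℝ} {hN : Nc N} (f g : RM N hN) (z : ℂ) : fm (f * g) z = fm f z * fm g z :=
  rfl

theorem fm_add {N : ℝ → ℝ} {hN : Nc N} (f g : RM N hN) (z : ℂ) : fm (f + g) z = fm f z + fm g z :=
  rfl

theorem fm_one {N : ℝ → ℝ} {hN : Nc N} (z : ℂ) : fm (1 : RM N hN) z = 1 := rfl

theorem fm_zero {N : ℝ → ℝ} {hN : Nc N} (z : ℂ) : fm (0 : RM N hN) z = 0 := rfl

theorem fm_ne {N : ℝ → ℝ} {hN : Nc N} (f : RM N hN) (hf : f ≠ 0) : ∃ z, fm f z ≠ 0 := by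
  by_contra hcon
  push Not at hcon
  apply hf
  apply eM_inj
  rw [map_zero]
  apply Subtype.ext
  funext z
  exact hcon z

theorem evM {𝓕 : Filter ℝ} {p : ℂ → Prop} :
    (∀ᶠ z in Filter.comap (fun z : ℂ => ‖z‖) 𝓕, p z) ↔
      ∀ᶠ s in 𝓕, ∀ z : ℂ, ‖z‖ = s → p z := Filter.eventually_comap

theorem fm_good {N : ℝ → ℝ} {hN : Nc N} {𝓕 : Filter ℝ} (hF : FN N 𝓕) (f : RM N hN) (hf : f ≠ 0) :
    ∀ᶠ s in 𝓕, Good (TN N) (fm f) s := hF.le (FF_good (fm_diff f) (fm_ne f hf) (BG.tn hN (eM_bg f)))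

theorem smtM {N : ℝ → ℝ} (hN : Nc N) {𝓕 : Filter ℝ} (hF : FN N 𝓕) (m : ℕ) (κ : Type) [Finite κ] (B : κ → Fin m → RM N hN)
    (hli : ∀ c, LinearIndependent ℂ (B c))
    (hspan : ∀ c c', Submodule.span ℂ (Set.range (B c)) = Submodule.span ℂ (Set.range (B c')))
    (s : ℂ → κ) (ε : ℝ) (hε : 0 < ε) :
    ∀ᶠ r in 𝓕, UA (fun z => -∑ a, Real.log ‖fm (B (s z) a) z‖) r (ε * N r) := by
  classical
  have := Fintype.ofFinite κ
  let c0 : κ := s 0
  -- coordinates
  have hcd := fun c => exists_coords (B c0) (B c) (hli c0) (hspan c0 c)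
  choose M hM hdet using hcd
  let E : κ → Fin m → Ent := fun c a => eM N hN (B c a)
  have hEli : ∀ c, ∀ b : Fin m → ℂ, ∑ i, b i • E c i = 0 → b = 0 := by
    intro c b hb
    have h1 : eM N hN (∑ i, b i • B c i) = 0 := by
      rw [map_sum, ← hb]
      refine Finset.sum_congr rfl fun i _ => ?_
      exact map_smul (eM N hN) _ _
    have h2 : ∑ i, b i • B c i = 0 := eM_inj (by rw [h1, map_zero])
    funext i
    exact Fintype.linearIndependent_iff.1 (hli c) b h2 i
  have hWlin : ∀ c, Wr (E c) = algebraMap ℂ Ent (Matrix.of fun a j => M c a j).det * Wr (E c0) := by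
    intro c
    refine Wr_lin (E c0) (E c) (M c) fun a => ?_
    show eM N hN (B c a) = _
    rw [← hM c a, map_sum]
    refine Finset.sum_congr rfl fun j _ => ?_
    exact map_smul (eM N hN) _ _
  have hW0 : Wr (E c0) ≠ 0 := Wr_ne _ (hEli c0)
  obtain ⟨x0, hx0⟩ : ∃ x, (Wr (E c0) : ℂ → ℂ) x ≠ 0 := by
    by_contra hcon
    push Not at hcon
    exact hW0 (Subtype.ext (funext hcon))
  let Dm : ℝ := ∑ c, |Real.log ‖(Matrix.of fun a j => M c a j).det‖|
  let C0 : ℝ := Real.log m.factorial + m * (Real.log m.factorial + 2) + Dm -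
    L (Wr (E c0) : ℂ → ℂ) 1
  have hgood : ∀ᶠ r in 𝓕, ∀ c a, Good (TN N) (fm (B c a)) r :=
    (Filter.eventually_all).2 fun c => (Filter.eventually_all).2 fun a =>
      fm_good hF _ ((hli c).ne_zero a)
  filter_upwards [hgood, hF.ge 1, hF.logT hN C0 (m * (10 * m)) ε hε] with r h1 h2 h3
  have hr0 : 0 < r := by linarith
  let C1 : ℝ := Real.log m.factorial + m * (Real.log m.factorial + 10 * m * Real.log (TN N r) + 2) + Dm
  have hci : CircleIntegrable (fun z => Real.log ‖(Wr (E c0) : ℂ → ℂ) z‖) 0 r :=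
    ci_log (mero_of_diff (Wr (E c0)).2) r
  refine ⟨fun z => C1 - Real.log ‖(Wr (E c0) : ℂ → ℂ) z‖, (circleIntegrable_const _ _ _).sub hci,
    ?_, ?_⟩
  · filter_upwards [ne_cod (Wr (E c0)).2 hx0 r, self_mem_codiscreteWithin (sphere (0 : ℂ) |r|)]
      with z hz1 hz2
    rw [mem_sphere, dist_zero_right, abs_of_pos hr0] at hz2
    have h4 : (Wr (E (s z)) : ℂ → ℂ) z =
        (Matrix.of fun a j => M (s z) a j).det * (Wr (E c0) : ℂ → ℂ) z := by
      rw [hWlin (s z)]
      rfl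
    have h5 : (Wr (E (s z)) : ℂ → ℂ) z ≠ 0 := by
      rw [h4]
      exact mul_ne_zero (hdet _) hz1
    have h6 := Wr_le hN.sc (E (s z)) h2 (fun a => h1 (s z) a) z hz2 h5
    rw [h4, norm_mul, Real.log_mul (norm_ne_zero_iff.2 (hdet _)) (norm_ne_zero_iff.2 hz1)] at h6
    have h7 : -|Real.log ‖(Matrix.of fun a j => M (s z) a j).det‖| ≤
        Real.log ‖(Matrix.of fun a j => M (s z) a j).det‖ := neg_abs_le _
    have h8 : |Real.log ‖(Matrix.of fun a j => M (s z) a j).det‖| ≤ Dm :=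
      Finset.single_le_sum (f := fun c => |Real.log ‖(Matrix.of fun a j => M c a j).det‖|)
        (fun _ _ => abs_nonneg _) (Finset.mem_univ (s z))
    have h9 : ∑ a, Real.log ‖(E (s z) a : ℂ → ℂ) z‖ = ∑ a, Real.log ‖fm (B (s z) a) z‖ := rfl
    rw [h9] at h6
    simp only [C1]
    linarith
  · rw [Real.circleAverage_fun_sub (circleIntegrable_const _ _ _) hci, Real.circleAverage_const]
    have h4 : L (Wr (E c0) : ℂ → ℂ) 1 ≤ L (Wr (E c0) : ℂ → ℂ) r :=
      L_mono (Wr (E c0)).2 one_pos h2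
    have h5 : Real.circleAverage (fun z => Real.log ‖(Wr (E c0) : ℂ → ℂ) z‖) 0 r =
        L (Wr (E c0) : ℂ → ℂ) r := rfl
    rw [h5]
    simp only [C1]
    simp only [C0] at h3
    nlinarith

theorem log_inv_unit {N : ℝ → ℝ} {hN : Nc N} (u : (RM N hN)ˣ) (z : ℂ) :
    fm (u : RM N hN) z ≠ 0 ∧
      Real.log ‖fm ((u⁻¹ : (RM N hN)ˣ) : RM N hN) z‖ = -Real.log ‖fm (u : RM N hN) z‖ := by
  have h1 : fm (u : RM N hN) z * fm ((u⁻¹ : (RM N hN)ˣ) : RM N hN) z = 1 := by
    rw [← fm_mul, Units.mul_inv, fm_one]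
  have h2 : fm (u : RM N hN) z ≠ 0 := left_ne_zero_of_mul_eq_one h1
  refine ⟨h2, ?_⟩
  have h3 : fm ((u⁻¹ : (RM N hN)ˣ) : RM N hN) z = (fm (u : RM N hN) z)⁻¹ :=
    eq_inv_of_mul_eq_one_right h1
  rw [h3, norm_inv, Real.log_inv]

/-- the analytic instance -/
noncomputable def DcM {N : ℝ → ℝ} (hN : Nc N) {𝓕 : Filter ℝ} (hF : FN N 𝓕) : Dc ℂ (RM N hN) where
  Ω := ℂ
  ev := Filter.comap (fun z : ℂ => ‖z‖) 𝓕
  A f z := ‖fm f z‖
  Neg f := ∀ ε : ℝ, 0 < ε → ∀ᶠ s in 𝓕, UA f s (ε * N s)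
  one z := N ‖z‖
  A_zero := Filter.Eventually.of_forall fun z => by rw [fm_zero, norm_zero]
  A_pos f hf := by
    rw [evM]
    filter_upwards [fm_good hF f hf, hF.ge 1] with s h1 h2 z hz
    exact norm_pos_iff.2 (h1.ne hN.sc h2 z hz)
  A_mul f g := Filter.Eventually.of_forall fun z => by rw [fm_mul, norm_mul]
  A_add f g := Filter.Eventually.of_forall fun z => by rw [fm_add]; exact norm_add_le _ _
  A_const c := ⟨‖c‖, Filter.Eventually.of_forall fun z => le_refl _⟩
  neg_mono f g h hf ε hε := by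
    filter_upwards [evM.1 h, hf ε hε, hF.ge 1] with s h1 h2 h3
    exact h2.mono (by linarith) h1 (le_refl _)
  neg_add f g hf hg ε hε := by
    filter_upwards [hf (ε / 2) (by positivity), hg (ε / 2) (by positivity),
      hF.ge 1] with s h1 h2 h3
    exact (h1.add h2).mono (by linarith) (fun z _ => le_refl _) (by linarith)
  neg_smul f c hc hf ε hε := by
    filter_upwards [hf (ε / (c + 1)) (by positivity), hF.ge 1] with s h1 h2
    refine (h1.smul c hc).mono (by linarith) (fun z _ => le_refl _) ?_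
    have h3 := hN.one_le _ h2
    have h4 : c * (ε / (c + 1)) ≤ ε := by
      rw [← mul_div_assoc, div_le_iff₀ (by positivity)]
      nlinarith
    calc c * (ε / (c + 1) * N s) = c * (ε / (c + 1)) * N s := by ring
      _ ≤ ε * N s := mul_le_mul_of_nonneg_right h4 (by linarith)
  neg_const c ε hε := by
    filter_upwards [hF.big (c / ε), hF.ge 1] with s h1 h2
    rw [div_le_iff₀ hε] at h1
    exact (UA.const c s).mono (by linarith) (fun z _ => le_refl _) (by linarith)
  one_nonneg := by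
    rw [evM]
    filter_upwards [hF.ge 1] with s h z hz
    rw [hz]
    have := hN.one_le _ h
    linarith
  arch f h ε hε := by
    filter_upwards [h (ε / 2) (by positivity) (ε / 2) (by positivity),
      hF.ge 1] with s h1 h2
    refine (h1.add (UA.const (ε / 2 * N s) s)).mono (by linarith) (fun z hz => ?_) (by linarith)
    rw [hz]
    linarith
  bdd u := by
    obtain ⟨C1, h1⟩ := eM_bg (u : RM N hN)
    obtain ⟨C2, h2⟩ := eM_bg ((u⁻¹ : (RM N hN)ˣ) : RM N hN)
    refine ⟨|C1| + |C2|, by positivity, fun ε hε => ?_⟩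
    filter_upwards [hF.ge 1] with s hs
    have hTs := hN.one_le _ hs
    have i1 := ci_posLog (mero_of_diff (fm_diff (u : RM N hN))) s
    have i2 := ci_posLog (mero_of_diff (fm_diff ((u⁻¹ : (RM N hN)ˣ) : RM N hN))) s
    refine ⟨fun z => (Real.posLog ‖fm (u : RM N hN) z‖ +
      Real.posLog ‖fm ((u⁻¹ : (RM N hN)ˣ) : RM N hN) z‖) - (|C1| + |C2|) * N s,
      (i1.add i2).sub (circleIntegrable_const _ _ _), ?_, ?_⟩
    · refine cod_of_all (by linarith) fun z hz => ?_
      have h3 := (log_inv_unit u z).2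
      have h4 : |Real.log ‖fm (u : RM N hN) z‖| ≤ Real.posLog ‖fm (u : RM N hN) z‖ +
          Real.posLog ‖fm ((u⁻¹ : (RM N hN)ˣ) : RM N hN) z‖ := by
        rw [Real.posLog_apply, Real.posLog_apply, h3]
        rcases abs_cases (Real.log ‖fm (u : RM N hN) z‖) with ⟨h5, _⟩ | ⟨h5, _⟩
        · rw [h5]
          have := le_max_right 0 (Real.log ‖fm (u : RM N hN) z‖)
          have := le_max_left 0 (-Real.log ‖fm (u : RM N hN) z‖)
          linarith
        · rw [h5]
          have := le_max_left 0 (Real.log ‖fm (u : RM N hN) z‖)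
          have := le_max_right 0 (-Real.log ‖fm (u : RM N hN) z‖)
          linarith
      show |Real.log ‖fm (u : RM N hN) z‖| - (|C1| + |C2|) * N ‖z‖ ≤ _
      rw [hz]
      exact sub_le_sub_right h4 _
    · have i12 : CircleIntegrable (fun z => Real.posLog ‖fm (u : RM N hN) z‖ +
        Real.posLog ‖fm ((u⁻¹ : (RM N hN)ˣ) : RM N hN) z‖) 0 s := i1.add i2
      rw [Real.circleAverage_fun_sub i12 (circleIntegrable_const _ _ _),
        Real.circleAverage_fun_add i1 i2, Real.circleAverage_const]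
      have h3 : Real.circleAverage (fun z => Real.posLog ‖fm (u : RM N hN) z‖) 0 s ≤ C1 * N s :=
        h1 s hs
      have h4 : Real.circleAverage (fun z =>
          Real.posLog ‖fm ((u⁻¹ : (RM N hN)ˣ) : RM N hN) z‖) 0 s ≤ C2 * N s := h2 s hs
      have h5 : C1 * N s ≤ |C1| * N s := mul_le_mul_of_nonneg_right (le_abs_self _) (by linarith)
      have h6 : C2 * N s ≤ |C2| * N s := mul_le_mul_of_nonneg_right (le_abs_self _) (by linarith)
      have h7 : 0 ≤ ε * N s := by positivity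
      linarith
  unit_neg u ε hε := by
    have hL : ∀ s, L (fm ((u⁻¹ : (RM N hN)ˣ) : RM N hN)) s = -L (fm (u : RM N hN)) s := by
      intro s
      unfold L
      have h1 : (fun z => Real.log ‖fm ((u⁻¹ : (RM N hN)ˣ) : RM N hN) z‖) =
          fun z => (-1 : ℝ) • Real.log ‖fm (u : RM N hN) z‖ := by
        funext z
        rw [(log_inv_unit u z).2, smul_eq_mul, neg_one_mul]
      rw [h1, Real.circleAverage_fun_smul, smul_eq_mul, neg_one_mul]
    filter_upwards [hF.ge 1,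
      hF.big ((L (fm (u : RM N hN)) 1) / ε)] with s hs hb
    rw [div_le_iff₀ hε] at hb
    refine ⟨fun z => Real.log ‖fm (u : RM N hN) z‖, ci_log (mero_of_diff (fm_diff _)) s,
      Filter.Eventually.of_forall fun z => le_refl _, ?_⟩
    have h1 : L (fm ((u⁻¹ : (RM N hN)ˣ) : RM N hN)) 1 ≤ L (fm ((u⁻¹ : (RM N hN)ˣ) : RM N hN)) s :=
      L_mono (fm_diff _) one_pos hs
    rw [hL, hL] at h1
    have h2 : Real.circleAverage (fun z => Real.log ‖fm (u : RM N hN) z‖) 0 s =
        L (fm (u : RM N hN)) s := rfl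
    rw [h2]
    linarith
  smt m κ _ B hli hspan s ε hε := smtM hN hF m κ B hli hspan s ε hε

theorem not_neg_oneM {N : ℝ → ℝ} (hN : Nc N) {𝓕 : Filter ℝ} (hF : FN N 𝓕) (hne : 𝓕.NeBot) :
    ¬ (DcM hN hF).Neg (DcM hN hF).one := by
  intro h
  have h1 : ∀ᶠ s in 𝓕, UA (fun z => N ‖z‖) s (1 / 2 * N s) := h (1 / 2) (by norm_num)
  obtain ⟨s, ⟨k, h2, h3, h4⟩, hs⟩ := (h1.and (hF.ge 1)).exists
  have h5 := hN.one_le _ hs
  have h6 : Real.circleAverage (fun _ : ℂ => N s) 0 s ≤ Real.circleAverage k 0 s := by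
    refine avg_le_cod (circleIntegrable_const _ _ _) h2 (by linarith) ?_
    filter_upwards [h3, self_mem_codiscreteWithin (sphere (0 : ℂ) |s|)] with z hz1 hz2
    rw [mem_sphere, dist_zero_right, abs_of_pos (by linarith)] at hz2
    rwa [hz2] at hz1
  rw [Real.circleAverage_const] at h6
  linarith


end Pool.Agent.N754.MT
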