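import Mathlib
import Pool.Agent.N754.LT.AnF
import Pool.Agent.W602.NC.Wr

/-!
Growth of entire functions: the lemma of Borel, good radii near a given radius, and the lower bound
for nonconstant functions.
-/

set_option autoImplicit false
set_option linter.unusedSectionVars false

open Finset Filter Metric

namespace Pool.Agent.N754.MT

open Pool.Agent.H159R3.NV Pool.Agent.W602.NC
open Pool.Agent.N754.LT

/-- the lemma of Borel -/
theorem borel_bad (H : ℝ → ℝ) (h1 : ∀ s, 1 ≤ s → 1 ≤ H s)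
    (hm : ∀ r s, 1 ≤ r → r ≤ s → H r ≤ H s) :
    MeasureTheory.volume {s : ℝ | 1 ≤ s ∧ 2 * H s < H (s + 1 / H s)} < ⊤ := by
  let E : ℕ → Set ℝ := fun k => {s : ℝ | (1 ≤ s ∧ 2 * H s < H (s + 1 / H s)) ∧
    2 ^ k ≤ H s ∧ H s < 2 ^ (k + 1)}
  have hsub : {s : ℝ | 1 ≤ s ∧ 2 * H s < H (s + 1 / H s)} ⊆ ⋃ k, E k := by
    intro s hs
    have h2 : (1 : ℝ) ≤ H s := h1 s hs.1
    obtain ⟨k, hk1, hk2⟩ := exists_nat_pow_near h2 (one_lt_two)
    exact Set.mem_iUnion.2 ⟨k, hs, hk1, hk2⟩
  have hdiam : ∀ k, Metric.ediam (E k) ≤ ENNReal.ofReal ((1 / 2) ^ k) := by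
    intro k
    refine Metric.ediam_le fun x hx y hy => ?_
    have key : ∀ x ∈ E k, ∀ y ∈ E k, x ≤ y → y - x ≤ (1 / 2) ^ k := by
      intro x hx y hy hxy
      obtain ⟨⟨hx1, hx2⟩, hx3, hx4⟩ := hx
      obtain ⟨⟨hy1, hy2⟩, hy3, hy4⟩ := hy
      have hpos : (0 : ℝ) < 2 ^ k := by positivity
      have hH : 0 < H x := lt_of_lt_of_le hpos hx3
      by_contra hcon
      push Not at hcon
      have h5 : 1 / H x ≤ (1 / 2) ^ k := by
        rw [one_div_pow]
        exact one_div_le_one_div_of_le hpos hx3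
      have h6 : H (x + 1 / H x) ≤ H y := by
        refine hm _ _ ?_ (by linarith)
        have : 0 < 1 / H x := by positivity
        linarith
      have h7 : (2 : ℝ) ^ (k + 1) = 2 * 2 ^ k := by ring
      rw [h7] at hy4
      linarith
    rw [edist_dist, Real.dist_eq]
    refine ENNReal.ofReal_le_ofReal ?_
    rcases le_total x y with h | h
    · rw [abs_sub_comm, abs_of_nonneg (by linarith)]
      exact key x hx y hy h
    · rw [abs_of_nonneg (by linarith)]
      exact key y hy x hx h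
  refine (MeasureTheory.measure_mono hsub).trans_lt ?_
  refine (MeasureTheory.measure_iUnion_le E).trans_lt ?_
  have h3 : ∑' k, MeasureTheory.volume (E k) ≤ ∑' k : ℕ, ENNReal.ofReal ((1 / 2 : ℝ) ^ k) :=
    ENNReal.tsum_le_tsum fun k => (Real.volume_le_diam (E k)).trans (hdiam k)
  refine h3.trans_lt ?_
  rw [← ENNReal.ofReal_tsum_of_nonneg (fun k => by positivity)
    (summable_geometric_of_lt_one (by norm_num) (by norm_num))]
  exact ENNReal.ofReal_lt_top

/-- good radii near a given radius -/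
theorem exists_good_near {T : ℝ → ℝ} (hT : Sc T) {p : ℕ} (f : Fin p → ℂ → ℂ)
    (hf : ∀ j, Differentiable ℂ (f j)) (h0 : ∀ j, ∃ z, f j z ≠ 0) (hg : ∀ j, BG T (f j)) :
    ∃ R1 : ℝ, 1 ≤ R1 ∧ ∀ r, R1 ≤ r → T (r + 1 / T r) ≤ 2 * T r →
      ∃ s, r ≤ s ∧ s ≤ r + 1 / T r ∧ ∀ j, Good T (f j) s := by
  classical
  choose k g hgd hg0 hfg using fun j => zero_div (f j) (hf j) (h0 j)
  choose C hC using hg
  let v : Fin (p + 1) → ℂ → ℂ := Fin.cons (fun _ => 1) g
  have hv0 : v 0 = fun _ => 1 := rfl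
  have hvs : ∀ j : Fin p, v j.succ = g j := fun j => by simp [v]
  let Λ : ℝ := ∑ j, |Real.log ‖v j 0‖|
  have hbase : Base v Λ :=
    { hv := fun j => by
        refine Fin.cases ?_ (fun j => ?_) j
        · rw [hv0]; exact differentiable_const _
        · rw [hvs]; exact hgd j
      hv0 := fun j => by
        refine Fin.cases ?_ (fun j => ?_) j
        · rw [hv0]; exact one_ne_zero
        · rw [hvs]; exact hg0 j
      hΛ0 := Finset.sum_nonneg fun _ _ => abs_nonneg _
      hΛ := fun j => Finset.single_le_sum (f := fun j => |Real.log ‖v j 0‖|)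
        (fun _ _ => abs_nonneg _) (Finset.mem_univ j) }
  have hΛ0 : 0 ≤ Λ := hbase.hΛ0
  -- growth of the quotients
  have hgm : ∀ j s, 1 ≤ s → mm (g j) s ≤ |C j| * T s := by
    intro j s hs
    have hTs := hT.one_le hs
    have h1 : mm (g j) s ≤ mm (f j) s := by
      refine Real.circleAverage_mono (ci_posLog (mero_of_diff (hgd j)) s)
        (ci_posLog (mero_of_diff (hf j)) s) fun z hz => ?_
      have hzs : ‖z‖ = s := by
        rw [mem_sphere, dist_zero_right, abs_of_pos (by linarith)] at hz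
        exact hz
      refine Real.posLog_le_posLog (norm_nonneg _) ?_
      rw [hfg, norm_mul, norm_pow, hzs]
      exact le_mul_of_one_le_left (norm_nonneg _) (one_le_pow₀ hs)
    refine (h1.trans (hC j s hs)).trans ?_
    exact mul_le_mul_of_nonneg_right (le_abs_self _) (by linarith)
  let A : ℝ := (∑ j, |C j|) + (p + 1) * Λ
  have hA0 : 0 ≤ A := add_nonneg (Finset.sum_nonneg fun _ _ => abs_nonneg _) (by positivity)
  have hSS : ∀ s, 1 ≤ s → SS v Λ s ≤ A * T s := by
    intro s hs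
    have hTs := hT.one_le hs
    have h1 : SS v Λ s = ∑ j, (mm (v j) s + Λ) := by
      unfold SS
      refine Finset.sum_congr rfl fun j _ => ?_
      rw [hv0, T2_one]
    rw [h1, Finset.sum_add_distrib, Finset.sum_const, Finset.card_univ, Fintype.card_fin,
      nsmul_eq_mul, Fin.sum_univ_succ]
    have h2 : mm (v 0) s = 0 := by
      rw [hv0]
      unfold mm
      have h3 : (fun z : ℂ => Real.posLog ‖(fun _ : ℂ => (1 : ℂ)) z‖) = fun _ => (0 : ℝ) := by
        funext z
        simp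
      rw [h3, Real.circleAverage_const]
    rw [h2, zero_add]
    have h3 : ∑ j : Fin p, mm (v j.succ) s ≤ (∑ j, |C j|) * T s := by
      rw [Finset.sum_mul]
      refine Finset.sum_le_sum fun j _ => ?_
      rw [hvs]
      exact hgm j s hs
    have h4 : ((p + 1 : ℕ) : ℝ) * Λ ≤ (p + 1) * Λ * T s := by
      push_cast
      exact le_mul_of_one_le_right (by positivity) hTs
    have h5 : A * T s = (∑ j, |C j|) * T s + (p + 1) * Λ * T s := by
      simp only [A]
      ring
    rw [h5]
    linarith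
  -- the radius
  let C' : ℝ := 2000 * 8 * (2 * A + 1) ^ 2 * 256
  have hC'0 : 0 ≤ C' := by positivity
  let k' : ℝ := ∑ j, (k j : ℝ)
  have hk'0 : 0 ≤ k' := Finset.sum_nonneg fun _ _ => Nat.cast_nonneg _
  refine ⟨C' + k' + 2, by linarith, fun r hr hgr => ?_⟩
  have hr1 : 1 ≤ r := by linarith
  have hTr : 1 ≤ T r := hT.one_le hr1
  have hδ : 0 < 1 / (4 * T r) := by positivity
  have hδ1 : 1 / (4 * T r) ≤ 1 := by
    rw [div_le_one (by positivity)]
    linarith
  obtain ⟨s, ε, hrs, hsr, hε, hε1, hεb, hne, hosc⟩ := hbase.good hr1 hδ hδ1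
  have hs1 : 1 ≤ s := by linarith
  have hTs : T r ≤ T s := hT.mono _ _ hr1 hrs
  have hTs1 : 1 ≤ T s := hTr.trans hTs
  have hr4 : r + 4 * (1 / (4 * T r)) = r + 1 / T r := by
    field_simp
  have hρ : 1 ≤ r + 1 / T r := by
    have : 0 < 1 / T r := by positivity
    linarith
  have hTρ : T (r + 1 / T r) ≤ 2 * T s := by linarith
  have hρT : r + 1 / T r ≤ 2 * T s := by
    have := hT.le _ hρ
    linarith
  have hSρ : SS v Λ (r + 1 / T r) ≤ 2 * A * T s := by
    refine (hSS _ hρ).trans ?_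
    nlinarith
  have hSρ0 : 0 ≤ SS v Λ (r + 1 / T r) := hbase.SS_nonneg (by linarith)
  have hεT : 1 / ε ≤ T s ^ 10 := by
    refine hεb.trans ?_
    rw [hr4]
    have h1 : (r + 1 / T r) ^ 3 ≤ (2 * T s) ^ 3 := pow_le_pow_left₀ (by linarith) hρT 3
    have h2 : (SS v Λ (r + 1 / T r) + 1) ^ 2 ≤ ((2 * A + 1) * T s) ^ 2 := by
      refine pow_le_pow_left₀ (by linarith) ?_ 2
      nlinarith
    have h3 : 1 / (1 / (4 * T r)) ^ 4 ≤ (4 * T s) ^ 4 := by
      have h4 : 1 / (1 / (4 * T r)) ^ 4 = (4 * T r) ^ 4 := by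
        rw [one_div, one_div, inv_pow, inv_inv]
      rw [h4]
      exact pow_le_pow_left₀ (by linarith) (by linarith) 4
    have hTs0 : 0 ≤ T s := by linarith
    have h0 : 0 ≤ (r + 1 / T r) ^ 3 := by
      apply pow_nonneg
      linarith
    calc 2 * (1000 * (r + 1 / T r) ^ 3 * (SS v Λ (r + 1 / T r) + 1) ^ 2 / (1 / (4 * T r)) ^ 4)
        = 2 * (1000 * (r + 1 / T r) ^ 3 * (SS v Λ (r + 1 / T r) + 1) ^ 2 *
          (1 / (1 / (4 * T r)) ^ 4)) := by ring
      _ ≤ 2 * (1000 * (2 * T s) ^ 3 * ((2 * A + 1) * T s) ^ 2 * (4 * T s) ^ 4) := by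
        gcongr
      _ = C' * T s ^ 9 := by
        simp only [C']
        ring
      _ ≤ T s * T s ^ 9 := by
        refine mul_le_mul_of_nonneg_right ?_ (by positivity)
        have := hT.le s hs1
        linarith
      _ = T s ^ 10 := by ring
  refine ⟨s, hrs, ?_, fun j => ?_⟩
  · refine hsr.trans ?_
    have h1 : 1 / (4 * T r) ≤ 1 / T r :=
      one_div_le_one_div_of_le (by linarith) (by linarith)
    linarith
  intro z hz w hw
  set ε0 : ℝ := ((T s) ^ 10)⁻¹ with hε0
  have hε0ε : ε0 ≤ ε := by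
    rw [hε0]
    rw [one_div] at hεT
    exact inv_le_of_inv_le₀ hε hεT
  have hε01 : ε0 ≤ 1 := hε0ε.trans hε1
  have hε00 : 0 < ε0 := by positivity
  have hw2 : w ∈ closedBall z ε := closedBall_subset_closedBall hε0ε hw
  have hgw : g j w ≠ 0 := by
    have := hne z hz j.succ w hw2
    rwa [hvs] at this
  have hgo : ‖g j w‖ ≤ Real.exp 1 * ‖g j z‖ := by
    have := hosc z hz 0 j.succ w hw2
    rw [hvs, hv0] at this
    simpa using this
  rw [mem_closedBall, dist_eq_norm] at hw
  have hs2 : 2 ≤ s := by linarith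
  have hwn : ‖w‖ ≤ s + 1 := by
    calc ‖w‖ = ‖z + (w - z)‖ := by congr 1; ring
      _ ≤ ‖z‖ + ‖w - z‖ := norm_add_le _ _
      _ ≤ s + 1 := by rw [hz]; linarith
  have hw0 : w ≠ 0 := by
    intro h
    rw [h, zero_sub, norm_neg, hz] at hw
    linarith
  rw [hfg, hfg]
  refine ⟨mul_ne_zero (pow_ne_zero _ hw0) hgw, ?_⟩
  rw [norm_mul, norm_mul, norm_pow, norm_pow, hz]
  have hkj : (k j : ℝ) ≤ s := by
    have h1 : (k j : ℝ) ≤ k' := Finset.single_le_sum (f := fun j => (k j : ℝ))
      (fun _ _ => Nat.cast_nonneg _) (Finset.mem_univ j)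
    linarith
  have hpow : ‖w‖ ^ k j ≤ s ^ k j * Real.exp 1 := by
    have h1 : ‖w‖ ≤ s * (1 + 1 / s) := by
      have : s * (1 + 1 / s) = s + 1 := by
        field_simp
      rw [this]
      exact hwn
    calc ‖w‖ ^ k j ≤ (s * (1 + 1 / s)) ^ k j := pow_le_pow_left₀ (norm_nonneg _) h1 _
      _ = s ^ k j * (1 + 1 / s) ^ k j := mul_pow _ _ _
      _ ≤ s ^ k j * Real.exp 1 := by
        refine mul_le_mul_of_nonneg_left ?_ (by positivity)
        have h2 : 1 + 1 / s ≤ Real.exp (1 / s) := by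
          have := Real.add_one_le_exp (1 / s)
          linarith
        refine (pow_le_pow_left₀ (by positivity) h2 _).trans ?_
        rw [← Real.exp_nat_mul]
        refine Real.exp_le_exp.2 ?_
        rw [mul_one_div, div_le_one (by linarith)]
        exact hkj
  calc ‖w‖ ^ k j * ‖g j w‖ ≤ (s ^ k j * Real.exp 1) * (Real.exp 1 * ‖g j z‖) := by
        gcongr
    _ = Real.exp 2 * (s ^ k j * ‖g j z‖) := by
        have : Real.exp 2 = Real.exp 1 * Real.exp 1 := by
          rw [← Real.exp_add]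
          norm_num
        rw [this]
        ring

theorem mm_const (c : ℂ) (s : ℝ) : mm (fun _ => c) s = Real.posLog ‖c‖ :=
  Real.circleAverage_const (Real.posLog ‖c‖) (0 : ℂ) s

theorem mm_add {f g : ℂ → ℂ} (hf : Differentiable ℂ f) (hg : Differentiable ℂ g) (s : ℝ) :
    mm (fun z => f z + g z) s ≤ mm f s + mm g s + Real.log 2 := by
  unfold mm
  have i1 := ci_posLog (mero_of_diff hf) s
  have i2 := ci_posLog (mero_of_diff hg) s
  have i3 : CircleIntegrable (fun _ : ℂ => Real.log 2) 0 s := circleIntegrable_const _ _ _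
  have h3 := Real.circleAverage_const (Real.log 2) (0 : ℂ) s
  have i12 : CircleIntegrable (fun z => Real.posLog ‖f z‖ + Real.posLog ‖g z‖) 0 s := i1.add i2
  rw [← Real.circleAverage_fun_add i1 i2]
  conv_rhs => rw [← h3]
  rw [← Real.circleAverage_fun_add i12 i3]
  refine Real.circleAverage_mono (ci_posLog (mero_of_diff (hf.add hg)) s)
    ((i1.add i2).add i3) fun z _ => ?_
  have h4 : Real.posLog ‖f z + g z‖ ≤ Real.posLog (‖f z‖ + ‖g z‖) :=
    Real.posLog_le_posLog (norm_nonneg _) (norm_add_le _ _)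
  have h5 := Real.posLog_add (x := ‖f z‖) (y := ‖g z‖)
  show _ ≤ Real.posLog ‖f z‖ + Real.posLog ‖g z‖ + Real.log 2
  linarith

/-- the lower bound for nonconstant entire functions -/
theorem mm_lower {f : ℂ → ℂ} (hf : Differentiable ℂ f) (hnc : ∃ z w, f z ≠ f w) :
    ∃ C : ℝ, ∀ s, 1 ≤ s → Real.log s ≤ mm f s + C := by
  have hg : Differentiable ℂ (fun z => f z + (-f 0)) := hf.add_const _
  have hg0 : ∃ z, f z + (-f 0) ≠ 0 := by
    by_contra hcon
    push Not at hcon
    obtain ⟨z, w, hzw⟩ := hnc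
    apply hzw
    have h1 := hcon z
    have h2 := hcon w
    linear_combination h1 - h2
  obtain ⟨k, h, hh, hh0, hfac⟩ := zero_div _ hg hg0
  have hk : 1 ≤ k := by
    by_contra hk
    have hk0 : k = 0 := by omega
    have h1 := hfac 0
    rw [hk0, pow_zero, one_mul, add_neg_cancel] at h1
    exact hh0 h1.symm
  refine ⟨Real.posLog ‖-f 0‖ + Real.log 2 - Real.log ‖h 0‖, fun s hs => ?_⟩
  have hs0 : 0 < s := by linarith
  have h1 : L (fun z => f z + (-f 0)) s = k * Real.log s + L h s := by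
    have h2 : (fun z => f z + (-f 0)) = fun z => (fun z => z ^ k) z * h z := funext hfac
    have h3 : L (fun z : ℂ => z ^ k) s = k * Real.log s := by
      have h4 := L_pow (f := fun z : ℂ => z) k s
      rw [h4]
      congr 1
      have h5 := L_lin (a := 0) hs0 (by rw [norm_zero]; exact hs0.le)
      simpa using h5
    have hd : Differentiable ℂ (fun z : ℂ => z ^ k) := by fun_prop
    rw [h2, L_mul hd hh (x := 1) (y := 0) (by simp) hh0 hs0.ne', h3]
  have h2 := jensen_entire hs0 hh hh0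
  have h3 : L (fun z => f z + (-f 0)) s ≤ mm (fun z => f z + (-f 0)) s := by
    refine Real.circleAverage_mono (ci_log (mero_of_diff hg) s) (ci_posLog (mero_of_diff hg) s)
      fun z _ => log_le_posLog _
  have h4 := mm_add hf (differentiable_const (-f 0)) s
  rw [mm_const] at h4
  have h5 : Real.log s ≤ k * Real.log s := by
    have h6 : 0 ≤ Real.log s := Real.log_nonneg hs
    have h7 : (1 : ℝ) ≤ k := by exact_mod_cast hk
    nlinarith
  linarith

end Pool.Agent.N754.MT
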