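import Mathlib
import Pool.Agent.N754.MT.Main
import Pool.Agent.N754.MT.Trans
import Pool.Agent.N754.MT.AnD
import Pool.Agent.N754.MT.Gr
import Pool.Agent.N754.MT.Ari
import Pool.Agent.N754.LT.Fin

/-!
The analytic half: growth of entire curves compared with some of their coordinates.
-/

set_option autoImplicit false
set_option linter.unusedSectionVars false

open Finset MvPolynomial Filter Metric

namespace Pool.Agent.N754.MT

open NumberField IsDedekindDomain
open Pool.Agent.Y742.SF Pool.Agent.Y742.AR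
open Pool.Agent.W235.RM Pool.Agent.H159R3.Exp Pool.Agent.H159R3.NV Pool.Agent.W602.NC
open Pool.Agent.N754.LT
open Real (posLog)

theorem UA.of_eq {f : ℂ → ℝ} {s c : ℝ} (hs : 0 < s) (h : CircleIntegrable f 0 s)
    (hc : Real.circleAverage f 0 s ≤ c) : UA f s c :=
  ⟨f, h, cod_of_all hs fun _ _ => le_refl _, hc⟩

theorem szdM {N : ℝ → ℝ} (hN : Nc N) {𝓕 : Filter ℝ} (hF : FN N 𝓕) : Szd (DcM hN hF) := by
  intro x
  obtain ⟨C, hC⟩ := eM_bg x
  refine ⟨|C|, abs_nonneg _, fun ε hε => ?_⟩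
  filter_upwards [hF.ge 1] with s hs
  have hN1 := hN.one_le s hs
  have i1 := ci_posLog (mero_of_diff (fm_diff x)) s
  refine ⟨fun z => posLog ‖fm x z‖ - |C| * N s, i1.sub (circleIntegrable_const _ _ _), ?_, ?_⟩
  · refine cod_of_all (by linarith) fun z hz => ?_
    show max (Real.log ‖fm x z‖) 0 - |C| * N ‖z‖ ≤ _
    rw [posLog_eq, hz]
  · rw [Real.circleAverage_fun_sub i1 (circleIntegrable_const _ _ _), Real.circleAverage_const]
    have h3 : Real.circleAverage (fun z => posLog ‖fm x z‖) 0 s ≤ C * N s := hC s hs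
    have h5 : C * N s ≤ |C| * N s := mul_le_mul_of_nonneg_right (le_abs_self _) (by linarith)
    have h7 : 0 ≤ ε * N s := by positivity
    linarith

/-- many radii with large growth give an admissible filter -/
theorem exists_filter {n : ℕ} (A : Finset (Fin n)) (f : Fin n → ℂ → ℂ)
    (hf : ∀ j, Differentiable ℂ (f j))
    (hbad : ∀ m : ℕ, MeasureTheory.volume {r : ℝ | 1 ≤ r ∧
      ∃ j, (m : ℝ) * (1 + ∑ i ∈ A, mm (f i) r + Real.log r) < mm (f j) r} = ⊤) :
    ∃ 𝓕 : Filter ℝ, 𝓕.NeBot ∧ FN (fun s => 1 + ∑ j, mm (f j) s) 𝓕 ∧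
      ∀ ε : ℝ, 0 < ε → ∀ᶠ s in 𝓕, ∑ i ∈ A, mm (f i) s ≤ ε * (1 + ∑ j, mm (f j) s) := by
  classical
  let N : ℝ → ℝ := fun s => 1 + ∑ j, mm (f j) s
  let H : ℝ → ℝ := fun s => 1 + ∑ i ∈ A, mm (f i) s + Real.log s
  let W : ℕ → Set ℝ := fun m => {r : ℝ | 1 ≤ r ∧ ∃ j, (m : ℝ) * H r < mm (f j) r}
  have hN : Nc N :=
    { one_le := fun s hs => by
        have : 0 ≤ ∑ j, mm (f j) s := Finset.sum_nonneg fun _ _ => mm_nonneg _ _
        simp only [N]
        linarith
      mono := fun r s hr hrs => by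
        have : ∑ j, mm (f j) r ≤ ∑ j, mm (f j) s :=
          Finset.sum_le_sum fun j _ => mm_mono (hf j) (by linarith) hrs
        simp only [N]
        linarith }
  have hH1 : ∀ s, 1 ≤ s → 1 ≤ H s := by
    intro s hs
    have h1 : 0 ≤ ∑ j ∈ A, mm (f j) s := Finset.sum_nonneg fun _ _ => mm_nonneg _ _
    have h2 := Real.log_nonneg hs
    simp only [H]
    linarith
  have hHm : ∀ r s, 1 ≤ r → r ≤ s → H r ≤ H s := by
    intro r s hr hrs
    have h1 : ∑ j ∈ A, mm (f j) r ≤ ∑ j ∈ A, mm (f j) s :=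
      Finset.sum_le_sum fun j _ => mm_mono (hf j) (by linarith) hrs
    have h2 := Real.log_le_log (by linarith) hrs
    simp only [H]
    linarith
  have hHN : ∀ s, 1 ≤ s → H s ≤ TN N s := by
    intro s hs
    have h1 : ∑ j ∈ A, mm (f j) s ≤ ∑ j, mm (f j) s :=
      Finset.sum_le_sum_of_subset_of_nonneg (Finset.subset_univ _) fun _ _ _ => mm_nonneg _ _
    have h2 := Real.log_le_self (by linarith : 0 ≤ s)
    simp only [H, TN, N]
    linarith
  have hWN : ∀ m, ∀ s ∈ W m, (m : ℝ) * H s ≤ N s := by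
    rintro m s ⟨hs, j, hj⟩
    refine hj.le.trans ?_
    have h1 := Finset.single_le_sum (f := fun j => mm (f j) s) (fun _ _ => mm_nonneg _ _)
      (Finset.mem_univ j)
    simp only [N]
    linarith
  have hWanti : ∀ m m' : ℕ, m ≤ m' → W m' ⊆ W m := by
    rintro m m' hmm s ⟨hs, j, hj⟩
    refine ⟨hs, j, lt_of_le_of_lt ?_ hj⟩
    exact mul_le_mul_of_nonneg_right (by exact_mod_cast hmm) (by linarith [hH1 s hs])
  -- good radii
  have hkey : ∀ P ∈ FF (TN N), ∀ m : ℕ, (P ∩ W m).Nonempty := by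
    rintro P ⟨V, R0, hV, h2, h3⟩ m
    have := hV.fintype
    let e := Fintype.equivFin V
    obtain ⟨R1, hR1, hgood⟩ := exists_good_near hN.sc (fun j => ((e.symm j : V) : ℂ → ℂ))
      (fun j => (h2 _ (e.symm j).2).1) (fun j => (h2 _ (e.symm j).2).2.1)
      (fun j => (h2 _ (e.symm j).2).2.2)
    have hb1 := borel_bad (TN N) (fun s hs => hN.sc.one_le hs) hN.sc.mono
    have hb2 := borel_bad H hH1 hHm
    have hb3 : MeasureTheory.volume (Set.Icc (1 : ℝ) (max R0 R1)) < ⊤ := by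
      rw [Real.volume_Icc]
      exact ENNReal.ofReal_lt_top
    have hex : ∃ r ∈ W (2 * m), r ∉ {s : ℝ | 1 ≤ s ∧ 2 * TN N s < TN N (s + 1 / TN N s)} ∧
        r ∉ {s : ℝ | 1 ≤ s ∧ 2 * H s < H (s + 1 / H s)} ∧ r ∉ Set.Icc (1 : ℝ) (max R0 R1) := by
      by_contra hcon
      push Not at hcon
      have hsub : W (2 * m) ⊆ {s : ℝ | 1 ≤ s ∧ 2 * TN N s < TN N (s + 1 / TN N s)} ∪
          ({s : ℝ | 1 ≤ s ∧ 2 * H s < H (s + 1 / H s)} ∪ Set.Icc (1 : ℝ) (max R0 R1)) := by
        intro r hr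
        by_cases h4 : r ∈ {s : ℝ | 1 ≤ s ∧ 2 * TN N s < TN N (s + 1 / TN N s)}
        · exact Or.inl h4
        by_cases h5 : r ∈ {s : ℝ | 1 ≤ s ∧ 2 * H s < H (s + 1 / H s)}
        · exact Or.inr (Or.inl h5)
        exact Or.inr (Or.inr (hcon r hr h4 h5))
      have h4 : MeasureTheory.volume (W (2 * m)) < ⊤ := by
        refine (MeasureTheory.measure_mono hsub).trans_lt ?_
        refine (MeasureTheory.measure_union_le _ _).trans_lt ?_
        refine ENNReal.add_lt_top.2 ⟨hb1, ?_⟩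
        refine (MeasureTheory.measure_union_le _ _).trans_lt ?_
        exact ENNReal.add_lt_top.2 ⟨hb2, hb3⟩
      have h5 : MeasureTheory.volume (W (2 * m)) = ⊤ := by
        have := hbad (2 * m)
        exact this
      rw [h5] at h4
      exact lt_irrefl _ h4
    obtain ⟨r, ⟨hr1, j, hj⟩, hr2, hr3, hr4⟩ := hex
    have hrT : TN N (r + 1 / TN N r) ≤ 2 * TN N r := by
      by_contra h
      push Not at h
      exact hr2 ⟨hr1, h⟩
    have hrH : H (r + 1 / H r) ≤ 2 * H r := by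
      by_contra h
      push Not at h
      exact hr3 ⟨hr1, h⟩
    have hrR : max R0 R1 < r := by
      by_contra h
      push Not at h
      exact hr4 ⟨hr1, h⟩
    obtain ⟨s, hrs, hsr, hs⟩ := hgood r ((le_max_right _ _).trans hrR.le) hrT
    refine ⟨s, h3 s ((le_max_left R0 R1).trans (hrR.le.trans hrs)) fun g hg => ?_, ?_⟩
    · have := hs (e ⟨g, hg⟩)
      rwa [Equiv.symm_apply_apply] at this
    · have hs1 : 1 ≤ s := hr1.trans hrs
      have hHr := hH1 r hr1
      have h4 : 1 / TN N r ≤ 1 / H r := one_div_le_one_div_of_le (by linarith) (hHN r hr1)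
      have h5 : H s ≤ 2 * H r := (hHm s _ hs1 (by linarith)).trans hrH
      refine ⟨hs1, j, ?_⟩
      have h6 : mm (f j) r ≤ mm (f j) s := mm_mono (hf j) (by linarith) hrs
      refine lt_of_le_of_lt ?_ (hj.trans_le h6)
      push_cast
      have h7 : (0 : ℝ) ≤ m := Nat.cast_nonneg m
      nlinarith
  refine ⟨FF (TN N) ⊓ ⨅ m, 𝓟 (W m), ?_, ⟨inf_le_left, fun ε hε => ?_⟩, fun ε hε => ?_⟩
  · have hb : (⨅ m, 𝓟 (W m)).HasBasis (fun _ : ℕ => True) W := by
      refine Filter.hasBasis_iInf_principal ?_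
      intro m m'
      exact ⟨max m m', hWanti _ _ (le_max_left _ _), hWanti _ _ (le_max_right _ _)⟩
    rw [(FF (TN N)).basis_sets.inf_basis_neBot_iff hb]
    intro P hP m _
    exact hkey P hP m
  · obtain ⟨m, hm⟩ := exists_nat_gt (1 / ε)
    have h1 : W m ∈ FF (TN N) ⊓ ⨅ m, 𝓟 (W m) :=
      Filter.mem_inf_of_right (Filter.mem_iInf_of_mem m (Filter.mem_principal_self _))
    filter_upwards [h1] with s hs
    have h2 := hWN m s hs
    have h3 : Real.log s ≤ H s := by
      have h4 : 0 ≤ ∑ j ∈ A, mm (f j) s := Finset.sum_nonneg fun _ _ => mm_nonneg _ _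
      simp only [H]
      linarith
    have h4 := hH1 s hs.1
    have h5 : 1 ≤ ε * m := by
      rw [div_lt_iff₀ hε] at hm
      linarith
    have h6 : ε * (m * H s) ≤ ε * N s := mul_le_mul_of_nonneg_left h2 hε.le
    nlinarith
  · obtain ⟨m, hm⟩ := exists_nat_gt (1 / ε)
    have h1 : W m ∈ FF (TN N) ⊓ ⨅ m, 𝓟 (W m) :=
      Filter.mem_inf_of_right (Filter.mem_iInf_of_mem m (Filter.mem_principal_self _))
    filter_upwards [h1] with s hs
    have h2 := hWN m s hs
    have h3 : ∑ i ∈ A, mm (f i) s ≤ H s := by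
      have h4 := Real.log_nonneg hs.1
      simp only [H]
      linarith
    have h4 := hH1 s hs.1
    have h5 : 1 ≤ ε * m := by
      rw [div_lt_iff₀ hε] at hm
      linarith
    have h6 : ε * (m * H s) ≤ ε * N s := mul_le_mul_of_nonneg_left h2 hε.le
    show _ ≤ ε * N s
    nlinarith

theorem anaB {K : Type} [Field K] [NumberField K] (σ : K →+* ℂ) {ι κ : Type}
    [Finite ι] {n : ℕ} (F : ι → MvPolynomial (Fin n) (𝓞 K)) (G : κ → MvPolynomial (Fin n) (𝓞 K))
    (U A : Finset (Fin n))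
    (hU : ∀ z : Fin n → ℂ, (∀ l, eval₂ (σ.comp (algebraMap (𝓞 K) K)) z (F l) = 0) →
      ∀ i ∈ U, z i ≠ 0)
    (hal : Alone σ F G (U ∪ A)) (hgm : GmFib σ F G A)
    (f : ℂ → Fin n → ℂ) (hf : Differentiable ℂ f)
    (hF : ∀ z l, eval₂ (σ.comp (algebraMap (𝓞 K) K)) (f z) (F l) = 0)
    (hG : ∃ z l, eval₂ (σ.comp (algebraMap (𝓞 K) K)) (f z) (G l) ≠ 0) :
    ∃ C : ℝ, 0 ≤ C ∧ MeasureTheory.volume {r : ℝ | 1 ≤ r ∧
      ∃ j, C * (1 + ∑ i ∈ A, mm (fun z => f z i) r + Real.log r) < mm (fun z => f z j) r} < ⊤ := by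
  classical
  by_contra hcon
  push Not at hcon
  have hfj : ∀ j, Differentiable ℂ (fun z => f z j) := fun j => (differentiable_pi.1 hf) j
  obtain ⟨𝓕, hne, hFN, hsm⟩ := exists_filter A (fun j z => f z j) hfj
    (fun m => top_le_iff.1 (hcon m (Nat.cast_nonneg m)))
  let N : ℝ → ℝ := fun s => 1 + ∑ j, mm (fun z => f z j) s
  have hN : Nc N :=
    { one_le := fun s hs => by
        have : 0 ≤ ∑ j, mm (fun z => f z j) s := Finset.sum_nonneg fun _ _ => mm_nonneg _ _
        simp only [N]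
        linarith
      mono := fun r s hr hrs => by
        have : ∑ j, mm (fun z => f z j) r ≤ ∑ j, mm (fun z => f z j) s :=
          Finset.sum_le_sum fun j _ => mm_mono (hfj j) (by linarith) hrs
        simp only [N]
        linarith }
  let D0 := DcM hN hFN
  obtain ⟨z1, l, hG⟩ := hG
  let τ : 𝓞 K →+* ℂ := σ.comp (algebraMap (𝓞 K) K)
  have hbg : ∀ j, BG N (fun z => f z j) := fun j => ⟨1, fun s hs => by
    have h1 := Finset.single_le_sum (f := fun j => mm (fun z => f z j) s)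
      (fun _ _ => mm_nonneg _ _) (Finset.mem_univ j)
    simp only [N]
    linarith⟩
  let y : Fin n → RM N hN := fun j => mkM ⟨fun z => f z j, hfj j⟩ (hbg j)
  have hyf : ∀ j z, fm (y j) z = f z j := fun j z => rfl
  let FC : ι → MvPolynomial (Fin n) ℂ := fun i => MvPolynomial.map τ (F i)
  have hev : ∀ (P : MvPolynomial (Fin n) ℂ) (z : ℂ), fm (aeval y P) z = eval (f z) P := by
    intro P z
    let ev : RM N hN →ₐ[ℂ] ℂ := ((Pi.evalAlgHom ℂ (fun _ : ℂ => ℂ) z).comp Ent.val).comp (eM N hN)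
    have h1 : ev (aeval y P) = aeval (fun j => ev (y j)) P := by
      have h3 : (ev.comp (aeval y)) = aeval (fun j => ev (y j)) := by
        ext i
        simp
      exact DFunLike.congr_fun h3 P
    have h2 : aeval (fun j => ev (y j)) P = eval (f z) P := by
      rw [ae_eval]
      rfl
    rw [← h2, ← h1]
    rfl
  have hFC : ∀ i, aeval y (FC i) = 0 := by
    intro i
    apply eM_inj
    rw [map_zero]
    apply Subtype.ext
    funext z
    show fm (aeval y (FC i)) z = 0
    rw [hev]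
    simp only [FC]
    rw [eval_map]
    exact hF z i
  have hyU : ∀ i ∈ U, IsUnit (y i) := by
    intro i hi
    obtain ⟨B, hB⟩ := unit_cert σ (fun l => MvPolynomial.map (algebraMap (𝓞 K) K) (F l)) i
      (fun z hz => hU z (fun l => by
        have := hz l
        rwa [eval₂_map] at this) i hi)
    let Θ : MvPolynomial (Fin n) K →+* RM N hN :=
      eval₂Hom ((algebraMap ℂ (RM N hN)).comp σ) y
    have hΘF : ∀ l, Θ (MvPolynomial.map (algebraMap (𝓞 K) K) (F l)) = 0 := by
      intro l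
      have h1 := hFC l
      simp only [FC] at h1
      rw [aeval_def, eval₂_map] at h1
      show eval₂ _ _ _ = 0
      rw [eval₂_map]
      exact h1
    have h1 : Θ (B * X i - 1) = 0 := by
      have h2 : Ideal.span (Set.range fun l => MvPolynomial.map (algebraMap (𝓞 K) K) (F l)) ≤
          RingHom.ker Θ := by
        rw [Ideal.span_le]
        rintro _ ⟨l, rfl⟩
        exact hΘF l
      exact h2 hB
    have h3 : Θ B * y i = 1 := by
      rw [map_sub, map_mul, map_one, sub_eq_zero] at h1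
      rw [← h1]
      congr 1
      exact (eval₂_X _ _ _).symm
    exact IsUnit.of_mul_eq_one_right _ h3
  have hyA : ∀ i ∈ A, y i ∈ SS D0 := by
    intro i hi
    rw [mem_SS]
    intro ε hε
    filter_upwards [hsm ε hε, hFN.ge 1] with s g1 g2
    have h1 : (fun z => max (D0.lg (y i) z) 0) = fun z => posLog ‖f z i‖ := by
      funext z
      exact posLog_eq _
    rw [h1]
    refine UA.of_eq (by linarith) (ci_posLog (mero_of_diff (hfj i)) s) ?_
    refine le_trans ?_ g1
    exact Finset.single_le_sum (f := fun i => mm (fun z => f z i) s) (fun _ _ => mm_nonneg _ _) hi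
  have hGc : ∀ᶠ z in nhdsWithin z1 {z1}ᶜ, eval₂ τ (f z) (G l) ≠ 0 := by
    have h1 : Differentiable ℂ (fun z => eval₂ τ (f z) (G l)) := by
      have h2 : (fun z => eval₂ τ (f z) (G l)) = fm (aeval y (MvPolynomial.map τ (G l))) := by
        funext z
        rw [hev, eval_map]
      rw [h2]
      exact fm_diff _
    exact ev_ne h1 hG z1
  let 𝒰 : Ultrafilter ℂ := Ultrafilter.of (nhdsWithin z1 ({z1}ᶜ : Set ℂ))
  have h𝒰 : (𝒰 : Filter ℂ) ≤ nhdsWithin z1 ({z1}ᶜ : Set ℂ) := Ultrafilter.of_le _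
  let θ1 : Ent →+* GC ℂ 𝒰 := (gc 𝒰).comp Ent.val.toRingHom
  have hθ1 : Function.Injective θ1 := by
    rw [injective_iff_map_eq_zero]
    intro x hx
    by_contra hx0
    have h1 : ∀ᶠ z in (𝒰 : Filter ℂ), (x : ℂ → ℂ) z = 0 := (gc_zero 𝒰 _).1 hx
    have h2 : ∀ᶠ z in (𝒰 : Filter ℂ), (x : ℂ → ℂ) z ≠ 0 := h𝒰 ((rpN z1).rep_ne x hx0)
    obtain ⟨z, h3, h4⟩ := (h1.and h2).exists
    exact h4 h3
  let θ : RM N hN →+* GC ℂ 𝒰 := θ1.comp (eM N hN).toRingHom
  have hθ : Function.Injective θ := hθ1.comp eM_inj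
  have hθc : θ.comp (algebraMap ℂ (RM N hN)) =
      (gc 𝒰).comp ((Pi.constRingHom ℂ ℂ).comp (RingHom.id ℂ)) := rfl
  have hchar : CharZero (GC ℂ 𝒰) :=
    charZero_of_injective_ringHom (f := θ.comp (algebraMap ℂ (RM N hN))) (RingHom.injective _)
  have hmain := main D0 θ hθ (szdM hN hFN) U A FC y hFC hyU hyA (by
    refine ⟨1, zero_le_one, fun ε hε => ?_⟩
    filter_upwards [hFN.big (1 / ε), hFN.ge 1] with s g1 g2
    rw [div_le_iff₀ hε] at g1
    have i1 : ∀ i ∈ (Finset.univ : Finset (Fin n)),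
        CircleIntegrable (fun z => posLog ‖f z i‖) 0 s := fun i _ =>
      ci_posLog (mero_of_diff (hfj i)) s
    have i2 : CircleIntegrable (fun z => ∑ i, posLog ‖f z i‖) 0 s := by
      have := CircleIntegrable.sum Finset.univ i1
      have h3 : (∑ i, fun z => posLog ‖f z i‖) = fun z => ∑ i, posLog ‖f z i‖ := by
        funext z
        rw [Finset.sum_apply]
      rwa [h3] at this
    refine ⟨fun z => N s - ∑ i, posLog ‖f z i‖, (circleIntegrable_const _ _ _).sub i2, ?_, ?_⟩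
    · refine cod_of_all (by linarith) fun z hz => ?_
      show N ‖z‖ - 1 * ∑ i, max (Real.log ‖f z i‖) 0 ≤ _
      rw [hz, one_mul]
      simp only [posLog_eq]
      exact le_refl _
    · rw [Real.circleAverage_fun_sub (circleIntegrable_const _ _ _) i2, Real.circleAverage_const,
        Real.circleAverage_fun_sum i1]
      have h3 : ∑ i, Real.circleAverage (fun z => posLog ‖f z i‖) 0 s = N s - 1 := by
        simp only [N, mm]
        ring
      rw [h3]
      linarith) (not_neg_oneM hN hFN hne)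
  rw [hθc] at hmain
  rcases hmain with hsec | hcur
  · have hsec2 := gc_second 𝒰 (RingHom.id ℂ) (U ∪ A) FC f hsec
    obtain ⟨z, ⟨z', hz1, hz2, hz3⟩, hz4⟩ := (hsec2.and (h𝒰 hGc)).exists
    apply hz3
    refine hal (f z) z' (fun l => hF z l) (fun l => ?_) hz2 ⟨l, hz4⟩
    have h1 := hz1 l
    simp only [FC] at h1
    rw [eval₂_map, RingHom.id_comp] at h1
    exact h1
  · have hcur2 := gc_curve 𝒰 (RingHom.id ℂ) A FC f hcur
    obtain ⟨z, ⟨v, hv1, hv2, hv3, hv4, j, hj⟩, hz⟩ := (hcur2.and (h𝒰 hGc)).exists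
    have h1 := hgm v hv1 (fun i s hs => by
      have h2 := hv2 i s hs
      simp only [FC] at h2
      rw [eval₂_map, RingHom.id_comp] at h2
      exact h2) (fun i hi s s' hs hs' => by rw [hv3 i hi s hs, hv3 i hi s' hs'])
      ⟨2, 1, two_ne_zero, one_ne_zero, fun h => hj (congrFun h j)⟩ l 1 one_ne_zero
    rw [hv4] at h1
    exact hz h1

end Pool.Agent.N754.MT
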