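import Mathlib
import Pool.Agent.N754.MT.Ana
import Pool.Agent.N754.MT.Desc

/-!
Growth of entire curves and curves in fibres.
-/

set_option autoImplicit false
set_option linter.unusedSectionVars false

open Finset MvPolynomial Filter Metric

namespace Pool.Agent.N754.MT

open NumberField IsDedekindDomain
open Pool.Agent.Y742.SF Pool.Agent.Y742.AR
open Pool.Agent.W235.RM Pool.Agent.H159R3.Exp Pool.Agent.H159R3.NV Pool.Agent.W602.NC
open Pool.Agent.N754.LT
open Real (posLog)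

section

variable {K : Type} [Field K] [NumberField K] {ι κ : Type} {n : ℕ} (σ : K →+* ℂ)
  (F : ι → MvPolynomial (Fin n) (𝓞 K)) (G : κ → MvPolynomial (Fin n) (𝓞 K)) (U A : Finset (Fin n))

theorem ent_of_gm [Finite ι]
    (hU : ∀ z : Fin n → ℂ, (∀ l, eval₂ (σ.comp (algebraMap (𝓞 K) K)) z (F l) = 0) →
      ∀ i ∈ U, z i ≠ 0)
    (hal : Alone σ F G (U ∪ A)) (h : GmFib σ F G A) : EntFib σ F G A := by
  classical
  intro f hf hF hfA hnc z1 l
  by_contra hG
  let τ : 𝓞 K →+* ℂ := σ.comp (algebraMap (𝓞 K) K)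
  have hfj : ∀ j, Differentiable ℂ (fun z => f z j) := fun j => (differentiable_pi.1 hf) j
  let y : Fin n → Ent := fun j => ⟨fun z => f z j, hfj j⟩
  let FC : ι ⊕ A → MvPolynomial (Fin n) ℂ := fun i => match i with
    | Sum.inl i => MvPolynomial.map τ (F i)
    | Sum.inr i => X i.1 - C (f 0 i.1)
  have hev : ∀ (P : MvPolynomial (Fin n) ℂ) (z : ℂ), ((aeval y P : Ent) : ℂ → ℂ) z =
      eval (f z) P := by
    intro P z
    let ev : Ent →ₐ[ℂ] ℂ := (Pi.evalAlgHom ℂ (fun _ : ℂ => ℂ) z).comp Ent.val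
    have h1 : ev (aeval y P) = aeval (fun j => ev (y j)) P := by
      have h3 : (ev.comp (aeval y)) = aeval (fun j => ev (y j)) := by
        ext i
        simp
      exact DFunLike.congr_fun h3 P
    have h2 : aeval (fun j => ev (y j)) P = eval (f z) P := by
      rw [ae_eval]
      rfl
    rw [← h2, ← h1]
    rfl
  have hFC : ∀ i, aeval y (FC i) = 0 := by
    intro i
    apply Subtype.ext
    funext z
    rw [hev]
    rcases i with i | i
    · show eval (f z) (MvPolynomial.map τ (F i)) = 0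
      rw [eval_map]
      exact hF z i
    · show eval (f z) (X i.1 - C (f 0 i.1)) = 0
      rw [map_sub, eval_X, eval_C, hfA i.1 i.2 z 0, sub_self]
  have hyU : ∀ i ∈ U, ∃ u ∈ (⊤ : Subgroup Entˣ), (u : Ent) = y i := by
    intro i hi
    have h0 : ∀ z, f z i ≠ 0 := fun z => hU (f z) (fun l => hF z l) i hi
    let v : Ent := ⟨fun z => (f z i)⁻¹, (hfj i).inv h0⟩
    have h1 : y i * v = 1 := by
      apply Subtype.ext
      funext z
      exact mul_inv_cancel₀ (h0 z)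
    exact ⟨⟨y i, v, h1, by rw [mul_comm]; exact h1⟩, trivial, rfl⟩
  have hync : ∃ i, ∀ c : ℂ, y i ≠ algebraMap ℂ Ent c := by
    by_contra hcon
    push Not at hcon
    obtain ⟨z, w, hzw⟩ := hnc
    apply hzw
    funext j
    obtain ⟨c, hc⟩ := hcon j
    have h1 : ∀ z, f z j = c := fun z => by
      have h2 := congrArg (fun g : Ent => (g : ℂ → ℂ) z) hc
      exact h2
    rw [h1, h1]
  have hGc : ∀ᶠ z in nhdsWithin z1 {z1}ᶜ, eval₂ τ (f z) (G l) ≠ 0 := by
    have h1 : Differentiable ℂ (fun z => eval₂ τ (f z) (G l)) := by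
      have h2 : (fun z => eval₂ τ (f z) (G l)) =
          ((aeval y (MvPolynomial.map τ (G l)) : Ent) : ℂ → ℂ) := by
        funext z
        rw [hev, eval_map]
      rw [h2]
      exact (aeval y (MvPolynomial.map τ (G l)) : Ent).2
    exact ev_ne h1 hG z1
  let 𝒰 : Ultrafilter ℂ := Ultrafilter.of (nhdsWithin z1 ({z1}ᶜ : Set ℂ))
  have h𝒰 : (𝒰 : Filter ℂ) ≤ nhdsWithin z1 ({z1}ᶜ : Set ℂ) := Ultrafilter.of_le _
  let θ : Ent →+* GC ℂ 𝒰 := (gc 𝒰).comp Ent.val.toRingHom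
  have hθ : Function.Injective θ := by
    rw [injective_iff_map_eq_zero]
    intro x hx
    by_contra hx0
    have h1 : ∀ᶠ z in (𝒰 : Filter ℂ), (x : ℂ → ℂ) z = 0 := (gc_zero 𝒰 _).1 hx
    have h2 : ∀ᶠ z in (𝒰 : Filter ℂ), (x : ℂ → ℂ) z ≠ 0 := h𝒰 ((rpN z1).rep_ne x hx0)
    obtain ⟨z, h3, h4⟩ := (h1.and h2).exists
    exact h4 h3
  rcases dat_or2 U FC y hFC ⊤ (fun m g _ => unitN m g) (fun g _ => tfN g) hyU hync θ hθ with
    hsec | ⟨⟨d⟩⟩
  · have hsec2 := gc_second 𝒰 (RingHom.id ℂ) U FC f hsec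
    obtain ⟨z, ⟨z', hz1, hz2, hz3⟩, hz4⟩ := (hsec2.and (h𝒰 hGc)).exists
    apply hz3
    refine hal (f z) z' (fun l => hF z l) (fun l => ?_) (fun i hi => ?_) ⟨l, hz4⟩
    · have h1 : eval₂ (RingHom.id ℂ) z' (MvPolynomial.map τ (F l)) = 0 := hz1 (Sum.inl l)
      rw [eval₂_map, RingHom.id_comp] at h1
      exact h1
    · rcases Finset.mem_union.1 hi with h1 | h1
      · exact hz2 i h1
      · have h2 : eval₂ (RingHom.id ℂ) z' (X i - C (f 0 i)) = 0 := hz1 (Sum.inr ⟨i, h1⟩)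
        rw [eval₂_sub, eval₂_X, eval₂_C, RingHom.id_apply, sub_eq_zero] at h2
        rw [h2, hfA i h1 0 z]
  · have hcurve : ∀ᶠ z : ℂ in nhdsWithin z1 ({z1}ᶜ : Set ℂ),
        CurveAt (rpN z1) FC y (show (rpN z1).T from z) := curveN_dat z1 FC y hFC d
    obtain ⟨z, ⟨v, hv1, hv2, hv3, j0, hj0⟩, hz⟩ := (hcurve.and hGc).exists
    have h1 := h v hv1 (fun i t ht => by
      have h2 : eval (v t) (MvPolynomial.map τ (F i)) = 0 := hv2 (Sum.inl i) t ht
      rw [eval_map] at h2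
      exact h2) (fun i hi t s ht hs => by
        have h2 : eval (v t) (X i - C (f 0 i)) = 0 := hv2 (Sum.inr ⟨i, hi⟩) t ht
        have h3 : eval (v s) (X i - C (f 0 i)) = 0 := hv2 (Sum.inr ⟨i, hi⟩) s hs
        rw [map_sub, eval_X, eval_C] at h2 h3
        linear_combination h2 - h3)
      ⟨2, 1, two_ne_zero, one_ne_zero, fun h2 => hj0 (congrFun h2 j0)⟩ l 1 one_ne_zero
    rw [hv3] at h1
    exact hz h1

/-- growth of entire curves in families -/
def GrwFib (σ : K →+* ℂ) (F : ι → MvPolynomial (Fin n) (𝓞 K))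
    (G : κ → MvPolynomial (Fin n) (𝓞 K)) (A : Finset (Fin n)) : Prop :=
  ∀ f : ℂ → Fin n → ℂ, Differentiable ℂ f →
    (∀ z i, eval₂ (σ.comp (algebraMap (𝓞 K) K)) (f z) (F i) = 0) →
    (∃ z l, eval₂ (σ.comp (algebraMap (𝓞 K) K)) (f z) (G l) ≠ 0) →
    ∃ (C : ℝ) (E : Set ℝ), MeasureTheory.volume E < ⊤ ∧ ∀ r, 1 ≤ r → r ∉ E → ∀ j,
      Real.circleAverage (fun z => posLog ‖f z j‖) 0 r ≤
        C * (1 + ∑ i ∈ A, Real.circleAverage (fun z => posLog ‖f z i‖) 0 r)

theorem grw_of_gm [Finite ι]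
    (hU : ∀ z : Fin n → ℂ, (∀ l, eval₂ (σ.comp (algebraMap (𝓞 K) K)) z (F l) = 0) →
      ∀ i ∈ U, z i ≠ 0)
    (hal : Alone σ F G (U ∪ A)) (h : GmFib σ F G A) : GrwFib σ F G A := by
  classical
  intro f hf hF hG
  have hfj : ∀ j, Differentiable ℂ (fun z => f z j) := fun j => (differentiable_pi.1 hf) j
  by_cases hconst : ∀ z w, f z = f w
  · refine ⟨∑ j, posLog ‖f 0 j‖, ∅, by simp, fun r hr _ j => ?_⟩
    have h1 : ∀ j, (fun z => posLog ‖f z j‖) = fun _ => posLog ‖f 0 j‖ := fun j => by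
      funext z
      rw [hconst z 0]
    have h2 : 0 ≤ ∑ i ∈ A, Real.circleAverage (fun z => posLog ‖f z i‖) 0 r :=
      Finset.sum_nonneg fun i _ => mm_nonneg _ _
    have h3 : 0 ≤ ∑ j, posLog ‖f 0 j‖ := Finset.sum_nonneg fun _ _ => Real.posLog_nonneg
    rw [h1 j, Real.circleAverage_const]
    refine le_trans (Finset.single_le_sum (f := fun j => posLog ‖f 0 j‖)
      (fun _ _ => Real.posLog_nonneg) (Finset.mem_univ j)) ?_
    exact le_mul_of_one_le_right h3 (by linarith)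
  push Not at hconst
  obtain ⟨C, hC, hvol⟩ := anaB σ F G U A hU hal h f hf (fun z l => hF z l) hG
  by_cases hAc : ∀ i ∈ A, ∀ z w, f z i = f w i
  · exfalso
    obtain ⟨z, l, hl⟩ := hG
    exact hl (ent_of_gm σ F G U A hU hal h f hf hF hAc hconst z l)
  push Not at hAc
  obtain ⟨i, hi, z, w, hzw⟩ := hAc
  obtain ⟨C0, hC0⟩ := mm_lower (hfj i) ⟨z, w, hzw⟩
  refine ⟨C * (2 + |C0|), _, hvol, fun r hr hrE j => ?_⟩
  have h1 : mm (fun z => f z j) r ≤ C * (1 + ∑ i ∈ A, mm (fun z => f z i) r + Real.log r) := by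
    by_contra hcon
    push Not at hcon
    exact hrE ⟨hr, j, hcon⟩
  have h2 : 0 ≤ ∑ i ∈ A, mm (fun z => f z i) r := Finset.sum_nonneg fun i _ => mm_nonneg _ _
  have h3 : mm (fun z => f z i) r ≤ ∑ i ∈ A, mm (fun z => f z i) r :=
    Finset.single_le_sum (f := fun i => mm (fun z => f z i) r) (fun _ _ => mm_nonneg _ _) hi
  have h4 := hC0 r hr
  have h5 := le_abs_self C0
  have h6 := abs_nonneg C0
  have h7 : 1 + ∑ i ∈ A, mm (fun z => f z i) r + Real.log r ≤
      (2 + |C0|) * (1 + ∑ i ∈ A, mm (fun z => f z i) r) := by nlinarith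
  show mm (fun z => f z j) r ≤ C * (2 + |C0|) * (1 + ∑ i ∈ A, mm (fun z => f z i) r)
  refine h1.trans ?_
  rw [mul_assoc]
  exact mul_le_mul_of_nonneg_left h7 hC

omit [NumberField K] in
theorem gm_of_grw (h : GrwFib σ F G A) : GmFib σ F G A := by
  classical
  intro v hv hvF hvA ⟨t, s, ht, hs, hne⟩ l u hu
  by_contra hl
  let f : ℂ → Fin n → ℂ := fun ζ => v (Complex.exp ζ)
  have hd : Differentiable ℂ f := by
    rw [differentiable_pi]
    intro j
    exact (Laur.expPoly (hv j)).1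
  have hfj : ∀ j, Differentiable ℂ (fun z => f z j) := fun j => (differentiable_pi.1 hd) j
  have hfA : ∀ i ∈ A, ∀ z, f z i = f 0 i := fun i hi z =>
    hvA i hi _ _ (Complex.exp_ne_zero z) (Complex.exp_ne_zero 0)
  obtain ⟨C, E, hE, hb⟩ := h f hd (fun z i => hvF i _ (Complex.exp_ne_zero z))
    ⟨Complex.log u, l, by
      show eval₂ _ (v (Complex.exp (Complex.log u))) (G l) ≠ 0
      rw [Complex.exp_log hu]
      exact hl⟩
  obtain ⟨j, hj⟩ := Function.ne_iff.1 hne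
  obtain ⟨C0, hC0⟩ := mm_lower (hfj j) ⟨Complex.log t, Complex.log s, by
    show v (Complex.exp (Complex.log t)) j ≠ v (Complex.exp (Complex.log s)) j
    rw [Complex.exp_log ht, Complex.exp_log hs]
    exact hj⟩
  let B : ℝ := C * (1 + ∑ i ∈ A, posLog ‖f 0 i‖) + C0
  obtain ⟨r, hr1, hr2⟩ : ∃ r : ℝ, max 1 (Real.exp (B + 1)) ≤ r ∧ r ∉ E := by
    by_contra hcon
    push Not at hcon
    have h1 : MeasureTheory.volume (Set.Ici (max 1 (Real.exp (B + 1)))) ≤
        MeasureTheory.volume E := MeasureTheory.measure_mono fun r hr => hcon r hr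
    rw [Real.volume_Ici] at h1
    exact absurd hE (not_lt.2 h1)
  have hr : 1 ≤ r := (le_max_left _ _).trans hr1
  have h1 := hb r hr hr2 j
  have h2 := hC0 r hr
  have h3 : ∑ i ∈ A, Real.circleAverage (fun z => posLog ‖f z i‖) 0 r =
      ∑ i ∈ A, posLog ‖f 0 i‖ := by
    refine Finset.sum_congr rfl fun i hi => ?_
    have h4 : (fun z => posLog ‖f z i‖) = fun _ => posLog ‖f 0 i‖ := by
      funext z
      rw [hfA i hi z]
    rw [h4, Real.circleAverage_const]
  rw [h3] at h1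
  have h4 : B + 1 ≤ Real.log r := by
    rw [← Real.log_exp (B + 1)]
    exact Real.log_le_log (Real.exp_pos _) ((le_max_right _ _).trans hr1)
  have h5 : mm (fun z => f z j) r = Real.circleAverage (fun z => posLog ‖f z j‖) 0 r := rfl
  rw [h5] at h2
  simp only [B] at h4
  linarith

end

end Pool.Agent.N754.MT
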